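import Mathlib

/-! MP_d067c8_co, cyclic 5, Lemma X (paper: helper61's page): a rigid block (`R + 1` columns, `R` rows,
one star column `s`) without a 7-vertex side has an inclusion-minimal even step which is inside in one
direction and has no 2-step next to it.  Pure statement on natural numbers. -/

namespace Pool.Agent.Helper46.LemX

/-- A-heavy rigid block without M7: columns 1..R+1, star column s, rows 1..R. -/
structure Blk (R s : ℕ) (F X : ℕ → ℕ) : Prop where
  R4 : 4 ≤ R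
  s1 : 2 ≤ s
  s2 : s ≤ R
  Fmem : ∀ c, 1 ≤ c → c ≤ R + 1 → c ≠ s → 1 ≤ F c ∧ F c ≤ R
  Xmem : ∀ r, 1 ≤ r → r ≤ R → 1 ≤ X r ∧ X r ≤ R + 1 ∧ X r ≠ s
  XF : ∀ c, 1 ≤ c → c ≤ R + 1 → c ≠ s → X (F c) = c
  FX : ∀ r, 1 ≤ r → r ≤ R → F (X r) = r
  colU : ∀ c, 1 ≤ c → c ≤ R → c ≠ s → c + 1 ≠ s → F c < F (c + 1) → (F c + F (c + 1)) % 2 = 0
  colD : ∀ c, 1 ≤ c → c ≤ R → c ≠ s → c + 1 ≠ s → F (c + 1) < F c → (F c + F (c + 1)) % 2 = 1
  rowU : ∀ r, 1 ≤ r → r + 1 ≤ R → X r < X (r + 1) → (X r + X (r + 1)) % 2 = 1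
  rowD : ∀ r, 1 ≤ r → r + 1 ≤ R → X (r + 1) < X r → (X r + X (r + 1)) % 2 = 0
  no4 : ∀ c, 1 ≤ c → c ≤ R → c ≠ s → c + 1 ≠ s → F (c + 1) ≠ F c + 1 ∧ F c ≠ F (c + 1) + 1
  no7A : ∀ a b, 1 ≤ a → a + 3 ≤ R + 1 → 1 ≤ b → b + 2 ≤ R →
    ¬ (∀ j, b ≤ j → j ≤ b + 2 → a ≤ X j ∧ X j ≤ a + 3)
  no7B : ∀ a b, 1 ≤ a → a + 2 ≤ R + 1 → 1 ≤ b → b + 3 ≤ R →
    ¬ (∀ i, a ≤ i → i ≤ a + 2 → i ≠ s ∧ b ≤ F i ∧ F i ≤ b + 3)

/-- Column ascent, inclusion-minimal. -/
def MinC (R s : ℕ) (F : ℕ → ℕ) (e : ℕ) : Prop :=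
  1 ≤ e ∧ e ≤ R ∧ e ≠ s ∧ e + 1 ≠ s ∧ F e < F (e + 1) ∧
    ∀ a, 1 ≤ a → a ≤ R → a ≠ s → a + 1 ≠ s → F e ≤ F a → F a < F (a + 1) →
      F (a + 1) ≤ F (e + 1) → a = e

/-- Row step to the left, inclusion-minimal. -/
def MinR (R : ℕ) (X : ℕ → ℕ) (b : ℕ) : Prop :=
  1 ≤ b ∧ b + 1 ≤ R ∧ X (b + 1) < X b ∧
    ∀ a, 1 ≤ a → a + 1 ≤ R → X (b + 1) ≤ X (a + 1) → X (a + 1) < X a → X a ≤ X b → a = b

variable {R s : ℕ} {F X : ℕ → ℕ}

theorem Finj (h : Blk R s F X) {a b : ℕ} (a1 : 1 ≤ a) (aR : a ≤ R + 1) (as : a ≠ s) (b1 : 1 ≤ b)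
    (bR : b ≤ R + 1) (bs : b ≠ s) (e : F a = F b) : a = b := by
  rw [← h.XF a a1 aR as, e, h.XF b b1 bR bs]

theorem Xinj (h : Blk R s F X) {a b : ℕ} (a1 : 1 ≤ a) (aR : a ≤ R) (b1 : 1 ≤ b)
    (bR : b ≤ R) (e : X a = X b) : a = b := by
  rw [← h.FX a a1 aR, e, h.FX b b1 bR]

/-- The negation of the four alternatives. -/
structure Neg (R s : ℕ) (F X : ℕ → ℕ) : Prop where
  n1 : ∀ e, MinC R s F e → F (e + 1) + 1 ≤ R → X (F (e + 1) + 1) + 1 = e
  n2 : ∀ e, MinC R s F e → 2 ≤ F e → X (F e - 1) = e + 2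
  n3 : ∀ b, MinR R X b → 2 ≤ X (b + 1) → ¬ (X (b + 1) - 1 ≤ s ∧ s ≤ X b) →
    F (X (b + 1) - 1) + 1 = b
  n4 : ∀ b, MinR R X b → X b ≤ R → ¬ (X (b + 1) ≤ s ∧ s ≤ X b + 1) → F (X b + 1) = b + 2

/-- No column 2-step. -/
theorem K (h : Blk R s F X) (n : Neg R s F X) {a : ℕ} (a1 : 1 ≤ a) (aR : a ≤ R) (as : a ≠ s)
    (as1 : a + 1 ≠ s) : F (a + 1) ≠ F a + 2 := by
  intro e
  have hmin : MinC R s F a := by
    refine ⟨a1, aR, as, as1, by omega, ?_⟩
    intro b b1 bR bs bs1 h1 h2 h3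
    have := h.colU b b1 bR bs bs1 h2
    exact Finj h b1 (by omega) bs a1 (by omega) as (by omega)
  have hFa := h.Fmem a a1 (by omega) as
  have hFa1 := h.Fmem (a + 1) (by omega) (by omega) as1
  have h4 := h.R4
  by_cases hR : F (a + 1) + 1 ≤ R
  · have h1 := n.n1 a hmin hR
    have h2 := h.Xmem (F (a + 1) + 1) (by omega) hR
    have h3 := h.FX (F (a + 1) + 1) (by omega) hR
    set c := X (F (a + 1) + 1) with hc
    apply h.no7B c (F a) h2.1 (by omega) hFa.1 (by omega)
    intro i i1 i2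
    rcases (by omega : i = c ∨ i = a ∨ i = a + 1) with rfl | rfl | rfl
    · exact ⟨h2.2.2, by omega, by omega⟩
    · exact ⟨as, by omega, by omega⟩
    · exact ⟨as1, by omega, by omega⟩
  · have h1 := n.n2 a hmin (by omega)
    have h2 := h.Xmem (F a - 1) (by omega) (by omega)
    have h3 := h.FX (F a - 1) (by omega) (by omega)
    rw [h1] at h2 h3
    apply h.no7B a (F a - 1) a1 (by omega) (by omega) (by omega)
    intro i i1 i2
    rcases (by omega : i = a ∨ i = a + 1 ∨ i = a + 2) with rfl | rfl | rfl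
    · exact ⟨as, by omega, by omega⟩
    · exact ⟨as1, by omega, by omega⟩
    · exact ⟨h2.2.2, by omega, by omega⟩

/-- Property (*) of an inclusion-minimal left step. -/
theorem star (h : Blk R s F X) (n : Neg R s F X) {b : ℕ} (hb : MinR R X b) :
    (X (b + 1) = 1 ∨ X (b + 1) = s + 1 ∨ (X (b + 1) < s ∧ s < X b)) ∧
    (X b = R + 1 ∨ X b + 1 = s ∨ (X (b + 1) < s ∧ s < X b)) := by
  obtain ⟨b1, bR, hlt, -⟩ := id hb
  have hx := h.Xmem b b1 (by omega)
  have hx' := h.Xmem (b + 1) (by omega) bR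
  have hf := h.FX b b1 (by omega)
  have hf' := h.FX (b + 1) (by omega) bR
  constructor
  · by_contra hc
    have h1 := n.n3 b hb (by omega) (by omega)
    have := K h n (a := X (b + 1) - 1) (by omega) (by omega) (by omega) (by omega)
    rw [Nat.sub_add_cancel (by omega)] at this
    omega
  · by_contra hc
    have h1 := n.n4 b hb (by omega) (by omega)
    have := K h n (a := X b) (by omega) (by omega) (by omega) (by omega)
    omega

/-- Inside every ascent there is an inclusion-minimal one. -/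
theorem exMinC (k : ℕ) : ∀ a, 1 ≤ a → a ≤ R → a ≠ s → a + 1 ≠ s → F a < F (a + 1) →
    F (a + 1) - F a ≤ k → (∀ c d, 1 ≤ c → c ≤ R + 1 → c ≠ s → 1 ≤ d → d ≤ R + 1 → d ≠ s → F c = F d → c = d) →
    ∃ e, MinC R s F e ∧ F a ≤ F e ∧ F (e + 1) ≤ F (a + 1) := by
  induction k with
  | zero => intro a _ _ _ _ h1 h2; omega
  | succ k ih =>
    intro a a1 aR as as1 hlt hk hinj
    by_cases hm : MinC R s F a
    · exact ⟨a, hm, le_refl _, le_refl _⟩
    · have : ∃ b, 1 ≤ b ∧ b ≤ R ∧ b ≠ s ∧ b + 1 ≠ s ∧ F a ≤ F b ∧ F b < F (b + 1) ∧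
          F (b + 1) ≤ F (a + 1) ∧ b ≠ a := by
        by_contra hc
        push Not at hc
        exact hm ⟨a1, aR, as, as1, hlt, fun b b1 bR bs bs1 h1 h2 h3 => hc b b1 bR bs bs1 h1 h2 h3⟩
      obtain ⟨b, b1, bR, bs, bs1, h1, h2, h3, hne⟩ := this
      have h4 : F a ≠ F b := fun e => hne (hinj b a b1 (by omega) bs a1 (by omega) as e.symm)
      obtain ⟨e, he, h5, h6⟩ := ih b b1 bR bs bs1 h2 (by omega) hinj
      exact ⟨e, he, by omega, by omega⟩

/-- Inside every left step there is an inclusion-minimal one. -/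
theorem exMinR (k : ℕ) : ∀ b, 1 ≤ b → b + 1 ≤ R → X (b + 1) < X b → X b - X (b + 1) ≤ k →
    (∀ c d, 1 ≤ c → c ≤ R → 1 ≤ d → d ≤ R → X c = X d → c = d) →
    ∃ e, MinR R X e ∧ X (b + 1) ≤ X (e + 1) ∧ X e ≤ X b := by
  induction k with
  | zero => intro b _ _ h1 h2; omega
  | succ k ih =>
    intro b b1 bR hlt hk hinj
    by_cases hm : MinR R X b
    · exact ⟨b, hm, le_refl _, le_refl _⟩
    · have : ∃ a, 1 ≤ a ∧ a + 1 ≤ R ∧ X (b + 1) ≤ X (a + 1) ∧ X (a + 1) < X a ∧ X a ≤ X b ∧ a ≠ b := by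
        by_contra hc
        push Not at hc
        exact hm ⟨b1, bR, hlt, fun a a1 aR h1 h2 h3 => hc a a1 aR h1 h2 h3⟩
      obtain ⟨a, a1, aR, h1, h2, h3, hne⟩ := this
      have h4 : X a ≠ X b := fun e => hne (hinj a b a1 (by omega) b1 (by omega) e)
      obtain ⟨e, he, h5, h6⟩ := ih a a1 aR h2 (by omega) hinj
      exact ⟨e, he, by omega, by omega⟩

/-- The three types of inclusion-minimal ascents. -/
theorem typ (h : Blk R s F X) (n : Neg R s F X) {a : ℕ} (ha : MinC R s F a) :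
    (F a = 1 ∧ F (a + 1) = R) ∨
    (F a = 1 ∧ F (a + 1) < R ∧ 2 ≤ a ∧ F (a - 1) = F (a + 1) + 1 ∧
      ((a = 2 ∧ s = 4) ∨ (a = R ∧ s + 2 = R))) ∨
    (2 ≤ F a ∧ F (a + 1) = R ∧ F (a + 2) + 1 = F a ∧
      ((a = 1 ∧ s = 4) ∨ (a + 1 = R ∧ s + 2 = R))) := by
  obtain ⟨a1, aR, as, as1, hlt, -⟩ := id ha
  have hFa := h.Fmem a a1 (by omega) as
  have hFa1 := h.Fmem (a + 1) (by omega) (by omega) as1
  have hXa := h.XF a a1 (by omega) as
  have hXa1 := h.XF (a + 1) (by omega) (by omega) as1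
  by_cases hR : F (a + 1) + 1 ≤ R
  · have h1 := n.n1 a ha hR
    have h2 := h.Xmem (F (a + 1) + 1) (by omega) hR
    have h3 := h.FX (F (a + 1) + 1) (by omega) hR
    have hmin : MinR R X (F (a + 1)) := by
      refine ⟨by omega, hR, by omega, ?_⟩
      intro b b1 bR g1 g2 g3
      have := h.rowD b b1 bR g2
      exact Xinj h b1 (by omega) (by omega) (by omega) (by omega)
    have hs := star h n hmin
    have h5 : F a = 1 := by
      by_contra hne
      have g1 := n.n2 a ha (by omega)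
      have g2 := h.Xmem (F a - 1) (by omega) (by omega)
      omega
    refine Or.inr (Or.inl ⟨h5, by omega, by omega, ?_, by omega⟩)
    rw [← h3]
    congr 1
    omega
  · by_cases h5 : F a = 1
    · exact Or.inl ⟨h5, by omega⟩
    · have g1 := n.n2 a ha (by omega)
      have g2 := h.Xmem (F a - 1) (by omega) (by omega)
      have g3 := h.FX (F a - 1) (by omega) (by omega)
      have g4 : F a - 1 + 1 = F a := by omega
      have hmin : MinR R X (F a - 1) := by
        refine ⟨by omega, by omega, by rw [g4]; omega, ?_⟩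
        rw [g4]
        intro b b1 bR g1 g2 g3
        have := h.rowD b b1 bR g2
        exact Xinj h b1 (by omega) (by omega) (by omega) (by omega)
      have hs := star h n hmin
      rw [g4] at hs
      refine Or.inr (Or.inr ⟨by omega, by omega, ?_, by omega⟩)
      rw [← g1]
      omega

/-- Every ascent is inclusion-minimal. -/
theorem allMin (h : Blk R s F X) (n : Neg R s F X) {a : ℕ} (a1 : 1 ≤ a) (aR : a ≤ R) (as : a ≠ s)
    (as1 : a + 1 ≠ s) (hlt : F a < F (a + 1)) : MinC R s F a := by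
  obtain ⟨e, he, h1, h2⟩ := exMinC (F (a + 1) - F a) a a1 aR as as1 hlt (le_refl _)
    (fun c d c1 cR cs d1 dR ds e => Finj h c1 cR cs d1 dR ds e)
  obtain ⟨e1, eR, es, es1, -⟩ := id he
  have hFa := h.Fmem a a1 (by omega) as
  have hFa1 := h.Fmem (a + 1) (by omega) (by omega) as1
  rcases typ h n he with h3 | h3 | h3
  · have : a = e := Finj h a1 (by omega) as e1 (by omega) es (by omega)
    exact this ▸ he
  · have : a = e := Finj h a1 (by omega) as e1 (by omega) es (by omega)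
    exact this ▸ he
  · have : a + 1 = e + 1 := Finj h (by omega) (by omega) as1 (by omega) (by omega) es1 (by omega)
    have : a = e := by omega
    exact this ▸ he

/-- A descending run. -/
theorem run (h : Blk R s F X) {c : ℕ} (c1 : 1 ≤ c) (k : ℕ) :
    c + k ≤ R + 1 → (∀ i, c ≤ i → i < c + k → i ≠ s ∧ i + 1 ≠ s ∧ ¬ F i < F (i + 1)) →
    F (c + k) + 3 * k ≤ F c := by
  induction k with
  | zero => intro _ _; simp
  | succ k ih =>
    intro hR hi
    have h1 := ih (by omega) (fun i i1 i2 => hi i i1 (by omega))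
    obtain ⟨h2, h3, h4⟩ := hi (c + k) (by omega) (by omega)
    have h5 := h.no4 (c + k) (by omega) (by omega) h2 h3
    have h6 : F (c + k + 1) ≠ F (c + k) := fun e => by
      have := Finj h (by omega) (by omega) h3 (by omega) (by omega) h2 e
      omega
    have h7 := h.colD (c + k) (by omega) (by omega) h2 h3 (by omega)
    have h8 : c + (k + 1) = c + k + 1 := rfl
    rw [h8]
    omega

theorem ar1 {a s x2 x3 : ℕ} (hs : a < s) (x2s : x2 ≠ s)
    (d12 : ¬ ((a < s ↔ x2 < s) ∧ (a ≤ a ↔ x2 ≤ a)))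
    (d23 : ¬ ((x2 < s ↔ x3 < s) ∧ (x2 ≤ a ↔ x3 ≤ a))) (h3 : x3 < s) (h3' : a < x3) : s < x2 := by
  omega

theorem ar2 {a s x2 x3 : ℕ} (hs : s < a) (x2s : x2 ≠ s)
    (d12 : ¬ ((a < s ↔ x2 < s) ∧ (a ≤ a ↔ x2 ≤ a)))
    (d23 : ¬ ((x2 < s ↔ x3 < s) ∧ (x2 ≤ a ↔ x3 ≤ a))) (h3' : a < x3) : x2 < s := by
  omega

theorem ar3 {a s x2 x3 : ℕ} (hs : a < s) (x3s : x3 ≠ s)
    (d13 : ¬ ((a < s ↔ x3 < s) ∧ (a ≤ a ↔ x3 ≤ a)))
    (d23 : ¬ ((x2 < s ↔ x3 < s) ∧ (x2 ≤ a ↔ x3 ≤ a))) (h2 : x2 < s) (h2' : a < x2) : s < x3 := by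
  omega

theorem ar4 {a s x2 x3 : ℕ} (hs : s < a) (x3s : x3 ≠ s)
    (d13 : ¬ ((a < s ↔ x3 < s) ∧ (a ≤ a ↔ x3 ≤ a)))
    (d23 : ¬ ((x2 < s ↔ x3 < s) ∧ (x2 ≤ a ↔ x3 ≤ a))) (h2' : a < x2) : x3 < s := by
  omega

/-- four consecutive rows. -/
theorem ar5 {a s x0 x1 x2 x3 : ℕ} (as : a ≠ s) (as1 : a + 1 ≠ s) (n0 : x0 ≠ s) (n1 : x1 ≠ s)
    (n2 : x2 ≠ s) (n3 : x3 ≠ s)
    (g1 : ¬ ((x0 < s ↔ x1 < s) ∧ (x0 ≤ a ↔ x1 ≤ a)))
    (g2 : ¬ ((x0 < s ↔ x2 < s) ∧ (x0 ≤ a ↔ x2 ≤ a)))
    (g3 : ¬ ((x1 < s ↔ x2 < s) ∧ (x1 ≤ a ↔ x2 ≤ a)))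
    (g4 : ¬ ((x1 < s ↔ x3 < s) ∧ (x1 ≤ a ↔ x3 ≤ a)))
    (g5 : ¬ ((x2 < s ↔ x3 < s) ∧ (x2 ≤ a ↔ x3 ≤ a))) :
    (x0 < s ↔ x3 < s) ∧ (x0 ≤ a ↔ x3 ≤ a) := by
  rcases Nat.lt_or_ge a s with h | h
  · rcases Nat.lt_or_ge x0 s with h0 | h0 <;> rcases Nat.lt_or_ge x1 s with h1 | h1 <;>
    rcases Nat.lt_or_ge x2 s with h2 | h2 <;> rcases Nat.lt_or_ge x3 s with h3 | h3 <;> omega
  · rcases Nat.lt_or_ge x0 s with h0 | h0 <;> rcases Nat.lt_or_ge x1 s with h1 | h1 <;>
    rcases Nat.lt_or_ge x2 s with h2 | h2 <;> rcases Nat.lt_or_ge x3 s with h3 | h3 <;> omega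

/-- The single ascent from row 1 to row R. -/
theorem single (h : Blk R s F X) (n : Neg R s F X) {a : ℕ} (a1 : 1 ≤ a) (aR : a ≤ R) (as : a ≠ s)
    (as1 : a + 1 ≠ s) (e1 : F a = 1) (e2 : F (a + 1) = R)
    (hun : ∀ i, 1 ≤ i → i ≤ R → i ≠ s → i + 1 ≠ s → F i < F (i + 1) → i = a) : False := by
  have h4 := h.R4
  have hs1 := h.s1
  have hs2 := h.s2
  have hX1 : X 1 = a := by rw [← e1]; exact h.XF a a1 (by omega) as
  have hXR : X R = a + 1 := by
    have := h.XF (a + 1) (by omega) (by omega) as1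
    rwa [e2] at this
  -- two rows at distance k in the same run
  have key : ∀ r k, 1 ≤ r → r + k ≤ R → 1 ≤ k → (X r < s ↔ X (r + k) < s) →
      (X r ≤ a ↔ X (r + k) ≤ a) → X (r + k) < X r ∧ 3 * (X r - X (r + k)) ≤ k := by
    intro r k r1 rk k1 g1 g2
    have x1 := h.Xmem r r1 (by omega)
    have x2 := h.Xmem (r + k) (by omega) rk
    have f1 := h.FX r r1 (by omega)
    have f2 := h.FX (r + k) (by omega) rk
    rcases lt_trichotomy (X r) (X (r + k)) with g | g | g
    · have := run h x1.1 (X (r + k) - X r) (by omega) (fun i i1 i2 => by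
        refine ⟨by omega, by omega, fun hh => ?_⟩
        have := hun i (by omega) (by omega) (by omega) (by omega) hh
        omega)
      rw [Nat.add_sub_cancel' (by omega)] at this
      omega
    · have := Xinj h r1 (by omega) (by omega) rk g
      omega
    · refine ⟨g, ?_⟩
      have := run h x2.1 (X r - X (r + k)) (by omega) (fun i i1 i2 => by
        refine ⟨by omega, by omega, fun hh => ?_⟩
        have := hun i (by omega) (by omega) (by omega) (by omega) hh
        omega)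
      rw [Nat.add_sub_cancel' (by omega)] at this
      omega
  have dist : ∀ r k, 1 ≤ r → r + k ≤ R → 1 ≤ k → k ≤ 2 →
      ¬ ((X r < s ↔ X (r + k) < s) ∧ (X r ≤ a ↔ X (r + k) ≤ a)) := by
    intro r k r1 rk k1 k2 g
    have := key r k r1 rk k1 g.1 g.2
    omega
  -- period 3
  have same3 : ∀ r, 1 ≤ r → r + 3 ≤ R → (X r < s ↔ X (r + 3) < s) ∧ (X r ≤ a ↔ X (r + 3) ≤ a) := by
    intro r r1 r3
    have g1 := dist r 1 r1 (by omega) (by omega) (by omega)
    have g2 := dist r 2 r1 (by omega) (by omega) (by omega)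
    have g3 := dist (r + 1) 1 (by omega) (by omega) (by omega) (by omega)
    have g4 := dist (r + 1) 2 (by omega) (by omega) (by omega) (by omega)
    have g5 := dist (r + 2) 1 (by omega) (by omega) (by omega) (by omega)
    have g6 : r + 1 + 1 = r + 2 := rfl
    have g7 : r + 1 + 2 = r + 3 := rfl
    have g8 : r + 2 + 1 = r + 3 := rfl
    rw [g6] at g3
    rw [g7] at g4
    rw [g8] at g5
    have x0 := h.Xmem r r1 (by omega)
    have x1 := h.Xmem (r + 1) (by omega) (by omega)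
    have x2 := h.Xmem (r + 2) (by omega) (by omega)
    have x3 := h.Xmem (r + 3) (by omega) (by omega)
    exact ar5 as as1 x0.2.2 x1.2.2 x2.2.2 x3.2.2 g1 g2 g3 g4 g5
  have per : ∀ r, 1 ≤ r → r + 3 ≤ R → X (r + 3) + 1 = X r := by
    intro r r1 r3
    have g := same3 r r1 r3
    have := key r 3 r1 r3 (by omega) g.1 g.2
    omega
  have perk : ∀ k r, 1 ≤ r → r + 3 * k ≤ R → X (r + 3 * k) + k = X r ∧
      (X r < s ↔ X (r + 3 * k) < s) ∧ (X r ≤ a ↔ X (r + 3 * k) ≤ a) := by
    intro k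
    induction k with
    | zero => intro r _ _; simp
    | succ k ih =>
      intro r r1 rk
      have g1 := ih r r1 (by omega)
      have g2 := per (r + 3 * k) (by omega) (by omega)
      have g3 := same3 (r + 3 * k) (by omega) (by omega)
      have g4 : r + 3 * (k + 1) = r + 3 * k + 3 := by ring
      rw [g4]
      exact ⟨by omega, g1.2.1.trans g3.1, g1.2.2.trans g3.2⟩
  have x2m := h.Xmem 2 (by omega) (by omega)
  have x3m := h.Xmem 3 (by omega) (by omega)
  have x4 := per 1 (by omega) (by omega)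
  have d12 := dist 1 1 (by omega) (by omega) (by omega) (by omega)
  have d13 := dist 1 2 (by omega) (by omega) (by omega) (by omega)
  have d23 := dist 2 1 (by omega) (by omega) (by omega) (by omega)
  have u1 := h.rowU 1 (by omega) (by omega)
  have u2 := h.rowU 2 (by omega) (by omega)
  have u3 := h.rowU 3 (by omega) (by omega)
  have v1 := h.rowD 1 (by omega) (by omega)
  have v2 := h.rowD 2 (by omega) (by omega)
  have v3 := h.rowD 3 (by omega) (by omega)
  have w1 : 1 + 1 = 2 := rfl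
  have w2 : 1 + 2 = 3 := rfl
  have w3 : 2 + 1 = 3 := rfl
  have w4 : 3 + 1 = 4 := rfl
  have w5 : 1 + 3 = 4 := rfl
  rw [w1] at d12 u1 v1
  rw [w2] at d13
  rw [w3] at d23 u2 v2
  rw [w4] at u3 v3
  rw [w5, hX1] at x4
  rw [hX1] at d12 d13 u1 v1
  have hsa : s ≠ a + 1 := fun e => as1 e.symm
  rcases (by omega : R % 3 = 0 ∨ R % 3 = 1 ∨ R % 3 = 2) with hr | hr | hr
  · -- R = 3 q
    obtain ⟨q, hq⟩ : ∃ q, R = 3 + 3 * q := ⟨R / 3 - 1, by omega⟩
    have g1 := perk q 3 (by omega) (by omega)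
    rw [← hq, hXR] at g1
    have g2 := perk q 1 (by omega) (by omega)
    rw [hX1] at g2
    rcases Nat.lt_or_ge a s with hs | hs
    · -- star to the right: left step R-3 -> R-2
      have t3 : X 3 < s := g1.2.1.mpr (by omega)
      have t2 : s < X 2 := ar1 hs x2m.2.2 d12 d23 t3 (by omega)
      have p1 := u1 (by omega)
      have p2 := v2 (by omega)
      have hqo : q % 2 = 0 := by omega
      have g3 := per (R - 3) (by omega) (by omega)
      rw [Nat.sub_add_cancel (by omega), hXR] at g3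
      have g4 : R - 3 + 1 = 1 + 3 * q := by omega
      obtain ⟨b, hb, b1, b2⟩ := exMinR (R := R) (X := X) (X (R - 3) - X (R - 3 + 1)) (R - 3) (by omega)
        (by omega) (by rw [g4]; omega) (le_refl _) (fun c d c1 cR d1 dR e => Xinj h c1 cR d1 dR e)
      rw [g4] at b1
      have := star h n hb
      omega
    · have hs' : s < a := by omega
      have t2 : X 2 < s := ar2 hs' x2m.2.2 d12 d23 (by omega)
      have p2 := u2 (by omega)
      have p1 := v1 (by omega)
      have hqo : q % 2 = 0 := by omega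
      have g5 : ¬ X (1 + 3 * q) < s := fun hh => absurd (g2.2.1.mpr hh) (by omega)
      have g6 := h.Xmem (1 + 3 * q) (by omega) (by omega)
      obtain ⟨b, hb, b1, b2⟩ := exMinR (R := R) (X := X) (X 3 - X (3 + 1)) 3 (by omega)
        (by omega) (by rw [w4]; omega) (le_refl _) (fun c d c1 cR d1 dR e => Xinj h c1 cR d1 dR e)
      rw [w4] at b1
      have := star h n hb
      omega
  · obtain ⟨q, hq⟩ : ∃ q, R = 1 + 3 * q := ⟨R / 3, by omega⟩
    have g1 := (perk q 1 (by omega) (by omega)).1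
    rw [← hq, hXR] at g1
    omega
  · obtain ⟨q, hq⟩ : ∃ q, R = 2 + 3 * q := ⟨R / 3, by omega⟩
    have g1 := perk q 2 (by omega) (by omega)
    rw [← hq, hXR] at g1
    rcases Nat.lt_or_ge a s with hs | hs
    · have t2 : X 2 < s := g1.2.1.mpr (by omega)
      have t3 : s < X 3 := ar3 hs x3m.2.2 d13 d23 t2 (by omega)
      have p1 := u1 (by omega)
      have p2 := u2 (by omega)
      have p3 := v3 (by omega)
      omega
    · have hs' : s < a := by omega
      have t3 : X 3 < s := ar4 hs' x3m.2.2 d13 d23 (by omega)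
      have p1 := u1 (by omega)
      have p2 := v2 (by omega)
      have p3 := u3 (by omega)
      omega

/-- Every ascent is one of the three types (with the right places). -/
theorem contra (h : Blk R s F X) (n : Neg R s F X) : False := by
  have h4 := h.R4
  have hs1 := h.s1
  have hs2 := h.s2
  -- the descending part to the right of the star column 4
  have right : s = 4 → 5 ≤ R + 1 →
      (∀ i, 5 ≤ i → i ≤ R → ¬ F i < F (i + 1)) → R ≤ 5 := by
    intro e hR hi
    have := run h (c := 5) (by omega) (R + 1 - 5) (by omega)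
      (fun i i1 i2 => ⟨by omega, by omega, hi i i1 (by omega)⟩)
    rw [Nat.add_sub_cancel' (by omega)] at this
    have m1 := h.Fmem 5 (by omega) (by omega) (by omega)
    have m2 := h.Fmem (R + 1) (by omega) (by omega) (by omega)
    omega
  have left : s + 2 = R → 5 ≤ R → (∀ i, 1 ≤ i → i + 1 < s → ¬ F i < F (i + 1)) → R ≤ 5 := by
    intro e hR hi
    have := run h (c := 1) (by omega) (s - 2) (by omega)
      (fun i i1 i2 => ⟨by omega, by omega, hi i i1 (by omega)⟩)
    have m1 := h.Fmem 1 (by omega) (by omega) (by omega)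
    have m2 := h.Fmem (1 + (s - 2)) (by omega) (by omega) (by omega)
    omega
  -- type 2 does not occur
  have no2 : ∀ a, MinC R s F a → ¬ (F a = 1 ∧ F (a + 1) < R) := by
    intro a ha ⟨e1, e2⟩
    obtain ⟨a1, aR, as, as1, hlt, -⟩ := id ha
    have hc := h.colU a a1 aR as as1 hlt
    have hk := K h n a1 aR as as1
    rcases typ h n ha with t | ⟨-, -, a2, t1, t2⟩ | t
    · omega
    · have m1 := h.Fmem (a - 1) (by omega) (by omega) (by omega)
      have hR6 : 6 ≤ R := by omega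
      rcases t2 with ⟨ea, es⟩ | ⟨ea, es⟩
      · have : ∃ i, 5 ≤ i ∧ i ≤ R ∧ F i < F (i + 1) := by
          by_contra hno
          push Not at hno
          have := right es (by omega) (fun i i1 i2 => Nat.not_lt.mpr (hno i i1 i2))
          omega
        obtain ⟨i, i1, i2, hi⟩ := this
        have hm := allMin h n (by omega) i2 (by omega) (by omega) hi
        have mi := h.Fmem i (by omega) (by omega) (by omega)
        rcases typ h n hm with t | t | ⟨-, t3, t4, t5⟩
        · have := Finj h (by omega) (by omega) (by omega) a1 (by omega) as (t.1.trans e1.symm)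
          omega
        · have := Finj h (by omega) (by omega) (by omega) a1 (by omega) as (t.1.trans e1.symm)
          omega
        · -- R = 6, i = 5
          have hR : R = 6 := by omega
          have q1 : F (a - 1) ≠ F (i + 1) := fun e => by
            have := Finj h (by omega) (by omega) (by omega) (by omega) (by omega) (by omega) e
            omega
          omega
      · have : ∃ i, 1 ≤ i ∧ i + 1 < s ∧ F i < F (i + 1) := by
          by_contra hno
          push Not at hno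
          have := left es (by omega) (fun i i1 i2 => Nat.not_lt.mpr (hno i i1 i2))
          omega
        obtain ⟨i, i1, i2, hi⟩ := this
        have hm := allMin h n i1 (by omega) (by omega) (by omega) hi
        rcases typ h n hm with t | t | ⟨-, t3, t4, t5⟩
        · have := Finj h (by omega) (by omega) (by omega) a1 (by omega) as (t.1.trans e1.symm)
          omega
        · have := Finj h (by omega) (by omega) (by omega) a1 (by omega) as (t.1.trans e1.symm)
          omega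
        · have hR : R = 6 := by omega
          have q1 : F (a - 1) ≠ F (i + 1) := fun e => by
            have := Finj h (by omega) (by omega) (by omega) (by omega) (by omega) (by omega) e
            omega
          omega
    · omega
  -- type 3 does not occur
  have no3 : ∀ a, MinC R s F a → ¬ (2 ≤ F a) := by
    intro a ha e1
    obtain ⟨a1, aR, as, as1, hlt, -⟩ := id ha
    have hc := h.colU a a1 aR as as1 hlt
    have hk := K h n a1 aR as as1
    rcases typ h n ha with t | t | ⟨-, t1, t2, t3⟩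
    · omega
    · omega
    · have hR6 : 6 ≤ R := by omega
      have uniq : ∀ i, MinC R s F i → i = a := by
        intro i hi
        obtain ⟨i1, iR, is, is1, ilt, -⟩ := id hi
        have hno := no2 i hi
        have mi := h.Fmem (i + 1) (by omega) (by omega) is1
        have : F (i + 1) = R := by
          rcases typ h n hi with t | t | t
          · exact t.2
          · exact absurd ⟨t.1, t.2.1⟩ hno
          · exact t.2.1
        have := Finj h (by omega) (by omega) is1 (by omega) (by omega) as1 (this.trans t1.symm)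
        omega
      rcases t3 with ⟨ea, es⟩ | ⟨ea, es⟩
      · have := right es (by omega) (fun i i1 i2 hh => by
          have := uniq i (allMin h n (by omega) i2 (by omega) (by omega) hh)
          omega)
        omega
      · have := left es (by omega) (fun i i1 i2 hh => by
          have := uniq i (allMin h n i1 (by omega) (by omega) (by omega) hh)
          omega)
        omega
  by_cases hasc : ∃ a, 1 ≤ a ∧ a ≤ R ∧ a ≠ s ∧ a + 1 ≠ s ∧ F a < F (a + 1)
  · obtain ⟨a, a1, aR, as, as1, hlt⟩ := hasc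
    have typ1 : ∀ i, MinC R s F i → F i = 1 ∧ F (i + 1) = R := by
      intro i hi
      rcases typ h n hi with t | t | t
      · exact t
      · exact absurd ⟨t.1, t.2.1⟩ (no2 i hi)
      · exact absurd t.1 (no3 i hi)
    obtain ⟨e1, e2⟩ := typ1 a (allMin h n a1 aR as as1 hlt)
    refine single h n a1 aR as as1 e1 e2 ?_
    intro i i1 iR is is1 hi
    have := (typ1 i (allMin h n i1 iR is is1 hi)).1
    exact Finj h i1 (by omega) is a1 (by omega) as (this.trans e1.symm)
  · push Not at hasc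
    -- two runs: three rows 1, 2, 3
    have key : ∀ r k, 1 ≤ r → r + k ≤ R → 1 ≤ k → k ≤ 2 → ¬ (X r < s ↔ X (r + k) < s) := by
      intro r k r1 rk k1 k2 g1
      have x1 := h.Xmem r r1 (by omega)
      have x2 := h.Xmem (r + k) (by omega) rk
      have f1 := h.FX r r1 (by omega)
      have f2 := h.FX (r + k) (by omega) rk
      rcases lt_trichotomy (X r) (X (r + k)) with g | g | g
      · have := run h x1.1 (X (r + k) - X r) (by omega) (fun i i1 i2 =>
          ⟨by omega, by omega, Nat.not_lt.mpr (hasc i (by omega) (by omega) (by omega) (by omega))⟩)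
        rw [Nat.add_sub_cancel' (by omega)] at this
        omega
      · have := Xinj h r1 (by omega) (by omega) rk g
        omega
      · have := run h x2.1 (X r - X (r + k)) (by omega) (fun i i1 i2 =>
          ⟨by omega, by omega, Nat.not_lt.mpr (hasc i (by omega) (by omega) (by omega) (by omega))⟩)
        rw [Nat.add_sub_cancel' (by omega)] at this
        omega
    have g1 := key 1 1 (by omega) (by omega) (by omega) (by omega)
    have g2 := key 1 2 (by omega) (by omega) (by omega) (by omega)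
    have g3 := key 2 1 (by omega) (by omega) (by omega) (by omega)
    have w1 : 1 + 1 = 2 := rfl
    have w2 : 1 + 2 = 3 := rfl
    have w3 : 2 + 1 = 3 := rfl
    rw [w1] at g1
    rw [w2] at g2
    rw [w3] at g3
    omega

theorem lemmaX (h : Blk R s F X) :
    (∃ e, MinC R s F e ∧ F (e + 1) + 1 ≤ R ∧ X (F (e + 1) + 1) + 1 ≠ e) ∨
    (∃ e, MinC R s F e ∧ 2 ≤ F e ∧ X (F e - 1) ≠ e + 2) ∨
    (∃ b, MinR R X b ∧ 2 ≤ X (b + 1) ∧ ¬ (X (b + 1) - 1 ≤ s ∧ s ≤ X b) ∧
      F (X (b + 1) - 1) + 1 ≠ b) ∨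
    (∃ b, MinR R X b ∧ X b ≤ R ∧ ¬ (X (b + 1) ≤ s ∧ s ≤ X b + 1) ∧ F (X b + 1) ≠ b + 2) := by
  by_contra hc
  push Not at hc
  obtain ⟨h1, h2, h3, h4⟩ := hc
  exact contra h ⟨h1, h2, fun b hb g1 g2 => h3 b hb g1 (fun g => by omega), fun b hb g1 g2 => h4 b hb g1 (fun g => by omega)⟩

end Pool.Agent.Helper46.LemX
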