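import Mathlib

/-!
# Correlation of low rank matrices with Hadamard type matrices
-/

open Finset

namespace Pool.Agent.Helper46.Corr

lemma inner_eq {A : Type*} [Fintype A] (x y : EuclideanSpace ℂ A) :
    inner ℂ x y = ∑ a, (starRingEnd ℂ) (x a) * y a := by
  rw [PiLp.inner_apply]
  refine Finset.sum_congr rfl fun a _ => ?_
  rw [RCLike.inner_apply, mul_comm]

/-- A complex matrix `V` of rank at most `D` (the size of `L`) has correlation at most `√(T D) ‖V‖` with a real matrix
`H` with `H Hᵀ = T`; stated without square roots. -/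
theorem corr_le {A B : Type*} [Fintype A] [Fintype B] [DecidableEq A] (H : A → B → ℝ) (T : ℝ)
    (hT : 0 ≤ T) (hH : ∀ a a', ∑ b, H a b * H a' b = if a = a' then T else 0)
    {L : Type*} [Fintype L] (f : A → L → ℂ) (g : B → L → ℂ) (V : A → B → ℂ)
    (hV : ∀ a b, V a b = ∑ d, f a d * g b d) :
    (∑ a, ∑ b, H a b * (V a b).re) ^ 2 ≤ T * Fintype.card L * ∑ a, ∑ b, ‖V a b‖ ^ 2 := by
  classical
  let E := EuclideanSpace ℂ A
  let F : L → E := fun d => WithLp.toLp 2 (fun a => f a d)
  let W : Submodule ℂ E := Submodule.span ℂ (Set.range F)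
  have hWD : Module.finrank ℂ W ≤ Fintype.card L := by
    have := finrank_range_le_card (R := ℂ) F
    simpa [Set.finrank] using this
  let u := stdOrthonormalBasis ℂ W
  let v : B → E := fun b => WithLp.toLp 2 (fun a => V a b)
  have hvW : ∀ b, v b ∈ W := by
    intro b
    have : v b = ∑ d, g b d • F d := by
      ext a
      rw [WithLp.ofLp_sum, Finset.sum_apply]
      simp only [v, hV]
      refine Finset.sum_congr rfl fun d _ => ?_
      change f a d * g b d = g b d * f a d
      rw [mul_comm]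
    rw [this]
    exact Submodule.sum_mem _ fun d _ => Submodule.smul_mem _ _ (Submodule.subset_span ⟨d, rfl⟩)
  let η : B → E := fun b => WithLp.toLp 2 (fun a => (H a b : ℂ))
  have h1 : ∀ b, inner ℂ (η b) (v b) = ∑ k, inner ℂ (η b) (u k : E) * inner ℂ (u k : E) (v b) := by
    intro b
    have h2 : v b = ∑ k, inner ℂ (u k : E) (v b) • (u k : E) := by
      have h3 := u.sum_repr' (⟨v b, hvW b⟩ : W)
      have h4 := congrArg (fun w : W => (w : E)) h3
      simp only [Submodule.coe_sum, Submodule.coe_smul, Submodule.coe_inner] at h4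
      exact h4.symm
    conv_lhs => rw [h2]
    rw [inner_sum]
    refine Finset.sum_congr rfl fun k _ => ?_
    rw [inner_smul_right, mul_comm]
  have h5 : ∀ b, ∑ a, ‖V a b‖ ^ 2 = ∑ k, ‖inner ℂ (u k : E) (v b)‖ ^ 2 := by
    intro b
    have h6 := u.sum_sq_norm_inner_right (⟨v b, hvW b⟩ : W)
    have h7 : ‖(⟨v b, hvW b⟩ : W)‖ ^ 2 = ∑ a, ‖V a b‖ ^ 2 := by
      rw [Submodule.coe_norm, EuclideanSpace.norm_sq_eq]
    rw [← h7, ← h6]
    rfl
  have h8 : ∀ k, ∑ b, ‖inner ℂ (η b) (u k : E)‖ ^ 2 = T := by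
    intro k
    have h9 : ∀ b, ((‖inner ℂ (η b) (u k : E)‖ ^ 2 : ℝ) : ℂ)
        = ∑ a, ∑ a', ((H a b * H a' b : ℝ) : ℂ) * ((u k : E) a * (starRingEnd ℂ) ((u k : E) a')) := by
      intro b
      rw [← Complex.normSq_eq_norm_sq, Complex.normSq_eq_conj_mul_self, mul_comm]
      have h10 : inner ℂ (η b) (u k : E) = ∑ a, (H a b : ℂ) * (u k : E) a := by
        rw [inner_eq]
        simp [η]
      rw [h10, map_sum, Finset.sum_mul_sum]
      refine Finset.sum_congr rfl fun a _ => Finset.sum_congr rfl fun a' _ => ?_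
      rw [map_mul, Complex.conj_ofReal]
      push_cast
      ring
    have h11 : ((∑ b, ‖inner ℂ (η b) (u k : E)‖ ^ 2 : ℝ) : ℂ) = T := by
      rw [Complex.ofReal_sum]
      rw [Finset.sum_congr rfl fun b _ => h9 b, Finset.sum_comm]
      have h12 : ∀ a, ∑ b, ∑ a', ((H a b * H a' b : ℝ) : ℂ)
            * ((u k : E) a * (starRingEnd ℂ) ((u k : E) a'))
          = (T : ℂ) * ((u k : E) a * (starRingEnd ℂ) ((u k : E) a)) := by
        intro a
        rw [Finset.sum_comm]
        have h13 : ∀ a', ∑ b, ((H a b * H a' b : ℝ) : ℂ)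
            * ((u k : E) a * (starRingEnd ℂ) ((u k : E) a'))
            = (if a = a' then (T : ℂ) else 0) * ((u k : E) a * (starRingEnd ℂ) ((u k : E) a')) := by
          intro a'
          rw [← Finset.sum_mul, ← Complex.ofReal_sum, hH]
          split_ifs <;> simp
        rw [Finset.sum_congr rfl fun a' _ => h13 a']
        simp
      rw [Finset.sum_congr rfl fun a _ => h12 a, ← Finset.mul_sum]
      have h14 : ‖(u k : E)‖ ^ 2 = 1 := by
        have := u.orthonormal.1 k
        rw [← Submodule.coe_norm, this]; norm_num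
      rw [EuclideanSpace.norm_sq_eq] at h14
      have h15 : ∑ a, (u k : E) a * (starRingEnd ℂ) ((u k : E) a) = 1 := by
        have h16 := congrArg (fun x : ℝ => (x : ℂ)) h14
        simp only [Complex.ofReal_one] at h16
        rw [← h16, Complex.ofReal_sum]
        refine Finset.sum_congr rfl fun a _ => ?_
        rw [← Complex.normSq_eq_norm_sq, Complex.normSq_eq_conj_mul_self, mul_comm]
      rw [h15, mul_one]
    exact_mod_cast h11
  have h20 : ∑ a, ∑ b, H a b * (V a b).re = (∑ b, inner ℂ (η b) (v b)).re := by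
    rw [Finset.sum_comm, Complex.re_sum]
    refine Finset.sum_congr rfl fun b _ => ?_
    rw [inner_eq, Complex.re_sum]
    refine Finset.sum_congr rfl fun a _ => ?_
    simp [η, v]
  have h21 : ‖∑ b, inner ℂ (η b) (v b)‖ ^ 2
      ≤ (∑ p : B × Fin (Module.finrank ℂ W), ‖inner ℂ (η p.1) (u p.2 : E)‖ ^ 2)
        * ∑ p : B × Fin (Module.finrank ℂ W), ‖inner ℂ (u p.2 : E) (v p.1)‖ ^ 2 := by
    have h22 : ‖∑ b, inner ℂ (η b) (v b)‖
        ≤ ∑ p : B × Fin (Module.finrank ℂ W),
          ‖inner ℂ (η p.1) (u p.2 : E)‖ * ‖inner ℂ (u p.2 : E) (v p.1)‖ := by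
      rw [Finset.sum_congr rfl fun b _ => h1 b, ← Finset.univ_product_univ, Finset.sum_product]
      refine (norm_sum_le _ _).trans (Finset.sum_le_sum fun b _ => ?_)
      refine (norm_sum_le _ _).trans (Finset.sum_le_sum fun k _ => ?_)
      rw [norm_mul]
    refine (pow_le_pow_left₀ (norm_nonneg _) h22 2).trans ?_
    exact Finset.sum_mul_sq_le_sq_mul_sq _ _ _
  have h23 : ∑ p : B × Fin (Module.finrank ℂ W), ‖inner ℂ (η p.1) (u p.2 : E)‖ ^ 2
      = T * Module.finrank ℂ W := by
    rw [← Finset.univ_product_univ, Finset.sum_product_right]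
    rw [Finset.sum_congr rfl fun k _ => h8 k]
    simp [mul_comm]
  have h24 : ∑ p : B × Fin (Module.finrank ℂ W), ‖inner ℂ (u p.2 : E) (v p.1)‖ ^ 2
      = ∑ a, ∑ b, ‖V a b‖ ^ 2 := by
    rw [← Finset.univ_product_univ, Finset.sum_product]
    rw [Finset.sum_comm (f := fun a b => ‖V a b‖ ^ 2)]
    exact Finset.sum_congr rfl fun b _ => (h5 b).symm
  rw [h23, h24] at h21
  have h25 : (∑ a, ∑ b, H a b * (V a b).re) ^ 2 ≤ ‖∑ b, inner ℂ (η b) (v b)‖ ^ 2 := by
    rw [h20]
    have := Complex.abs_re_le_norm (∑ b, inner ℂ (η b) (v b))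
    calc (∑ b, inner ℂ (η b) (v b)).re ^ 2 = |(∑ b, inner ℂ (η b) (v b)).re| ^ 2 := (sq_abs _).symm
      _ ≤ _ := pow_le_pow_left₀ (abs_nonneg _) this 2
  refine h25.trans (h21.trans ?_)
  have hS : 0 ≤ ∑ a, ∑ b, ‖V a b‖ ^ 2 :=
    Finset.sum_nonneg fun a _ => Finset.sum_nonneg fun b _ => by positivity
  refine mul_le_mul_of_nonneg_right ?_ hS
  exact mul_le_mul_of_nonneg_left (by exact_mod_cast hWD) hT

end Pool.Agent.Helper46.Corr
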