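import Mathlib

/-!
# Forster's theorem on the sign rank of Hadamard type matrices
-/

open Finset Matrix

namespace Pool.Agent.Helper46.Forster

/-- Perturbation to general position. -/
theorem exists_perturb {A B : Type*} [Fintype A] [Fintype B] {k : ℕ}
    (u : A → Fin k → ℝ) (v : B → Fin k → ℝ) (H : A → B → ℝ)
    (hpos : ∀ a b, 0 < H a b * (u a ⬝ᵥ v b)) :
    ∃ u' : A → Fin k → ℝ, (∀ a b, 0 < H a b * (u' a ⬝ᵥ v b)) ∧
      ∀ s : Fin k → A, Function.Injective s → (Matrix.of fun i => u' (s i)).det ≠ 0 := by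
  classical
  let g : A → ℝ := fun a => ((Fintype.equivFin A a : ℕ) : ℝ)
  have hg : Function.Injective g := by
    intro a b hab
    have h1 : ((Fintype.equivFin A a : ℕ) : ℝ) = ((Fintype.equivFin A b : ℕ) : ℝ) := hab
    exact (Fintype.equivFin A).injective (Fin.ext (by exact_mod_cast h1))
  let W : A → Fin k → ℝ := fun a j => g a ^ (j : ℕ)
  have hW : ∀ s : Fin k → A, Function.Injective s →
      (Matrix.of fun i => W (s i)).det ≠ 0 := by
    intro s hs
    have : (Matrix.of fun i => W (s i)) = Matrix.vandermonde (fun i => g (s i)) := by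
      ext i j
      simp [W, Matrix.vandermonde_apply]
    rw [this, Matrix.det_vandermonde_ne_zero_iff]
    exact hg.comp hs
  let p : (Fin k → A) → Polynomial ℝ := fun s =>
    ((Polynomial.X : Polynomial ℝ) • (Matrix.of fun i => W (s i)).map Polynomial.C
      + (Matrix.of fun i => u (s i)).map Polynomial.C).det
  have hp0 : ∀ s, Function.Injective s → p s ≠ 0 := by
    intro s hs h
    have h1 := Polynomial.coeff_det_X_add_C_card (Matrix.of fun i => W (s i))
      (Matrix.of fun i => u (s i))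
    change (p s).coeff _ = _ at h1
    rw [h, Polynomial.coeff_zero] at h1
    exact hW s hs h1.symm
  have hpe : ∀ s (ε : ℝ), (p s).eval ε = (Matrix.of fun i => u (s i) + ε • W (s i)).det := by
    intro s ε
    change Polynomial.evalRingHom ε (p s) = _
    rw [RingHom.map_det]
    congr 1
    ext i j
    simp [Matrix.map_apply]
    ring
  let bad : Set ℝ := ⋃ s : {s : Fin k → A // Function.Injective s}, {ε | (p s.1).IsRoot ε}
  have hbad : bad.Finite := by
    refine Set.finite_iUnion fun s => ?_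
    exact Polynomial.finite_setOfPred_isRoot (hp0 s.1 s.2)
  have hgood : ∀ᶠ ε : ℝ in nhds 0, ∀ a b, 0 < H a b * ((u a + ε • W a) ⬝ᵥ v b) := by
    rw [Filter.eventually_all]
    intro a
    rw [Filter.eventually_all]
    intro b
    have hc : Continuous (fun ε : ℝ => H a b * ((u a + ε • W a) ⬝ᵥ v b)) := by
      simp only [add_dotProduct, smul_dotProduct]
      fun_prop
    refine hc.continuousAt.eventually (lt_mem_nhds ?_)
    simpa using hpos a b
  have hbad2 : ∀ᶠ ε : ℝ in nhdsWithin 0 {0}ᶜ, ε ∉ bad := by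
    have h1 : (bad \ {0})ᶜ ∈ nhds (0 : ℝ) :=
      (hbad.subset Set.sdiff_subset).isClosed.isOpen_compl.mem_nhds (by simp)
    filter_upwards [nhdsWithin_le_nhds h1, self_mem_nhdsWithin] with ε h2 h3 h4
    exact h2 ⟨h4, h3⟩
  obtain ⟨ε, h1, h2⟩ := ((hgood.filter_mono nhdsWithin_le_nhds).and hbad2).exists
  refine ⟨fun a => u a + ε • W a, h1, fun s hs h3 => h2 ?_⟩
  refine Set.mem_iUnion.2 ⟨⟨s, hs⟩, ?_⟩
  change (p s).eval ε = 0
  rw [hpe]
  exact h3

/-- A weak form of Hadamard's inequality. -/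
theorem det_sq_le {k : ℕ} (M : Matrix (Fin k) (Fin k) ℝ) :
    M.det ^ 2 ≤ (k.factorial : ℝ) ^ 2 * ∏ i, (M i ⬝ᵥ M i) := by
  have h0 : ∀ i, 0 ≤ M i ⬝ᵥ M i := fun i => Finset.sum_nonneg fun j _ => mul_self_nonneg _
  have h1 : |M.det| ≤ k.factorial * ∏ i, Real.sqrt (M i ⬝ᵥ M i) := by
    rw [Matrix.det_apply]
    refine (Finset.abs_sum_le_sum_abs _ _).trans ?_
    have h2 : ∀ σ ∈ (univ : Finset (Equiv.Perm (Fin k))),
        |Equiv.Perm.sign σ • ∏ i, M (σ i) i| ≤ ∏ i, Real.sqrt (M i ⬝ᵥ M i) := by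
      intro σ _
      have h3 : |Equiv.Perm.sign σ • ∏ i, M (σ i) i| = ∏ i, |M (σ i) i| := by
        rcases Int.units_eq_one_or (Equiv.Perm.sign σ) with h | h <;> simp [h, Finset.abs_prod]
      rw [h3, ← Equiv.prod_comp σ (fun i => Real.sqrt (M i ⬝ᵥ M i))]
      refine Finset.prod_le_prod (fun i _ => abs_nonneg _) fun i _ => ?_
      refine Real.abs_le_sqrt ?_
      rw [sq]
      exact Finset.single_le_sum (f := fun j => M (σ i) j * M (σ i) j)
        (fun j _ => mul_self_nonneg _) (Finset.mem_univ i)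
    refine (Finset.sum_le_sum h2).trans ?_
    rw [Finset.sum_const, Finset.card_univ, Fintype.card_perm, Fintype.card_fin, nsmul_eq_mul]
  rw [← sq_abs]
  refine (pow_le_pow_left₀ (abs_nonneg _) h1 2).trans ?_
  rw [mul_pow, ← Finset.prod_pow]
  refine le_of_eq ?_
  congr 1
  exact Finset.prod_congr rfl fun i _ => Real.sq_sqrt (h0 i)

/-- The objective function is bounded. -/
theorem bounded {A : Type*} [Fintype A] [AddGroup A] {k : ℕ} (f : Fin k → A)
    (hf : Function.Injective f) (u : A → Fin k → ℝ)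
    (hu : ∀ s : Fin k → A, Function.Injective s → (Matrix.of fun i => u (s i)).det ≠ 0) :
    ∃ K : ℝ, ∀ B : Matrix (Fin k) (Fin k) ℝ,
      (B.det ^ 2) ^ Fintype.card A ≤ K * (∏ a, ((B *ᵥ u a) ⬝ᵥ (B *ᵥ u a))) ^ k := by
  let U : A → Matrix (Fin k) (Fin k) ℝ := fun c => Matrix.of fun i => u (c + f i)
  have hU : ∀ c, (U c).det ≠ 0 := fun c => hu _ fun i j hij => hf (add_left_cancel hij)
  refine ⟨∏ c, ((k.factorial : ℝ) ^ 2 / (U c).det ^ 2), fun B => ?_⟩
  have h1 : ∀ c, B.det ^ 2 ≤ ((k.factorial : ℝ) ^ 2 / (U c).det ^ 2)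
      * ∏ i, ((B *ᵥ u (c + f i)) ⬝ᵥ (B *ᵥ u (c + f i))) := by
    intro c
    have h2 := det_sq_le (U c * Bᵀ)
    rw [Matrix.det_mul, Matrix.det_transpose, mul_pow] at h2
    have h3 : ∀ i, (U c * Bᵀ) i = B *ᵥ u (c + f i) := by
      intro i
      ext j
      simp [U, Matrix.mul_apply, Matrix.mulVec, dotProduct, mul_comm]
    simp only [h3] at h2
    have h4 : 0 < (U c).det ^ 2 := by have := hU c; positivity
    rw [div_mul_eq_mul_div, le_div_iff₀ h4]
    linarith
  have h5 : (B.det ^ 2) ^ Fintype.card A = ∏ _c : A, B.det ^ 2 := by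
    rw [Finset.prod_const, Finset.card_univ]
  rw [h5]
  refine (Finset.prod_le_prod (fun c _ => sq_nonneg _) fun c _ => h1 c).trans ?_
  rw [Finset.prod_mul_distrib]
  refine le_of_eq ?_
  congr 1
  rw [Finset.prod_comm]
  have h6 : ∀ i : Fin k, ∏ c, ((B *ᵥ u (c + f i)) ⬝ᵥ (B *ᵥ u (c + f i)))
      = ∏ a, ((B *ᵥ u a) ⬝ᵥ (B *ᵥ u a)) := by
    intro i
    exact Equiv.prod_comp (Equiv.addRight (f i)) (fun a => (B *ᵥ u a) ⬝ᵥ (B *ᵥ u a))
  simp only [h6]
  rw [Finset.prod_const, Finset.card_univ, Fintype.card_fin]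

/-- The determinant of `1 + t w wᵀ`. -/
theorem det_update {k : ℕ} (w : Fin k → ℝ) (hw : w ⬝ᵥ w = 1) (t : ℝ) :
    (1 + t • vecMulVec w w : Matrix (Fin k) (Fin k) ℝ).det = 1 + t := by
  have h1 : (t • vecMulVec w w : Matrix (Fin k) (Fin k) ℝ)
      = replicateCol Unit (t • w) * replicateRow Unit w := by
    rw [← smul_vecMulVec, vecMulVec_eq Unit]
  rw [h1, det_one_add_replicateCol_mul_replicateRow, dotProduct_smul, hw, smul_eq_mul, mul_one]

theorem norm_update {k : ℕ} (w : Fin k → ℝ) (hw : w ⬝ᵥ w = 1) (t : ℝ) (x : Fin k → ℝ) :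
    ((1 + t • vecMulVec w w : Matrix (Fin k) (Fin k) ℝ) *ᵥ x) ⬝ᵥ
      ((1 + t • vecMulVec w w : Matrix (Fin k) (Fin k) ℝ) *ᵥ x)
      = x ⬝ᵥ x + (2 * t + t ^ 2) * (w ⬝ᵥ x) ^ 2 := by
  have h1 : (1 + t • vecMulVec w w : Matrix (Fin k) (Fin k) ℝ) *ᵥ x = x + (t * (w ⬝ᵥ x)) • w := by
    rw [Matrix.add_mulVec, Matrix.one_mulVec, Matrix.smul_mulVec, Matrix.vecMulVec_mulVec]
    congr 1
    ext i
    simp
    ring
  rw [h1]
  simp only [add_dotProduct, dotProduct_add, smul_dotProduct, dotProduct_smul, hw, smul_eq_mul]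
  rw [dotProduct_comm x w]
  ring

/-- The radial isotropic position, up to an arbitrarily small error. -/
theorem near_isotropic {A : Type*} [Fintype A] [AddGroup A] {k : ℕ} (hk : 0 < k) (f : Fin k → A)
    (hf : Function.Injective f) (u : A → Fin k → ℝ)
    (hu : ∀ s : Fin k → A, Function.Injective s → (Matrix.of fun i => u (s i)).det ≠ 0)
    (hu0 : ∀ a, u a ≠ 0) (δ : ℝ) (hδ : 0 < δ) :
    ∃ B : Matrix (Fin k) (Fin k) ℝ, B.det ≠ 0 ∧ ∀ w : Fin k → ℝ, w ⬝ᵥ w = 1 →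
      (Fintype.card A : ℝ) / k - δ
        ≤ ∑ a, (w ⬝ᵥ (B *ᵥ u a)) ^ 2 / ((B *ᵥ u a) ⬝ᵥ (B *ᵥ u a)) := by
  classical
  set m : ℕ := Fintype.card A with hm
  have hk0 : (0 : ℝ) < k := by exact_mod_cast hk
  have hq : ∀ B : Matrix (Fin k) (Fin k) ℝ, B.det ≠ 0 → ∀ a,
      0 < (B *ᵥ u a) ⬝ᵥ (B *ᵥ u a) := by
    intro B hB a
    have h0 : 0 ≤ (B *ᵥ u a) ⬝ᵥ (B *ᵥ u a) := Finset.sum_nonneg fun j _ => mul_self_nonneg _
    refine lt_of_le_of_ne h0 fun h => ?_
    have h1 : B *ᵥ u a = 0 := dotProduct_self_eq_zero.1 h.symm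
    exact hu0 a (Matrix.eq_zero_of_mulVec_eq_zero hB h1)
  let F : Matrix (Fin k) (Fin k) ℝ → ℝ := fun B =>
    (B.det ^ 2) ^ m / (∏ a, ((B *ᵥ u a) ⬝ᵥ (B *ᵥ u a))) ^ k
  have hFpos : ∀ B : Matrix (Fin k) (Fin k) ℝ, B.det ≠ 0 → 0 < F B := by
    intro B hB
    have h1 : 0 < B.det ^ 2 := by positivity
    have h2 : 0 < ∏ a, ((B *ᵥ u a) ⬝ᵥ (B *ᵥ u a)) := Finset.prod_pos fun a _ => hq B hB a
    simp only [F]
    positivity
  obtain ⟨K, hK⟩ := bounded f hf u hu
  let S : Set ℝ := F '' {B | B.det ≠ 0}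
  have hSbdd : BddAbove S := by
    refine ⟨K, ?_⟩
    rintro _ ⟨B, hB, rfl⟩
    have h2 : 0 < ∏ a, ((B *ᵥ u a) ⬝ᵥ (B *ᵥ u a)) := Finset.prod_pos fun a _ => hq B hB a
    simp only [F]
    rw [div_le_iff₀ (by positivity)]
    exact hK B
  have h1S : F 1 ∈ S := ⟨1, by simp, rfl⟩
  have hσ : 0 < sSup S := lt_of_lt_of_le (hFpos 1 (by simp)) (le_csSup hSbdd h1S)
  -- choice of `t`
  obtain ⟨t, ht, ht0⟩ : ∃ t : ℝ, (m : ℝ) / k - δ < (2 * m / (1 + t) - t) / (k * (2 + t)) ∧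
      0 < t := by
    have hc : ContinuousAt (fun t : ℝ => (2 * (m : ℝ) / (1 + t) - t) / (k * (2 + t))) 0 := by
      have h1 : (1 + (0 : ℝ)) ≠ 0 := by norm_num
      have h2 : (k : ℝ) * (2 + 0) ≠ 0 := by positivity
      fun_prop (disch := assumption)
    have h0 : (fun t : ℝ => (2 * (m : ℝ) / (1 + t) - t) / (k * (2 + t))) 0 = (m : ℝ) / k := by
      simp only [add_zero, sub_zero, div_one]
      field_simp
    have h3 := hc.eventually (lt_mem_nhds (a := (m : ℝ) / k - δ) (by rw [h0]; linarith))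
    exact ((h3.filter_mono (nhdsWithin_le_nhds (s := Set.Ioi (0 : ℝ)))).and
      self_mem_nhdsWithin).exists
  obtain ⟨_, ⟨B, hB, rfl⟩, hBσ⟩ := exists_lt_of_lt_csSup (⟨_, h1S⟩ : S.Nonempty)
    (show sSup S / (1 + t ^ 2) < sSup S from by
      rw [div_lt_iff₀ (by positivity)]
      nlinarith [pow_pos ht0 2, mul_pos hσ (pow_pos ht0 2)])
  refine ⟨B, hB, fun w hw => ?_⟩
  set c : A → ℝ := fun a => (w ⬝ᵥ (B *ᵥ u a)) ^ 2 / ((B *ᵥ u a) ⬝ᵥ (B *ᵥ u a)) with hc
  have hc0 : ∀ a, 0 ≤ c a := fun a => div_nonneg (sq_nonneg _) (hq B hB a).le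
  set B' : Matrix (Fin k) (Fin k) ℝ := (1 + t • vecMulVec w w) * B with hB'
  have hdet : B'.det = (1 + t) * B.det := by
    rw [hB', Matrix.det_mul, det_update w hw]
  have hB'0 : B'.det ≠ 0 := by
    rw [hdet]
    exact mul_ne_zero (by positivity) hB
  have h1 : F B' ≤ sSup S := le_csSup hSbdd ⟨B', hB'0, rfl⟩
  have h2 : ∀ a, (B' *ᵥ u a) ⬝ᵥ (B' *ᵥ u a)
      = ((B *ᵥ u a) ⬝ᵥ (B *ᵥ u a)) * (1 + (2 * t + t ^ 2) * c a) := by
    intro a
    have h3 := norm_update w hw t (B *ᵥ u a)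
    rw [hB', ← Matrix.mulVec_mulVec, h3, hc]
    have h4 := (hq B hB a).ne'
    field_simp
  have h5 : F B' = F B * (((1 + t) ^ 2) ^ m / (∏ a, (1 + (2 * t + t ^ 2) * c a)) ^ k) := by
    simp only [F]
    rw [hdet, Finset.prod_congr rfl fun a _ => h2 a, Finset.prod_mul_distrib, mul_pow, mul_pow,
      mul_pow, mul_comm (((1 + t) ^ 2) ^ m), mul_div_mul_comm]
  have hFB := hFpos B hB
  have hP : 0 < ∏ a, (1 + (2 * t + t ^ 2) * c a) := Finset.prod_pos fun a _ => by
    have := hc0 a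
    positivity
  have h6 : ((1 + t) ^ 2) ^ m / (∏ a, (1 + (2 * t + t ^ 2) * c a)) ^ k ≤ 1 + t ^ 2 := by
    have h7 : F B * (((1 + t) ^ 2) ^ m / (∏ a, (1 + (2 * t + t ^ 2) * c a)) ^ k)
        ≤ F B * (1 + t ^ 2) := by
      rw [← h5]
      refine h1.trans ?_
      rw [div_lt_iff₀ (by positivity)] at hBσ
      exact hBσ.le
    exact le_of_mul_le_mul_left h7 hFB
  have h8 : ((1 + t) ^ 2) ^ m ≤ (1 + t ^ 2) * (∏ a, (1 + (2 * t + t ^ 2) * c a)) ^ k := by
    rwa [div_le_iff₀ (by positivity)] at h6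
  have h9 : ∏ a, (1 + (2 * t + t ^ 2) * c a) ≤ Real.exp ((2 * t + t ^ 2) * ∑ a, c a) := by
    rw [Finset.mul_sum, Real.exp_sum]
    refine Finset.prod_le_prod (fun a _ => by have := hc0 a; positivity) fun a _ => ?_
    have := Real.add_one_le_exp ((2 * t + t ^ 2) * c a)
    linarith
  have h10 : ((1 + t) ^ 2) ^ m ≤ Real.exp (t ^ 2 + k * ((2 * t + t ^ 2) * ∑ a, c a)) := by
    rw [Real.exp_add]
    refine h8.trans ?_
    refine mul_le_mul ?_ ?_ (by positivity) (Real.exp_pos _).le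
    · have := Real.add_one_le_exp (t ^ 2)
      linarith
    · refine (pow_le_pow_left₀ hP.le h9 k).trans ?_
      rw [← Real.exp_nat_mul]
  have h11 : m * (2 * Real.log (1 + t)) ≤ t ^ 2 + k * ((2 * t + t ^ 2) * ∑ a, c a) := by
    have h12 := Real.log_le_log (by positivity) h10
    rw [Real.log_exp, Real.log_pow, Real.log_pow] at h12
    exact_mod_cast h12
  have h13 : 1 - (1 + t)⁻¹ ≤ Real.log (1 + t) := Real.one_sub_inv_le_log_of_pos (by positivity)
  have h14 : 1 - (1 + t)⁻¹ = t / (1 + t) := by field_simp; ring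
  rw [h14] at h13
  have h15 : (m : ℝ) * (2 * (t / (1 + t))) ≤ m * (2 * Real.log (1 + t)) := by
    refine mul_le_mul_of_nonneg_left ?_ (by positivity)
    linarith
  refine ht.le.trans ?_
  rw [div_le_iff₀ (by positivity)]
  have h16 : t * (2 * m / (1 + t) - t) ≤ t * ((∑ a, c a) * (k * (2 + t))) := by
    have h17 : t * (2 * m / (1 + t) - t) = (m : ℝ) * (2 * (t / (1 + t))) - t ^ 2 := by
      field_simp
    rw [h17]
    nlinarith [h15.trans h11]
  exact le_of_mul_le_mul_left h16 ht0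

theorem dotProduct_sq_le {k : ℕ} (x y : Fin k → ℝ) :
    (x ⬝ᵥ y) ^ 2 ≤ (x ⬝ᵥ x) * (y ⬝ᵥ y) := by
  have h := Finset.sum_mul_sq_le_sq_mul_sq univ x y
  simpa only [dotProduct, sq] using h

/-- The last step of Forster's argument, for vectors in near isotropic position. -/
theorem combine {A B : Type*} [Fintype A] [Fintype B] [DecidableEq B] {k : ℕ} (T : ℝ)
    (hA : (Fintype.card A : ℝ) = T) (hB : (Fintype.card B : ℝ) = T)
    (H : A → B → ℝ) (hH1 : ∀ a b, |H a b| = 1)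
    (hH : ∀ b b', ∑ a, H a b * H a b' = if b = b' then T else 0)
    (x : A → Fin k → ℝ) (y : B → Fin k → ℝ) (hpos : ∀ a b, 0 < H a b * (x a ⬝ᵥ y b))
    (hx : ∀ a, x a ⬝ᵥ x a = 1) (hy : ∀ b, y b ⬝ᵥ y b = 1) (L : ℝ)
    (hL : ∀ b, L ≤ ∑ a, (y b ⬝ᵥ x a) ^ 2) : T * L ≤ Real.sqrt (T ^ 3) := by
  have h1 : ∀ a b, (y b ⬝ᵥ x a) ^ 2 ≤ H a b * (x a ⬝ᵥ y b) := by
    intro a b
    have h2 : |x a ⬝ᵥ y b| = H a b * (x a ⬝ᵥ y b) := by
      rw [← abs_of_pos (hpos a b), abs_mul, hH1, one_mul]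
    have h3 : |x a ⬝ᵥ y b| ≤ 1 := by
      have h4 := dotProduct_sq_le (x a) (y b)
      rw [hx, hy, mul_one, ← sq_abs] at h4
      nlinarith [abs_nonneg (x a ⬝ᵥ y b)]
    rw [← h2, dotProduct_comm, ← sq_abs]
    nlinarith [abs_nonneg (x a ⬝ᵥ y b)]
  have h5 : T * L ≤ ∑ b, ∑ a, H a b * (x a ⬝ᵥ y b) := by
    calc T * L = ∑ _b : B, L := by
          rw [Finset.sum_const, Finset.card_univ, nsmul_eq_mul, hB]
      _ ≤ ∑ b, ∑ a, (y b ⬝ᵥ x a) ^ 2 := Finset.sum_le_sum fun b _ => hL b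
      _ ≤ _ := Finset.sum_le_sum fun b _ => Finset.sum_le_sum fun a _ => h1 a b
  refine h5.trans ?_
  refine Real.le_sqrt_of_sq_le ?_
  have h6 : ∑ b, ∑ a, H a b * (x a ⬝ᵥ y b)
      = ∑ p : A × Fin k, x p.1 p.2 * ∑ b, H p.1 b * y b p.2 := by
    rw [← Finset.univ_product_univ, Finset.sum_product, Finset.sum_comm]
    refine Finset.sum_congr rfl fun a _ => ?_
    simp only [dotProduct, Finset.mul_sum]
    rw [Finset.sum_comm]
    exact Finset.sum_congr rfl fun j _ => Finset.sum_congr rfl fun b _ => by ring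
  rw [h6]
  refine (Finset.sum_mul_sq_le_sq_mul_sq _ _ _).trans ?_
  have h7 : ∑ p : A × Fin k, x p.1 p.2 ^ 2 = T := by
    rw [← Finset.univ_product_univ, Finset.sum_product, ← hA]
    have : ∀ a, ∑ j, x a j ^ 2 = 1 := by
      intro a
      rw [← hx a]
      simp only [dotProduct, sq]
    simp [this]
  have h8 : ∑ p : A × Fin k, (∑ b, H p.1 b * y b p.2) ^ 2 = T * T := by
    rw [← Finset.univ_product_univ, Finset.sum_product_right]
    have h9 : ∀ j : Fin k, ∑ a, (∑ b, H a b * y b j) ^ 2 = T * ∑ b, y b j ^ 2 := by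
      intro j
      have h10 : ∀ a, (∑ b, H a b * y b j) ^ 2
          = ∑ b, ∑ b', (H a b * H a b') * (y b j * y b' j) := by
        intro a
        rw [sq, Finset.sum_mul_sum]
        exact Finset.sum_congr rfl fun b _ => Finset.sum_congr rfl fun b' _ => by ring
      rw [Finset.sum_congr rfl fun a _ => h10 a, Finset.sum_comm, Finset.mul_sum]
      refine Finset.sum_congr rfl fun b _ => ?_
      rw [Finset.sum_comm]
      have h11 : ∀ b', ∑ a, (H a b * H a b') * (y b j * y b' j)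
          = (if b = b' then T else 0) * (y b j * y b' j) := by
        intro b'
        rw [← Finset.sum_mul, hH]
      rw [Finset.sum_congr rfl fun b' _ => h11 b']
      simp [sq]
    rw [Finset.sum_congr rfl fun j _ => h9 j, ← Finset.mul_sum, Finset.sum_comm]
    have : ∀ b, ∑ j, y b j ^ 2 = 1 := by
      intro b
      rw [← hy b]
      simp only [dotProduct, sq]
    simp [this, hB]
  rw [h7, h8]
  exact le_of_eq (by ring)

/-- **Forster's theorem**: a real matrix of rank at most `k` whose entries have the same signs as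
those of a Hadamard matrix `H` of order `T` satisfies `T ≤ k ^ 2`. -/
theorem forster {A B : Type*} [Fintype A] [Fintype B] [AddGroup A] [DecidableEq B] {k : ℕ} (T : ℝ)
    (hA : (Fintype.card A : ℝ) = T) (hB : (Fintype.card B : ℝ) = T)
    (H : A → B → ℝ) (hH1 : ∀ a b, |H a b| = 1)
    (hH : ∀ b b', ∑ a, H a b * H a b' = if b = b' then T else 0)
    (u : A → Fin k → ℝ) (v : B → Fin k → ℝ)
    (hpos : ∀ a b, 0 < H a b * (u a ⬝ᵥ v b)) : T ≤ (k : ℝ) ^ 2 := by
  classical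
  rcases le_or_gt T 0 with hT | hT
  · exact hT.trans (by positivity)
  have hAne : Nonempty A := by
    rw [← Fintype.card_pos_iff]
    have : (0 : ℝ) < Fintype.card A := by rw [hA]; exact hT
    exact_mod_cast this
  have hBne : Nonempty B := by
    rw [← Fintype.card_pos_iff]
    have : (0 : ℝ) < Fintype.card B := by rw [hB]; exact hT
    exact_mod_cast this
  have hk : 0 < k := by
    rcases Nat.eq_zero_or_pos k with h | h
    · subst h
      obtain ⟨a⟩ := hAne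
      obtain ⟨b⟩ := hBne
      have := hpos a b
      simp [dotProduct] at this
    · exact h
  have hk1 : (1 : ℝ) ≤ k := by exact_mod_cast hk
  rcases le_or_gt T k with hTk | hTk
  · nlinarith
  obtain ⟨u', hpos', hdet⟩ := exists_perturb u v H hpos
  obtain ⟨f⟩ : Nonempty (Fin k ↪ A) := by
    refine Function.Embedding.nonempty_of_card_le ?_
    rw [Fintype.card_fin]
    rw [← hA] at hTk
    exact_mod_cast hTk.le
  have hu0 : ∀ a, u' a ≠ 0 := by
    intro a h
    obtain ⟨b⟩ := hBne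
    have := hpos' a b
    rw [h] at this
    simp at this
  have main : ∀ δ : ℝ, 0 < δ → T * (T / k) ≤ Real.sqrt (T ^ 3) + δ := by
    intro δ hδ
    obtain ⟨M, hM, hiso⟩ := near_isotropic hk f f.injective u' hdet hu0 (δ / T) (by positivity)
    have hMu : IsUnit M.det := isUnit_iff_ne_zero.2 hM
    let x : A → Fin k → ℝ := fun a => M *ᵥ u' a
    let y : B → Fin k → ℝ := fun b => v b ᵥ* M⁻¹
    have hxy : ∀ a b, x a ⬝ᵥ y b = u' a ⬝ᵥ v b := by
      intro a b
      rw [dotProduct_comm]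
      change (v b ᵥ* M⁻¹) ⬝ᵥ (M *ᵥ u' a) = _
      rw [← dotProduct_mulVec, Matrix.mulVec_mulVec, Matrix.nonsing_inv_mul _ hMu,
        Matrix.one_mulVec, dotProduct_comm]
    have hx0 : ∀ a, x a ≠ 0 := by
      intro a h
      obtain ⟨b⟩ := hBne
      have := hpos' a b
      rw [← hxy, h] at this
      simp at this
    have hy0 : ∀ b, y b ≠ 0 := by
      intro b h
      obtain ⟨a⟩ := hAne
      have := hpos' a b
      rw [← hxy, h] at this
      simp at this
    have hq : ∀ z : Fin k → ℝ, z ≠ 0 → 0 < z ⬝ᵥ z := by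
      intro z hz
      have h0 : 0 ≤ z ⬝ᵥ z := Finset.sum_nonneg fun j _ => mul_self_nonneg _
      exact lt_of_le_of_ne h0 fun h => hz (dotProduct_self_eq_zero.1 h.symm)
    have hn : ∀ z : Fin k → ℝ, z ≠ 0 →
        ((Real.sqrt (z ⬝ᵥ z))⁻¹ • z) ⬝ᵥ ((Real.sqrt (z ⬝ᵥ z))⁻¹ • z) = 1 := by
      intro z hz
      have h1 := hq z hz
      have h2 : Real.sqrt (z ⬝ᵥ z) * Real.sqrt (z ⬝ᵥ z) = z ⬝ᵥ z := Real.mul_self_sqrt h1.le
      have h3 : Real.sqrt (z ⬝ᵥ z) ≠ 0 := (Real.sqrt_pos.2 h1).ne'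
      rw [smul_dotProduct, dotProduct_smul, smul_eq_mul, smul_eq_mul, ← mul_assoc, ← mul_inv, h2]
      exact inv_mul_cancel₀ h1.ne'
    have h := combine T hA hB H hH1 hH (fun a => (Real.sqrt (x a ⬝ᵥ x a))⁻¹ • x a)
      (fun b => (Real.sqrt (y b ⬝ᵥ y b))⁻¹ • y b)
      (by
        intro a b
        rw [smul_dotProduct, dotProduct_smul, smul_eq_mul, smul_eq_mul, hxy]
        have h1 := inv_pos.2 (Real.sqrt_pos.2 (hq _ (hx0 a)))
        have h2 := inv_pos.2 (Real.sqrt_pos.2 (hq _ (hy0 b)))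
        have h3 := mul_pos h1 (mul_pos h2 (hpos' a b))
        calc (0 : ℝ) < _ := h3
          _ = _ := by ring)
      (fun a => hn _ (hx0 a)) (fun b => hn _ (hy0 b)) (T / k - δ / T)
      (by
        intro b
        have h1 := hiso _ (hn _ (hy0 b))
        rw [hA] at h1
        refine h1.trans (le_of_eq ?_)
        refine Finset.sum_congr rfl fun a _ => ?_
        rw [dotProduct_smul (Real.sqrt (x a ⬝ᵥ x a))⁻¹, smul_eq_mul, mul_pow, inv_pow,
          Real.sq_sqrt (hq _ (hx0 a)).le, div_eq_inv_mul])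
    have h4 : T * (T / k - δ / T) = T * (T / k) - δ := by
      field_simp
    rw [h4] at h
    linarith
  have h1 : T * (T / k) ≤ Real.sqrt (T ^ 3) := le_of_forall_pos_le_add main
  have h2 : (T * (T / k)) ^ 2 ≤ T ^ 3 := by
    have h3 : 0 ≤ T * (T / k) := by positivity
    calc (T * (T / k)) ^ 2 ≤ (Real.sqrt (T ^ 3)) ^ 2 := pow_le_pow_left₀ h3 h1 2
      _ = T ^ 3 := Real.sq_sqrt (by positivity)
  have h3 : (T * (T / k)) ^ 2 = T ^ 3 * T / k ^ 2 := by
    field_simp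
  rw [h3, div_le_iff₀ (by positivity)] at h2
  exact le_of_mul_le_mul_left h2 (by positivity)

/-- Forster's theorem for factorisations through an arbitrary finite index set. -/
theorem forster_index {A B L : Type*} [Fintype A] [Fintype B] [Fintype L] [DecidableEq B] (T : ℝ)
    (hA : (Fintype.card A : ℝ) = T) (hB : (Fintype.card B : ℝ) = T)
    (H : A → B → ℝ) (hH1 : ∀ a b, |H a b| = 1)
    (hH : ∀ b b', ∑ a, H a b * H a b' = if b = b' then T else 0)
    (u : A → L → ℝ) (v : B → L → ℝ)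
    (hpos : ∀ a b, 0 < H a b * ∑ l, u a l * v b l) : T ≤ (Fintype.card L : ℝ) ^ 2 := by
  classical
  rcases Nat.eq_zero_or_pos (Fintype.card A) with h0 | h0
  · rw [← hA, h0]
    simp only [Nat.cast_zero]
    positivity
  haveI : NeZero (Fintype.card A) := ⟨h0.ne'⟩
  letI : AddGroup A :=
    (Fintype.equivOfCardEq (ZMod.card (Fintype.card A)).symm : A ≃ ZMod (Fintype.card A)).addGroup
  let e := Fintype.equivFin L
  refine forster (k := Fintype.card L) T hA hB H hH1 hH (fun a j => u a (e.symm j))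
    (fun b j => v b (e.symm j)) fun a b => ?_
  have h1 : (fun j => u a (e.symm j)) ⬝ᵥ (fun j => v b (e.symm j)) = ∑ l, u a l * v b l := by
    simp only [dotProduct]
    exact Equiv.sum_comp e.symm (fun l => u a l * v b l)
  rw [h1]
  exact hpos a b

end Pool.Agent.Helper46.Forster
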