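import Mathlib

/-!
# Satisfiability of formulas in conjunctive normal form
-/

namespace Pool.Agent.Helper46.Sat

/-- `φ` is the list of clauses of a formula in conjunctive normal form over the variables `V`; each
clause is a finite set of literals, and a literal is a pair `(v, b)`, made true by the assignment
`x` if `x v = b`. The formula is satisfiable if some assignment makes at least one literal of every
clause true. -/
def Satisfiable {n : ℕ} {V : Type*} (φ : Fin n → Finset (V × Bool)) : Prop :=
  ∃ x : V → Bool, ∀ i, ∃ l ∈ φ i, x l.1 = l.2

end Pool.Agent.Helper46.Sat
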