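import Mathlib
import Pool.Agent.Helper46.Sat

/-!
# A family of 3-CNF formulas whose satisfiability is given by the Hadamard matrix
-/

open Finset Pool.Agent.Helper46.Sat

namespace Pool.Agent.Helper46.SatGadget

variable {m r : ℕ}

/-- The variables: for each block `g` the selectors `z i` (side `false`) and `w j` (side `true`) and
for each bit position `(g, l)` the bits `u`, `v` (given by the side) and `e`, `c`. -/
inductive Var (m r : ℕ)
  | sel (side : Bool) (g : Fin m) (i : Fin r → Bool) : Var m r
  | dat (side : Bool) (g : Fin m) (l : Fin r) : Var m r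
  | aux (k : Bool) (g : Fin m) (l : Fin r) : Var m r
  deriving DecidableEq

/-- counting the variables -/
def varEquiv (m r : ℕ) : Var m r ≃
    (Bool × Fin m × (Fin r → Bool)) ⊕ ((Bool × Fin m × Fin r) ⊕ (Bool × Fin m × Fin r)) where
  toFun
    | .sel s g i => .inl (s, g, i)
    | .dat s g l => .inr (.inl (s, g, l))
    | .aux k g l => .inr (.inr (k, g, l))
  invFun
    | .inl (s, g, i) => .sel s g i
    | .inr (.inl (s, g, l)) => .dat s g l
    | .inr (.inr (k, g, l)) => .aux k g l
  left_inv := by rintro (_ | _ | _) <;> rfl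
  right_inv := by rintro (_ | _ | _) <;> rfl

instance : Fintype (Var m r) := Fintype.ofEquiv _ (varEquiv m r).symm

lemma card_var : Fintype.card (Var m r) = m * (2 * 2 ^ r + 4 * r) := by
  rw [Fintype.card_congr (varEquiv m r)]
  simp
  ring

/-- The fixed clauses: for each block `g` and side and each choice `i` of the side and bit position
`l`, the decoding clause; for each `(g, l)` the clauses for the conjunction and for the parity. -/
abbrev Fixed (m r : ℕ) := (Bool × Fin m × (Fin r → Bool) × Fin r) ⊕
  ((Fin m × Fin r) × (Fin 3 ⊕ Bool × Bool))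

lemma card_fixedType : Fintype.card (Fixed m r) = m * (2 * r * 2 ^ r + 7 * r) := by
  simp
  ring

/-- A cyclic order of the bit positions. -/
def rot : Equiv.Perm (Fin m × Fin r) :=
  finProdFinEquiv.trans ((finRotate (m * r)).trans finProdFinEquiv.symm)

/-- The fixed clauses. -/
def fixed : Fixed m r → Finset (Var m r × Bool)
  | .inl (s, g, i, l) => {(Var.sel s g i, false), (Var.dat s g l, i l)}
  | .inr (q, .inl k) =>
      if k = 0 then {(Var.dat false q.1 q.2, true), (Var.aux false q.1 q.2, false)}
      else if k = 1 then {(Var.dat true q.1 q.2, true), (Var.aux false q.1 q.2, false)}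
      else {(Var.dat false q.1 q.2, false), (Var.dat true q.1 q.2, false),
        (Var.aux false q.1 q.2, true)}
  | .inr (q, .inr (b, b')) =>
      {(Var.aux true q.1 q.2, !b), (Var.aux true (rot q).1 (rot q).2, !b'),
        (Var.aux false q.1 q.2, xor b b')}

lemma card_fixed (q : Fixed m r) : (fixed q).card ≤ 3 := by
  rcases q with ⟨s, g, i, l⟩ | ⟨q, k | ⟨b, b'⟩⟩
  · exact Finset.card_le_two.trans (by norm_num)
  · simp only [fixed]
    split_ifs
    · exact Finset.card_le_two.trans (by norm_num)
    · exact Finset.card_le_two.trans (by norm_num)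
    · exact Finset.card_le_three
  · exact Finset.card_le_three

/-- The formula. -/
def formula {n : ℕ} (s : Fin n → Fixed m r) (α β : Fin m → Fin r → Bool)
    (i : Fin n) : Finset (Var m r × Bool) :=
  if h1 : i.1 < m then {(Var.sel false ⟨i.1, h1⟩ (α ⟨i.1, h1⟩), true)}
  else if h2 : i.1 - m < m then
    {(Var.sel true ⟨i.1 - m, h2⟩ (β ⟨i.1 - m, h2⟩), true)}
  else fixed (s i)

lemma card_formula {n : ℕ} (s : Fin n → Fixed m r)
    (α β : Fin m → Fin r → Bool) (i : Fin n) : (formula s α β i).card ≤ 3 := by
  unfold formula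
  split_ifs
  · simp
  · simp
  · exact card_fixed _

/-- The sign of a bit. -/
def sg (b : Bool) : ℝ := if b then -1 else 1

lemma sg_mul_self (b : Bool) : sg b * sg b = 1 := by cases b <;> simp [sg]

lemma sg_xor (a b : Bool) : sg (xor a b) = sg a * sg b := by cases a <;> cases b <;> simp [sg]

lemma sg_inj {a b : Bool} (h : sg a = sg b) : a = b := by
  cases a <;> cases b <;> simp [sg] at h ⊢ <;> norm_num at h

/-- prefix parities -/
lemma exists_cyclic {m : ℕ} (e : Fin m → Bool) (he : ∏ g, sg (e g) = 1) :
    ∃ c : Fin m → Bool, ∀ g, xor (c g) (c (finRotate m g)) = e g := by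
  have hb : ∀ k : ℕ, ∃ b : Bool, sg b = ∏ g ∈ univ.filter (fun g : Fin m => g.1 < k), sg (e g) := by
    intro k
    induction' (univ.filter (fun g : Fin m => g.1 < k)) using Finset.induction_on with a s ha ih
    · exact ⟨false, by simp [sg]⟩
    · obtain ⟨b, hb⟩ := ih
      exact ⟨xor (e a) b, by rw [Finset.prod_insert ha, sg_xor, hb]⟩
  choose b hb using hb
  refine ⟨fun g => b g.1, fun g => ?_⟩
  apply sg_inj
  rw [sg_xor]
  have hstep : ∀ g : Fin m, sg (b (g.1 + 1)) = sg (e g) * sg (b g.1) := by
    intro g
    rw [hb, hb]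
    have : univ.filter (fun x : Fin m => x.1 < g.1 + 1)
        = insert g (univ.filter (fun x : Fin m => x.1 < g.1)) := by
      ext x
      simp only [mem_filter, mem_univ, true_and, mem_insert, Fin.ext_iff]
      omega
    rw [this, Finset.prod_insert (by simp)]
  obtain ⟨k, rfl⟩ : ∃ k, m = k + 1 := ⟨m - 1, by have := g.2; omega⟩
  have h0 : sg (b 0) = 1 := by
    rw [hb]
    simp
  have hm : sg (b (k + 1)) = 1 := by
    rw [hb, ← he]
    refine Finset.prod_congr ?_ fun _ _ => rfl
    ext x
    simp only [mem_filter, mem_univ, true_and, iff_true]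
    exact x.2
  have hrot : sg (b (finRotate (k + 1) g).1) = sg (b (g.1 + 1)) := by
    rcases Nat.lt_or_ge g.1 k with hg | hg
    · have : finRotate (k + 1) g = ⟨g.1 + 1, by omega⟩ := by
        have := finRotate_of_lt hg
        exact this
      rw [this]
    · have hgk : g = Fin.last k := by
        ext
        have := g.2
        simp
        omega
      rw [hgk, finRotate_last]
      simp only [Fin.val_last, Fin.val_zero]
      rw [h0, hm]
  rw [hrot, hstep, mul_comm (sg (e g)), ← mul_assoc, sg_mul_self, one_mul]

lemma exists_rot (e : Fin m × Fin r → Bool) (he : ∏ q, sg (e q) = 1) :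
    ∃ c : Fin m × Fin r → Bool, ∀ q, xor (c q) (c (rot q)) = e q := by
  obtain ⟨c, hc⟩ := exists_cyclic (fun k : Fin (m * r) => e (finProdFinEquiv.symm k)) (by
    rw [← he, Equiv.prod_comp finProdFinEquiv.symm (fun q => sg (e q))])
  refine ⟨fun q => c (finProdFinEquiv q), fun q => ?_⟩
  have := hc (finProdFinEquiv q)
  rw [Equiv.symm_apply_apply] at this
  rw [← this]
  change xor _ (c (finProdFinEquiv (finProdFinEquiv.symm
    (finRotate (m * r) (finProdFinEquiv q))))) = _
  rw [Equiv.apply_symm_apply]

theorem sat_iff {n : ℕ} (s : Fin n → Fixed m r)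
    (hn : 2 * m ≤ n) (hs : ∀ q, ∃ i : Fin n, 2 * m ≤ i.1 ∧ s i = q)
    (α β : Fin m → Fin r → Bool) :
    Satisfiable (formula s α β) ↔ ∏ q : Fin m × Fin r, sg (α q.1 q.2 && β q.1 q.2) = 1 := by
  have hfix : ∀ q, ∃ i : Fin n, formula s α β i = fixed q := by
    intro q
    obtain ⟨i, hi, rfl⟩ := hs q
    refine ⟨i, ?_⟩
    unfold formula
    rw [dif_neg (by omega), dif_neg (by omega)]
  constructor
  · rintro ⟨x, hx⟩
    have hz : ∀ g, x (Var.sel false g (α g)) = true := by
      intro g
      obtain ⟨l, hl, hxl⟩ := hx ⟨g.1, by have := g.2; omega⟩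
      unfold formula at hl
      rw [dif_pos g.2] at hl
      simp only [Fin.eta, mem_singleton] at hl
      rw [hl] at hxl
      exact hxl
    have hw : ∀ g, x (Var.sel true g (β g)) = true := by
      intro g
      obtain ⟨l, hl, hxl⟩ := hx ⟨m + g.1, by have := g.2; omega⟩
      have hmm : (⟨m + g.1 - m, by have := g.2; omega⟩ : Fin m) = g := by
        ext; simp
      unfold formula at hl
      rw [dif_neg (by simp), dif_pos (by simp)] at hl
      simp only [mem_singleton] at hl
      rw [hmm] at hl
      rw [hl] at hxl
      exact hxl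
    have hu : ∀ g l, x (Var.dat false g l) = α g l := by
      intro g l
      obtain ⟨i, hi⟩ := hfix (.inl (false, g, α g, l))
      obtain ⟨l', hl, hxl⟩ := hx i
      rw [hi] at hl
      simp only [fixed, mem_insert, mem_singleton] at hl
      rcases hl with rfl | rfl
      · simp [hz] at hxl
      · exact hxl
    have hv : ∀ g l, x (Var.dat true g l) = β g l := by
      intro g l
      obtain ⟨i, hi⟩ := hfix (.inl (true, g, β g, l))
      obtain ⟨l', hl, hxl⟩ := hx i
      rw [hi] at hl
      simp only [fixed, mem_insert, mem_singleton] at hl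
      rcases hl with rfl | rfl
      · simp [hw] at hxl
      · exact hxl
    have he : ∀ q : Fin m × Fin r, x (Var.aux false q.1 q.2) = (α q.1 q.2 && β q.1 q.2) := by
      intro q
      obtain ⟨i0, hi0⟩ := hfix (.inr (q, .inl 0))
      obtain ⟨i1, hi1⟩ := hfix (.inr (q, .inl 1))
      obtain ⟨i2, hi2⟩ := hfix (.inr (q, .inl 2))
      obtain ⟨l0, hl0, hx0⟩ := hx i0
      obtain ⟨l1, hl1, hx1⟩ := hx i1
      obtain ⟨l2, hl2, hx2⟩ := hx i2
      rw [hi0] at hl0
      rw [hi1] at hl1
      rw [hi2] at hl2
      simp only [fixed, mem_insert, mem_singleton, if_true, Fin.reduceEq, if_false,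
        one_ne_zero] at hl0 hl1 hl2
      have e0 := hu q.1 q.2
      have e1 := hv q.1 q.2
      rw [← e0, ← e1]
      have c0 : x (Var.dat false q.1 q.2) = true ∨ x (Var.aux false q.1 q.2) = false := by
        rcases hl0 with rfl | rfl
        · exact Or.inl hx0
        · exact Or.inr hx0
      have c1 : x (Var.dat true q.1 q.2) = true ∨ x (Var.aux false q.1 q.2) = false := by
        rcases hl1 with rfl | rfl
        · exact Or.inl hx1
        · exact Or.inr hx1
      have c2 : x (Var.dat false q.1 q.2) = false ∨ x (Var.dat true q.1 q.2) = false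
          ∨ x (Var.aux false q.1 q.2) = true := by
        rcases hl2 with rfl | rfl | rfl
        · exact Or.inl hx2
        · exact Or.inr (Or.inl hx2)
        · exact Or.inr (Or.inr hx2)
      revert c0 c1 c2
      cases x (Var.dat false q.1 q.2) <;> cases x (Var.dat true q.1 q.2) <;>
        cases x (Var.aux false q.1 q.2) <;> simp
    have hc : ∀ q : Fin m × Fin r, x (Var.aux false q.1 q.2)
        = xor (x (Var.aux true q.1 q.2)) (x (Var.aux true (rot q).1 (rot q).2)) := by
      intro q
      obtain ⟨i, hi⟩ := hfix (.inr (q, .inr (x (Var.aux true q.1 q.2),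
        x (Var.aux true (rot q).1 (rot q).2))))
      obtain ⟨l, hl, hxl⟩ := hx i
      rw [hi] at hl
      simp only [fixed, mem_insert, mem_singleton] at hl
      rcases hl with rfl | rfl | rfl
      · simp at hxl
      · simp at hxl
      · exact hxl
    have h1 : ∏ q : Fin m × Fin r, sg (α q.1 q.2 && β q.1 q.2)
        = ∏ q : Fin m × Fin r, (sg (x (Var.aux true q.1 q.2))
          * sg (x (Var.aux true (rot q).1 (rot q).2))) := by
      refine Finset.prod_congr rfl fun q _ => ?_
      rw [← he, hc, sg_xor]
    rw [h1, Finset.prod_mul_distrib,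
      Equiv.prod_comp rot (fun q : Fin m × Fin r => sg (x (Var.aux true q.1 q.2))),
      ← Finset.prod_mul_distrib]
    exact Finset.prod_eq_one fun g _ => sg_mul_self _
  · intro hprod
    obtain ⟨c, hc⟩ := exists_rot (fun q : Fin m × Fin r => (α q.1 q.2 && β q.1 q.2)) hprod
    refine ⟨fun v => match v with
      | Var.sel false g i => decide (i = α g)
      | Var.sel true g i => decide (i = β g)
      | Var.dat false g l => α g l
      | Var.dat true g l => β g l
      | Var.aux false g l => (α g l && β g l)
      | Var.aux true g l => c (g, l), fun i => ?_⟩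
    unfold formula
    split_ifs with h1 h2
    · exact ⟨_, mem_singleton_self _, by simp⟩
    · exact ⟨_, mem_singleton_self _, by simp⟩
    · rcases s i with ⟨sd, g, a, l⟩ | ⟨q, k | ⟨b, b'⟩⟩
      · cases sd
        · by_cases ha : a = α g
          · exact ⟨(Var.dat false g l, a l), by simp [fixed], by simp [ha]⟩
          · exact ⟨(Var.sel false g a, false), by simp [fixed], by simp [ha]⟩
        · by_cases ha : a = β g
          · exact ⟨(Var.dat true g l, a l), by simp [fixed], by simp [ha]⟩
          · exact ⟨(Var.sel true g a, false), by simp [fixed], by simp [ha]⟩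
      · simp only [fixed]
        split_ifs with hk hk'
        · by_cases ha : α q.1 q.2 = true
          · exact ⟨(Var.dat false q.1 q.2, true), by simp, ha⟩
          · exact ⟨(Var.aux false q.1 q.2, false), by simp, by simp [ha]⟩
        · by_cases ha : β q.1 q.2 = true
          · exact ⟨(Var.dat true q.1 q.2, true), by simp, ha⟩
          · exact ⟨(Var.aux false q.1 q.2, false), by simp, by simp [ha]⟩
        · by_cases ha : α q.1 q.2 = true
          · by_cases hb : β q.1 q.2 = true
            · exact ⟨(Var.aux false q.1 q.2, true), by simp, by simp [ha, hb]⟩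
            · exact ⟨(Var.dat true q.1 q.2, false), by simp, by simpa using hb⟩
          · exact ⟨(Var.dat false q.1 q.2, false), by simp, by simpa using ha⟩
      · have h3 := hc q
        by_cases hb : c q = b
        · by_cases hb' : c (rot q) = b'
          · refine ⟨(Var.aux false q.1 q.2, xor b b'), by simp [fixed], ?_⟩
            simp only
            rw [← h3, hb, hb']
          · refine ⟨(Var.aux true (rot q).1 (rot q).2, !b'), by simp [fixed], ?_⟩
            simp only [Prod.mk.eta]
            revert hb'
            cases c (rot q) <;> cases b' <;> simp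
        · refine ⟨(Var.aux true q.1 q.2, !b), by simp [fixed], ?_⟩
          simp only [Prod.mk.eta]
          revert hb
          cases c q <;> cases b <;> simp

/-- Satisfiability is not affected by an embedding of the variables. -/
lemma satisfiable_map {n : ℕ} {V W : Type*} (ι : V ↪ W)
    (φ : Fin n → Finset (V × Bool)) :
    Satisfiable (fun i => (φ i).map (ι.prodMap (Function.Embedding.refl Bool))) ↔
      Satisfiable φ := by
  constructor
  · rintro ⟨x, hx⟩
    refine ⟨fun v => x (ι v), fun i => ?_⟩
    obtain ⟨l, hl, hxl⟩ := hx i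
    rw [mem_map] at hl
    obtain ⟨l', hl', rfl⟩ := hl
    exact ⟨l', hl', hxl⟩
  · rintro ⟨x, hx⟩
    refine ⟨Function.extend ι x (fun _ => false), fun i => ?_⟩
    obtain ⟨l, hl, hxl⟩ := hx i
    refine ⟨(ι l.1, l.2), ?_, ?_⟩
    · rw [mem_map]
      exact ⟨l, hl, rfl⟩
    · simp only
      rw [ι.injective.extend_apply]
      exact hxl

lemma satisfiable_perm {n : ℕ} {V : Type*} (ρ : Equiv.Perm (Fin n))
    (φ : Fin n → Finset (V × Bool)) :
    Satisfiable (fun i => φ (ρ i)) ↔ Satisfiable φ := by
  constructor
  · rintro ⟨x, hx⟩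
    exact ⟨x, fun i => by simpa using hx (ρ.symm i)⟩
  · rintro ⟨x, hx⟩
    exact ⟨x, fun i => hx (ρ i)⟩

end Pool.Agent.Helper46.SatGadget
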