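import Mathlib
import Pool.Agent.Helper46.SatGadget

/-!
# The Hadamard matrix as a tensor power of satisfiability gadgets
-/

open Finset Pool.Agent.Helper46.SatGadget

namespace Pool.Agent.Helper46.Hadamard

/-- The Hadamard matrix. -/
noncomputable def H (m r : ℕ) (α β : Fin m → Fin r → Bool) : ℝ :=
  ∏ q : Fin m × Fin r, sg (α q.1 q.2 && β q.1 q.2)

lemma H_eq (m r : ℕ) (α β : Fin m → Fin r → Bool) : H m r α β = ∏ g, ∏ l, sg (α g l && β g l) := by
  unfold H
  rw [← Finset.univ_product_univ, Finset.prod_product]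

lemma H_sq (m r : ℕ) (α β : Fin m → Fin r → Bool) : H m r α β = 1 ∨ H m r α β = -1 := by
  have h : (H m r α β) ^ 2 = 1 := by
    unfold H
    rw [← Finset.prod_pow]
    exact Finset.prod_eq_one fun l _ => by rw [sq, sg_mul_self]
  exact sq_eq_one_iff.1 h

lemma two_by_two (a b : Bool) : ∑ c, sg (a && c) * sg (b && c) = if a = b then 2 else 0 := by
  cases a <;> cases b <;> (simp [sg]; try norm_num)

lemma orth (m r : ℕ) (α α' : Fin m → Fin r → Bool) :
    ∑ β, H m r α β * H m r α' β = if α = α' then (2 : ℝ) ^ (r * m) else 0 := by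
  have h1 : ∀ β, H m r α β * H m r α' β = ∏ g, ∏ l, (sg (α g l && β g l) * sg (α' g l && β g l)) := by
    intro β
    rw [H_eq, H_eq, ← Finset.prod_mul_distrib]
    exact Finset.prod_congr rfl fun g _ => (Finset.prod_mul_distrib).symm
  simp_rw [h1]
  have h2 := Fintype.prod_sum (fun (g : Fin m) (j : Fin r → Bool) =>
    ∏ l, (sg (α g l && j l) * sg (α' g l && j l)))
  rw [← h2]
  have h3 : ∀ g, ∑ j : Fin r → Bool, ∏ l, (sg (α g l && j l) * sg (α' g l && j l))
      = ∏ l, (if α g l = α' g l then (2 : ℝ) else 0) := by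
    intro g
    have h4 := Fintype.prod_sum (fun (l : Fin r) (c : Bool) =>
      (sg (α g l && c) * sg (α' g l && c)))
    rw [← h4]
    exact Finset.prod_congr rfl fun l _ => two_by_two _ _
  simp_rw [h3]
  split_ifs with h
  · subst h
    simp [pow_mul]
  · have : ∃ g l, α g l ≠ α' g l := by
      by_contra hcon
      push Not at hcon
      exact h (funext fun g => funext fun l => hcon g l)
    obtain ⟨g, l, hgl⟩ := this
    refine Finset.prod_eq_zero (Finset.mem_univ g) (Finset.prod_eq_zero (Finset.mem_univ l) ?_)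
    rw [if_neg hgl]

lemma sum_H (m r : ℕ) : 0 ≤ ∑ α, ∑ β, H m r α β := by
  refine Finset.sum_nonneg fun α _ => ?_
  have h1 := orth m r α (fun _ _ => false)
  have h2 : ∀ β, H m r (fun _ _ => false) β = 1 := by
    intro β
    rw [H_eq]
    simp [sg]
  simp_rw [h2, mul_one] at h1
  rw [h1]
  split_ifs <;> positivity

end Pool.Agent.Helper46.Hadamard
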