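import Mathlib

/-!
# Factorisation of the determinant of a sum of a low rank matrix and an arbitrary matrix
-/

open Finset Matrix

namespace Pool.Agent.Helper46.LowRank

variable {K : Type*} [Field K] {S : Type*} [Fintype S] [DecidableEq S]

/-- The matrix determinant lemma in terms of rows. -/
theorem det_add_vecMulVec (M : Matrix S S K) (u v : S → K) :
    (M + vecMulVec u v).det = M.det + ∑ r, u r * (M.updateRow r v).det := by
  classical
  let P : Finset S → Matrix S S K := fun s =>
    Matrix.of fun r c => if r ∈ s then u r * v c else M r c
  have h0 : (M + vecMulVec u v).det = ∑ s : Finset S, (P s).det := by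
    have h1 := (detRowAlternating (n := S) (R := K)).toMultilinearMap.map_add_univ
      (fun r => u r • v) (fun r => M r)
    have h2 : (M + vecMulVec u v) = Matrix.of ((fun r => u r • v) + (fun r => M r)) := by
      ext i j
      simp [vecMulVec_apply, add_comm]
    have h3 : ∀ s : Finset S, P s = Matrix.of (s.piecewise (fun r => u r • v) (fun r => M r)) := by
      intro s
      ext i j
      by_cases hi : i ∈ s <;> simp [P, hi]
    rw [h2, Finset.sum_congr rfl fun s _ => by rw [h3 s]]
    exact h1
  let h : Option S → Finset S := fun o => o.elim ∅ (fun r => {r})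
  have hinj : Function.Injective h := by
    intro a b hab
    cases a <;> cases b <;> simp_all [h]
  have hzero : ∀ s : Finset S, s ∉ Set.range h → (P s).det = 0 := by
    intro s hs
    have h1 : 1 < s.card := by
      by_contra hcon
      rcases Nat.le_one_iff_eq_zero_or_eq_one.1 (not_lt.1 hcon) with h2 | h2
      · exact hs ⟨none, by simp [h, Finset.card_eq_zero.1 h2]⟩
      · obtain ⟨r, hr⟩ := Finset.card_eq_one.1 h2
        exact hs ⟨some r, by simp [h, hr]⟩
    obtain ⟨i, hi, j, hj, hij⟩ := Finset.one_lt_card.1 h1
    have hNi : (P s) i = u i • v := by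
      funext c
      simp [P, hi]
    have hNj : (P s) j = u j • v := by
      funext c
      simp [P, hj]
    have h2 : P s = ((P s).updateRow i v).updateRow i (u i • v) := by
      rw [updateRow_idem, ← hNi, updateRow_eq_self]
    have h3 : (P s).updateRow i v
        = (((P s).updateRow i v).updateRow j v).updateRow j (u j • v) := by
      rw [updateRow_idem, ← hNj]
      ext a b
      by_cases ha : a = j
      · subst ha
        rw [updateRow_self, updateRow_ne (Ne.symm hij)]
      · rw [updateRow_ne ha]
    rw [h2, det_updateRow_smul, updateRow_idem, h3, det_updateRow_smul, updateRow_idem]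
    have h4 : (((P s).updateRow i v).updateRow j v).det = 0 := by
      refine det_zero_of_row_eq hij ?_
      rw [updateRow_self, updateRow_ne hij, updateRow_self]
    rw [h4]
    simp
  have h6 : P (h none) = M := by
    ext a b
    simp [P, h]
  have h7 : ∀ r, (P (h (some r))).det = u r * (M.updateRow r v).det := by
    intro r
    have h5 : P (h (some r)) = M.updateRow r (u r • v) := by
      ext a b
      by_cases ha : a = r
      · subst ha
        simp [P, h]
      · simp [P, h, ha]
    rw [h5, det_updateRow_smul]
  rw [h0, ← Finset.sum_of_injOn h (f := fun o => (P (h o)).det)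
    (fun a _ b _ hab => hinj hab) (fun a _ => by simp) (s := univ) (fun s _ hs => hzero s (by
      simpa using hs)) (fun o _ => rfl), Fintype.sum_option, h6]
  rw [Finset.sum_congr rfl fun r _ => h7 r]

theorem det_updateRow_expand (M : Matrix S S K) (r : S) (v : S → K) :
    (M.updateRow r v).det = ∑ c, v c * (M.updateRow r (Pi.single c 1)).det := by
  classical
  let L : (S → K) →ₗ[K] K :=
    { toFun := fun v => (M.updateRow r v).det
      map_add' := fun a b => det_updateRow_add M r a b
      map_smul' := fun c a => by
        simp only [RingHom.id_apply, smul_eq_mul]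
        exact det_updateRow_smul M r c a }
  have h := LinearMap.pi_apply_eq_sum_univ L v
  change L v = _
  rw [h]
  refine Finset.sum_congr rfl fun c _ => ?_
  rw [smul_eq_mul]
  congr 1
  change (M.updateRow r _).det = _
  congr 2
  ext j
  simp [Pi.single_apply, eq_comm]

/-- Factorisation of the determinant of `A x + B y` if `A x` has rank at most `τ`. -/
theorem det_factor {X Y : Type*} (τ : ℕ) :
    ∀ (u v : Fin τ → X → S → K) (B : Y → Matrix S S K),
      ∃ (f : X → (Fin τ → Option (S × S)) → K) (g : Y → (Fin τ → Option (S × S)) → K),
        ∀ x y, (B y + ∑ j, vecMulVec (u j x) (v j x)).det = ∑ l, f x l * g y l := by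
  classical
  induction τ with
  | zero =>
    intro u v B
    refine ⟨fun _ _ => 1, fun y _ => (B y).det, fun x y => ?_⟩
    simp
  | succ τ ih =>
    intro u v B
    -- first expand the last rank one term
    have h1 : ∀ x y, (B y + ∑ j, vecMulVec (u j x) (v j x)).det
        = ∑ o : Option (S × S), (o.elim 1 (fun p => u 0 x p.1 * v 0 x p.2)) *
          (o.elim (B y + ∑ j : Fin τ, vecMulVec (u j.succ x) (v j.succ x)).det
            (fun p => ((B y).updateRow p.1 (Pi.single p.2 1)
              + ∑ j : Fin τ, vecMulVec (fun i => if i = p.1 then 0 else u j.succ x i)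
                (v j.succ x)).det)) := by
      intro x y
      rw [Fin.sum_univ_succ, ← add_assoc, add_right_comm, det_add_vecMulVec, Fintype.sum_option]
      simp only [Option.elim_none, Option.elim_some, one_mul]
      congr 1
      rw [← Finset.univ_product_univ, Finset.sum_product]
      refine Finset.sum_congr rfl fun r _ => ?_
      rw [det_updateRow_expand, Finset.mul_sum]
      refine Finset.sum_congr rfl fun c _ => ?_
      rw [← mul_assoc]
      congr 2
      ext a b
      by_cases ha : a = r
      · subst ha
        simp [Matrix.sum_apply, vecMulVec_apply]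
      · simp [Matrix.sum_apply, vecMulVec_apply, ha]
    have h2 := ih (fun j => u j.succ) (fun j => v j.succ) B
    have h3 : ∀ p : S × S, ∃ (f : X → (Fin τ → Option (S × S)) → K)
        (g : Y → (Fin τ → Option (S × S)) → K), ∀ x y,
        ((B y).updateRow p.1 (Pi.single p.2 1)
              + ∑ j : Fin τ, vecMulVec (fun i => if i = p.1 then 0 else u j.succ x i)
                (v j.succ x)).det = ∑ l, f x l * g y l := fun p =>
      ih (fun j x i => if i = p.1 then 0 else u j.succ x i) (fun j => v j.succ)
        (fun y => (B y).updateRow p.1 (Pi.single p.2 1))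
    obtain ⟨f0, g0, h0⟩ := h2
    choose f1 g1 h4 using h3
    refine ⟨fun x l => (l 0).elim (f0 x (fun j => l j.succ))
        (fun p => u 0 x p.1 * v 0 x p.2 * f1 p x (fun j => l j.succ)),
      fun y l => (l 0).elim (g0 y (fun j => l j.succ)) (fun p => g1 p y (fun j => l j.succ)),
      fun x y => ?_⟩
    rw [h1, ← (Fin.consEquiv (fun _ : Fin (τ + 1) => Option (S × S))).sum_comp,
      ← Finset.univ_product_univ, Finset.sum_product]
    refine Finset.sum_congr rfl fun o _ => ?_
    cases o with
    | none =>
      simp only [Option.elim_none, one_mul, Fin.consEquiv_apply, Fin.cons_zero, Fin.cons_succ]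
      exact h0 x y
    | some p =>
      simp only [Option.elim_some, Fin.consEquiv_apply, Fin.cons_zero, Fin.cons_succ]
      rw [h4, Finset.mul_sum]
      exact Finset.sum_congr rfl fun l _ => by ring

end Pool.Agent.Helper46.LowRank
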