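import Mathlib

/-!
# Rank of a polynomial function of low rank matrices
-/

open Finset

namespace Pool.Agent.Helper46.PolyRank

lemma list_prod {σ : Type*} (x : σ → ℝ) (l : List σ) (d : ℕ) (h : l.length ≤ d) :
    ∏ j : Fin d, (l[j.1]?).elim 1 x = (l.map x).prod := by
  induction l generalizing d with
  | nil => simp
  | cons a l ih =>
    obtain ⟨d, rfl⟩ : ∃ d', d = d' + 1 := ⟨d - 1, by simp at h; omega⟩
    rw [Fin.prod_univ_succ]
    simp only [Fin.val_zero, List.getElem?_cons_zero, Option.elim_some, Fin.val_succ,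
      List.getElem?_cons_succ, List.map_cons, List.prod_cons]
    rw [ih d (by simpa using h)]

lemma exists_kappa {σ : Type*} (s : σ →₀ ℕ) (d : ℕ) (h : (s.sum fun _ e => e) ≤ d) :
    ∃ κ : Fin d → Option σ, ∀ x : σ → ℝ,
      ∏ j, (κ j).elim 1 x = s.prod fun i e => x i ^ e := by
  refine ⟨fun j => (Finsupp.toMultiset s).toList[j.1]?, fun x => ?_⟩
  rw [list_prod]
  · have h1 : (((Finsupp.toMultiset s).toList).map x).prod = ((Finsupp.toMultiset s).map x).prod := by
      conv_rhs => rw [← Multiset.coe_toList (Finsupp.toMultiset s)]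
      rw [Multiset.map_coe, Multiset.prod_coe]
    rw [h1, Finsupp.toMultiset_map, Finsupp.prod_toMultiset,
      Finsupp.prod_mapDomain_index (fun b => pow_zero b) (fun b m n => pow_add b m n)]
  · rw [Multiset.length_toList, Finsupp.card_toMultiset]
    exact h

/-- A polynomial of degree at most `d` is a form of degree `d` in the variables and `1`. -/
lemma poly_repr {σ : Type*} [Fintype σ] [DecidableEq σ] (F : MvPolynomial σ ℝ) (d : ℕ)
    (hF : F.totalDegree ≤ d) :
    ∃ c : (Fin d → Option σ) → ℝ, ∀ x : σ → ℝ,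
      MvPolynomial.eval x F = ∑ κ, c κ * ∏ j, (κ j).elim 1 x := by
  classical
  have h1 : ∀ s ∈ F.support, ∃ κ : Fin d → Option σ, ∀ x : σ → ℝ,
      ∏ j, (κ j).elim 1 x = s.prod fun i e => x i ^ e := fun s hs =>
    exists_kappa s d ((MvPolynomial.le_totalDegree hs).trans hF)
  choose! κ hκ using h1
  refine ⟨fun κ' => ∑ s ∈ F.support, if κ s = κ' then F.coeff s else 0, fun x => ?_⟩
  rw [MvPolynomial.eval_eq]
  simp only [Finset.sum_mul]
  rw [Finset.sum_comm]
  refine Finset.sum_congr rfl fun s hs => ?_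
  simp only [ite_mul, zero_mul, Finset.sum_ite_eq, Finset.mem_univ, if_true]
  rw [hκ s hs x, Finsupp.prod]

/-- A polynomial of degree `d` in matrices with a factorisation through `Λ`. -/
theorem factor_poly {σ Λ X Y : Type*} [Fintype σ] [DecidableEq σ] [Fintype Λ] [DecidableEq Λ]
    [Nonempty Λ]
    (x : σ → X → Y → ℝ) (f : σ → X → Λ → ℝ) (g : σ → Y → Λ → ℝ)
    (hx : ∀ i a b, x i a b = ∑ l, f i a l * g i b l) (F : MvPolynomial σ ℝ) (d : ℕ)
    (hF : F.totalDegree ≤ d) :
    ∃ (u : X → (Fin d → Option σ) × (Fin d → Λ) → ℝ)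
      (v : Y → (Fin d → Option σ) × (Fin d → Λ) → ℝ),
      ∀ a b, MvPolynomial.eval (fun i => x i a b) F = ∑ l, u a l * v b l := by
  classical
  obtain ⟨c, hc⟩ := poly_repr F d hF
  let l0 : Λ := Classical.arbitrary Λ
  let f' : Option σ → X → Λ → ℝ := fun o a l => o.elim (if l = l0 then 1 else 0) (fun i => f i a l)
  let g' : Option σ → Y → Λ → ℝ := fun o b l => o.elim (if l = l0 then 1 else 0) (fun i => g i b l)
  have h1 : ∀ (o : Option σ) (a : X) (b : Y),
      o.elim 1 (fun i => x i a b) = ∑ l, f' o a l * g' o b l := by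
    intro o a b
    cases o with
    | none => simp [f', g']
    | some i => simp [f', g', hx]
  refine ⟨fun a p => c p.1 * ∏ j, f' (p.1 j) a (p.2 j), fun b p => ∏ j, g' (p.1 j) b (p.2 j),
    fun a b => ?_⟩
  rw [hc, ← Finset.univ_product_univ, Finset.sum_product]
  refine Finset.sum_congr rfl fun κ _ => ?_
  simp only [h1]
  have h2 := Fintype.prod_sum (fun (j : Fin d) (l : Λ) => f' (κ j) a l * g' (κ j) b l)
  rw [h2, Finset.mul_sum]
  refine Finset.sum_congr rfl fun lam _ => ?_
  rw [Finset.prod_mul_distrib]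
  ring

/-- Padding of a factorisation. -/
theorem pad {K X Y : Type*} [Field K] {d D : ℕ} (hd : d ≤ D) (f : X → Fin d → K)
    (g : Y → Fin d → K) :
    ∃ (f' : X → Fin D → K) (g' : Y → Fin D → K),
      ∀ a b, ∑ l, f' a l * g' b l = ∑ l, f a l * g b l := by
  classical
  refine ⟨fun a l => if h : l.1 < d then f a ⟨l.1, h⟩ else 0,
    fun b l => if h : l.1 < d then g b ⟨l.1, h⟩ else 0, fun a b => ?_⟩
  symm
  refine Finset.sum_of_injOn (Fin.castLE hd) ?_ ?_ ?_ ?_
  · exact fun i _ j _ h => Fin.castLE_injective hd h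
  · intro i _; simp
  · intro l _ hl
    have : ¬ l.1 < d := by
      intro h
      apply hl
      simp only [coe_univ, Set.image_univ, Set.mem_range]
      exact ⟨⟨l.1, h⟩, rfl⟩
    simp [this]
  · intro i _
    simp

/-- Real and imaginary parts of a complex matrix with a factorisation. -/
theorem factor_re_im {X Y : Type*} {D : ℕ} (f : X → Fin D → ℂ) (g : Y → Fin D → ℂ) :
    ∃ (f' : Bool → X → (Fin D × Bool) → ℝ) (g' : Bool → Y → (Fin D × Bool) → ℝ),
      ∀ a b, (∑ l, f a l * g b l).re = ∑ l, f' true a l * g' true b l ∧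
        (∑ l, f a l * g b l).im = ∑ l, f' false a l * g' false b l := by
  refine ⟨fun e a l => if l.2 then (f a l.1).re else (if e then -(f a l.1).im else (f a l.1).im),
    fun e b l => if l.2 then (if e then (g b l.1).re else (g b l.1).im) else
      (if e then (g b l.1).im else (g b l.1).re), fun a b => ⟨?_, ?_⟩⟩
  · rw [← Finset.univ_product_univ, Finset.sum_product, Complex.re_sum]
    refine Finset.sum_congr rfl fun l _ => ?_
    simp [Complex.mul_re]
    ring
  · rw [← Finset.univ_product_univ, Finset.sum_product, Complex.im_sum]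
    refine Finset.sum_congr rfl fun l _ => ?_
    simp [Complex.mul_im]

end Pool.Agent.Helper46.PolyRank
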