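import Mathlib
import Pool.Agent.Lead.RankAdditive
import Pool.Agent.Helper46.Hadamard
import Pool.Agent.Helper46.Forster
import Pool.Agent.Helper46.PolyRank

/-!
# Sign tests for 3-SAT

Whenever the sign of a real polynomial in the real and imaginary parts of `N` determinants decides
the satisfiability of the formulas with `n` clauses of at most three literals, and the `i`-th clause
enters into the matrices with rank at most `τ i`, the number `N` is exponentially large.
-/

open Finset Pool.Agent.Lead Pool.Agent.Helper46 Pool.Agent.Helper46.Sat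
  Pool.Agent.Helper46.SatGadget Pool.Agent.Helper46.Hadamard

namespace Pool.Agent.Helper46.Sign

/-- The family of formulas whose satisfiability is given by the Hadamard matrix. -/
theorem exists_family {n r m : ℕ} (hm : 1 ≤ m) (hr : 1 ≤ r)
    (hmn : m * (2 * r * 2 ^ r + 7 * r + 2) ≤ n) :
    ∃ Φ : (Fin m → Fin r → Bool) → (Fin m → Fin r → Bool) → Fin n → Finset (Fin n × Bool),
      (∀ α β i, (Φ α β i).card ≤ 3) ∧
      (∀ α β, Satisfiable (Φ α β) ↔ H m r α β = 1) ∧
      (∀ α β β' i, i.1 < m → Φ α β i = Φ α β' i) ∧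
      (∀ α α' β i, m ≤ i.1 → i.1 < 2 * m → Φ α β i = Φ α' β i) ∧
      (∀ α α' β β' i, 2 * m ≤ i.1 → Φ α β i = Φ α' β' i) := by
  classical
  -- the enumeration of the fixed clauses
  have hs : ∃ s : Fin n → Fixed m r, ∀ q, ∃ i : Fin n, 2 * m ≤ i.1 ∧ s i = q := by
    have hne : Nonempty (Fixed m r) :=
      ⟨Sum.inr ((⟨0, hm⟩, ⟨0, hr⟩), Sum.inl 0)⟩
    have hcard : Fintype.card (Fixed m r) ≤ Fintype.card {i : Fin n // 2 * m ≤ i.1} := by
      have h2 : n - 2 * m ≤ Fintype.card {i : Fin n // 2 * m ≤ i.1} := by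
        have h3 : Fintype.card (Fin (n - 2 * m)) ≤ Fintype.card {i : Fin n // 2 * m ≤ i.1} := by
          refine Fintype.card_le_of_injective
            (fun j : Fin (n - 2 * m) => (⟨⟨2 * m + j.1, by have := j.2; omega⟩, by simp⟩ :
              {i : Fin n // 2 * m ≤ i.1})) ?_
          intro a b hab
          have h4 := congrArg (fun x : {i : Fin n // 2 * m ≤ i.1} => x.1.1) hab
          simp only at h4
          ext
          omega
        simpa using h3
      rw [card_fixedType]
      have h5 : m * (2 * r * 2 ^ r + 7 * r + 2) = m * (2 * r * 2 ^ r + 7 * r) + 2 * m := by ring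
      omega
    obtain ⟨e⟩ := Function.Embedding.nonempty_of_card_le hcard
    refine ⟨fun i => if h : 2 * m ≤ i.1 then Function.invFun e ⟨i, h⟩ else Classical.arbitrary _,
      fun q => ⟨(e q).1, (e q).2, ?_⟩⟩
    simp only [(e q).2, dif_pos]
    exact Function.leftInverse_invFun e.injective q
  obtain ⟨s, hs⟩ := hs
  -- the embedding of the variables
  have hι : Nonempty (Var m r ↪ Fin n) := by
    refine Function.Embedding.nonempty_of_card_le ?_
    rw [card_var, Fintype.card_fin]
    refine le_trans (Nat.mul_le_mul_left m ?_) hmn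
    have h2 : 2 * 2 ^ r ≤ 2 * r * 2 ^ r := by
      refine Nat.mul_le_mul_right _ ?_
      omega
    omega
  obtain ⟨ι⟩ := hι
  have h2mn : 2 * m ≤ n := by nlinarith [Nat.zero_le (m * (2 * r * 2 ^ r)), Nat.zero_le (m * r)]
  refine ⟨fun α β i => (formula s α β i).map (ι.prodMap (Function.Embedding.refl Bool)),
    ?_, ?_, ?_, ?_, ?_⟩
  · intro α β i
    simp only [card_map]
    exact card_formula _ _ _ _
  · intro α β
    rw [satisfiable_map, sat_iff s h2mn hs α β]
    rfl
  · intro a b b' i hi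
    simp only [formula, hi, dif_pos]
  · intro a a' b i hi hi2
    have hi1 : ¬ i.1 < m := by omega
    simp only [formula, hi1, dif_neg, not_false_iff]
  · intro a a' b b' i hi
    have h1 : ¬ i.1 < m := by omega
    have h3 : ¬ i.1 - m < m := by omega
    simp only [formula, h1, h3, dif_neg, not_false_iff]

/-- Factorisation of a determinant on the family. -/
theorem factor {n m D : ℕ} {X : Type*} (Φ : X → X → Fin n → Finset (Fin n × Bool))
    (h1 : ∀ α β β' i, i.1 < m → Φ α β i = Φ α β' i)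
    (h2 : ∀ α α' β i, m ≤ i.1 → i.1 < 2 * m → Φ α β i = Φ α' β i)
    (h3 : ∀ α α' β β' i, 2 * m ≤ i.1 → Φ α β i = Φ α' β' i)
    (τ : Fin n → ℕ)
    (hD : 2 ^ (∑ i ∈ univ.filter (fun i : Fin n => i.1 < 2 * m), τ i) ≤ D)
    {S : Type} [Fintype S] [DecidableEq S] (C : Matrix S S ℂ)
    (P : ∀ (i : Fin n), Matrix S (Fin (τ i)) ℂ)
    (Q : ∀ (i : Fin n), Finset (Fin n × Bool) → Matrix (Fin (τ i)) S ℂ) :
    ∃ (f g : X → Fin D → ℂ), ∀ a b,
      (C + ∑ i, P i * Q i (Φ a b i)).det = ∑ l, f a l * g b l := by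
  classical
  let IA : Finset (Fin n) := univ.filter (fun i => i.1 < m)
  let IB : Finset (Fin n) := univ.filter (fun i => m ≤ i.1 ∧ i.1 < 2 * m)
  have hIAB : IA ∪ IB = univ.filter (fun i : Fin n => i.1 < 2 * m) := by
    ext i
    simp only [IA, IB, mem_union, mem_filter, mem_univ, true_and]
    omega
  obtain ⟨d, f, g, hd, hfg⟩ := RankAdditive.det_factor_sum (K := ℂ) (S := S)
    (α := X) (β := X)
    τ C P (fun a b i => Q i (Φ a b i)) IA IB
    (by
      rw [Finset.disjoint_left]
      intro i h1 h2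
      simp only [IA, IB, mem_filter, mem_univ, true_and] at h1 h2
      omega)
    (by
      intro i hi a b b'
      simp only [IA, mem_filter, mem_univ, true_and] at hi
      rw [h1 a b b' i hi])
    (by
      intro i hi a a' b
      simp only [IB, mem_filter, mem_univ, true_and] at hi
      rw [h2 a a' b i hi.1 hi.2])
    (by
      intro i hiA hiB a a' b b'
      have h4 : ¬ i.1 < m := fun hlt => hiA (by simp [IA, hlt])
      have h5 : ¬ i.1 < 2 * m := fun hlt => hiB (by simp [IB, hlt]; omega)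
      rw [h3 a a' b b' i (by omega)])
  rw [hIAB] at hd
  obtain ⟨f', g', hfg'⟩ := PolyRank.pad (hd.trans hD) f g
  exact ⟨f', g', fun a b => by rw [hfg, hfg']⟩

/-- The bound for formulas in which the first `2 m` clauses vary. -/
theorem bound {n N d r m : ℕ} (hm : 1 ≤ m) (hr : 1 ≤ r)
    (hmn : m * (2 * r * 2 ^ r + 7 * r + 2) ≤ n) (τ : Fin n → ℕ)
    (S : Fin N → Type) [∀ k, Fintype (S k)] [∀ k, DecidableEq (S k)]
    (C : ∀ k, Matrix (S k) (S k) ℂ)
    (P : ∀ (k : Fin N) (i : Fin n), Matrix (S k) (Fin (τ i)) ℂ)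
    (Q : ∀ (k : Fin N) (i : Fin n), Finset (Fin n × Bool) → Matrix (Fin (τ i)) (S k) ℂ)
    (F : MvPolynomial (Fin N × Bool) ℝ) (hF : F.totalDegree ≤ d)
    (h : ∀ φ : Fin n → Finset (Fin n × Bool), (∀ i, (φ i).card ≤ 3) →
      (Satisfiable φ ↔ 0 < MvPolynomial.eval (fun y : Fin N × Bool =>
        if y.2 then ((C y.1 + ∑ i, P y.1 i * Q y.1 i (φ i)).det).re
        else ((C y.1 + ∑ i, P y.1 i * Q y.1 i (φ i)).det).im) F)) :
    (2 : ℝ) ^ (r * m) ≤
      ((4 * N + 2) * 2 ^ (∑ i ∈ univ.filter (fun i : Fin n => i.1 < 2 * m), τ i)) ^ (2 * d) := by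
  classical
  set D : ℕ := 2 ^ (∑ i ∈ univ.filter (fun i : Fin n => i.1 < 2 * m), τ i) with hD
  have hD0 : 0 < D := by positivity
  have : NeZero D := ⟨hD0.ne'⟩
  obtain ⟨Φ, hΦ3, hΦsat, hA, hB, hO⟩ := exists_family (n := n) hm hr hmn
  have hfac : ∀ k, ∃ (f g : (Fin m → Fin r → Bool) → Fin D → ℂ), ∀ a b,
      (C k + ∑ i, P k i * Q k i (Φ a b i)).det = ∑ l, f a l * g b l := fun k =>
    factor Φ hA hB hO τ le_rfl (C k) (P k) (Q k)
  choose f g hfg using hfac
  have hre := fun k => PolyRank.factor_re_im (f k) (g k)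
  choose f' g' hfg' using hre
  let x : Fin N × Bool → (Fin m → Fin r → Bool) → (Fin m → Fin r → Bool) → ℝ := fun y a b =>
    if y.2 then ((C y.1 + ∑ i, P y.1 i * Q y.1 i (Φ a b i)).det).re
        else ((C y.1 + ∑ i, P y.1 i * Q y.1 i (Φ a b i)).det).im
  have hx : ∀ y a b, x y a b = ∑ l, f' y.1 y.2 a l * g' y.1 y.2 b l := by
    rintro ⟨k, e⟩ a b
    simp only [x]
    rw [hfg]
    cases e
    · simpa using (hfg' k a b).2
    · simpa using (hfg' k a b).1
  -- a margin
  obtain ⟨δ, hδ0, hδ⟩ : ∃ δ : ℝ, 0 < δ ∧ ∀ α β : Fin m → Fin r → Bool,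
      0 < MvPolynomial.eval (fun y => x y α β) F → δ < MvPolynomial.eval (fun y => x y α β) F := by
    have h1 : ∀ᶠ δ : ℝ in nhdsWithin 0 (Set.Ioi 0), ∀ α β : Fin m → Fin r → Bool,
        0 < MvPolynomial.eval (fun y => x y α β) F →
          δ < MvPolynomial.eval (fun y => x y α β) F := by
      rw [Filter.eventually_all]
      intro α
      rw [Filter.eventually_all]
      intro β
      rcases le_or_gt (MvPolynomial.eval (fun y => x y α β) F) 0 with h2 | h2
      · exact Filter.Eventually.of_forall fun δ h3 => absurd h3 (not_lt.2 h2)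
      · filter_upwards [nhdsWithin_le_nhds (Iio_mem_nhds h2)] with δ h3 _
        exact h3
    obtain ⟨δ, h2, h3⟩ := (h1.and self_mem_nhdsWithin).exists
    exact ⟨δ, h3, h2⟩
  have hF' : (F - MvPolynomial.C δ).totalDegree ≤ d :=
    (MvPolynomial.totalDegree_sub_C_le _ _).trans hF
  obtain ⟨u, v, huv⟩ := PolyRank.factor_poly x (fun y => f' y.1 y.2) (fun y => g' y.1 y.2) hx
    (F - MvPolynomial.C δ) d hF'
  have hcardT : (Fintype.card (Fin m → Fin r → Bool) : ℝ) = (2 : ℝ) ^ (r * m) := by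
    simp [pow_mul]
  have key := Forster.forster_index (A := Fin m → Fin r → Bool) (B := Fin m → Fin r → Bool)
    ((2 : ℝ) ^ (r * m)) hcardT hcardT (fun b a => H m r a b)
    (fun b a => by rcases H_sq m r a b with h1 | h1 <;> simp [h1])
    (fun a a' => orth m r a a') v u
    (by
      intro b a
      have h1 : ∑ l, v b l * u a l = MvPolynomial.eval (fun y => x y a b) F - δ := by
        rw [Finset.sum_congr rfl fun l _ => mul_comm (v b l) (u a l), ← huv, map_sub,
          MvPolynomial.eval_C]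
      rw [h1]
      have h2 := h (Φ a b) (hΦ3 a b)
      rw [hΦsat] at h2
      change H m r a b = 1 ↔ 0 < MvPolynomial.eval (fun y => x y a b) F at h2
      rcases H_sq m r a b with h3 | h3
      · rw [h3, one_mul, sub_pos]
        exact hδ a b (h2.1 h3)
      · have h4 : ¬ 0 < MvPolynomial.eval (fun y => x y a b) F := fun h5 => by
          have := h2.2 h5
          rw [h3] at this
          norm_num at this
        rw [h3]
        linarith [not_lt.1 h4])
  refine key.trans (le_of_eq ?_)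
  rw [Fintype.card_prod, Fintype.card_fun, Fintype.card_fun, Fintype.card_option,
    Fintype.card_prod, Fintype.card_prod, Fintype.card_fin, Fintype.card_fin, Fintype.card_fin,
    Fintype.card_bool, hD]
  push_cast
  rw [← mul_pow, ← pow_mul, mul_comm d 2]
  congr 1
  ring

/-- Whenever the sign of a real polynomial of degree at most `d` in the real and imaginary parts of
`N` determinants decides the satisfiability of the 3-CNF formulas with `n` clauses, and the `i`-th
clause enters into the matrices with rank at most `τ i`, the number `N` is exponentially large. -/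
theorem main (n N d : ℕ) (τ : Fin n → ℕ)
    (S : Fin N → Type) [∀ k, Fintype (S k)] [∀ k, DecidableEq (S k)]
    (C : ∀ k, Matrix (S k) (S k) ℂ)
    (P : ∀ (k : Fin N) (i : Fin n), Matrix (S k) (Fin (τ i)) ℂ)
    (Q : ∀ (k : Fin N) (i : Fin n), Finset (Fin n × Bool) → Matrix (Fin (τ i)) (S k) ℂ)
    (F : MvPolynomial (Fin N × Bool) ℝ) (hF : F.totalDegree ≤ d)
    (h : ∀ φ : Fin n → Finset (Fin n × Bool), (∀ i, (φ i).card ≤ 3) →
      (Satisfiable φ ↔ 0 < MvPolynomial.eval (fun y : Fin N × Bool =>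
        if y.2 then ((C y.1 + ∑ i, P y.1 i * Q y.1 i (φ i)).det).re
        else ((C y.1 + ∑ i, P y.1 i * Q y.1 i (φ i)).det).im) F))
    (r : ℕ) :
    ((2 : ℝ) ^ r / 16 ^ (d * ((∑ i, (τ i : ℝ)) / n))) ^ (n / (2 * r * 2 ^ r + 7 * r + 2))
      ≤ (4 * N + 2) ^ (2 * d) := by
  classical
  set a : ℝ := (∑ i, (τ i : ℝ)) / n with ha
  have ha0 : 0 ≤ a := by positivity
  have h16a : (1 : ℝ) ≤ 16 ^ (d * a) := Real.one_le_rpow (by norm_num) (by positivity)
  have hN1 : (1 : ℝ) ≤ (4 * N + 2) ^ (2 * d) := one_le_pow₀ (by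
    have : (0 : ℝ) ≤ N := Nat.cast_nonneg _
    linarith)
  set q : ℕ := 2 * r * 2 ^ r + 7 * r + 2 with hq
  set m : ℕ := n / q with hm
  rcases Nat.eq_zero_or_pos m with hm0 | hm0
  · rw [hm0, pow_zero]; exact hN1
  rcases Nat.eq_zero_or_pos r with hr0 | hr0
  · refine le_trans (pow_le_one₀ (by positivity) ?_) hN1
    rw [hr0, pow_zero]
    exact div_le_one_of_le₀ h16a (by positivity)
  have hmn : m * q ≤ n := Nat.div_mul_le_self n _
  have h2m : 2 * m ≤ n := by
    have : 2 ≤ q := by omega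
    nlinarith
  have hn : 0 < n := by omega
  -- the clauses may be reordered
  let ρ : Equiv.Perm (Fin n) := Tuple.sort τ
  have hmono : Monotone (fun i => τ (ρ i)) := Tuple.monotone_sort τ
  have hV : ∀ (k : Fin N) (φ : Fin n → Finset (Fin n × Bool)),
      (C k + ∑ i, P k (ρ i) * Q k (ρ i) (φ i)).det
      = (C k + ∑ i, P k i * Q k i (φ (ρ.symm i))).det := by
    intro k φ
    congr 2
    rw [← Equiv.sum_comp ρ (fun i => P k i * Q k i (φ (ρ.symm i)))]
    refine Finset.sum_congr rfl fun i _ => ?_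
    rw [Equiv.symm_apply_apply]
  have h1 := bound (N := N) hm0 hr0 hmn (fun i => τ (ρ i)) S C
    (fun k i => P k (ρ i)) (fun k i => Q k (ρ i)) F hF
    (by
      intro φ hφ
      simp_rw [hV]
      rw [← h (fun i => φ (ρ.symm i)) (fun i => hφ _)]
      exact (satisfiable_perm ρ.symm φ).symm)
  have h4 := RankAdditive.mul_sum_filter_le (m := 2 * m) (fun i => τ (ρ i)) hmono
  rw [min_eq_left h2m, Equiv.sum_comp ρ τ] at h4
  set s : ℕ := ∑ i ∈ univ.filter (fun i : Fin n => i.1 < 2 * m), τ (ρ i) with hs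
  have hn' : (0 : ℝ) < n := by exact_mod_cast hn
  have h5 : (s : ℝ) ≤ 2 * m * a := by
    rw [ha, mul_div_assoc', le_div_iff₀ hn']
    have : ((n * s : ℕ) : ℝ) ≤ ((2 * m * ∑ i, τ i : ℕ) : ℝ) := by exact_mod_cast h4
    push_cast at this
    linarith
  have h6 : ((2 : ℝ) ^ s) ^ (2 * d) ≤ ((16 : ℝ) ^ (d * a)) ^ m := by
    have e1 : ((16 : ℝ) ^ (d * a)) ^ m = (2 : ℝ) ^ (2 * m * a * (2 * d)) := by
      rw [← Real.rpow_natCast, ← Real.rpow_mul (by norm_num),
        show (16 : ℝ) = (2 : ℝ) ^ (4 : ℝ) by norm_num, ← Real.rpow_mul (by norm_num)]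
      congr 1; ring
    rw [e1, ← pow_mul, ← Real.rpow_natCast]
    refine Real.rpow_le_rpow_of_exponent_le (by norm_num) ?_
    push_cast
    exact mul_le_mul_of_nonneg_right h5 (by positivity)
  rw [div_pow, div_le_iff₀ (by positivity), ← pow_mul]
  refine h1.trans ?_
  rw [mul_pow]
  exact mul_le_mul_of_nonneg_left h6 (by positivity)

end Pool.Agent.Helper46.Sign
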