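import Mathlib
import Pool.Agent.Helper46.SatGadget

/-!
# A family of subset sum instances whose solvability is given by the Hadamard matrix
-/

open Finset Pool.Agent.Helper46.SatGadget

namespace Pool.Agent.Helper46.SubsetSum

variable {m : ℕ}

/-- The digit positions: use of the two variable numbers, selection, main and chain digits. -/
abbrev Pos (m : ℕ) := Bool ⊕ (Fin m ⊕ (Fin m ⊕ Fin m))

/-- The items: the two variable numbers and the fixed numbers `(j, δ, p)`. -/
abbrev Item (m : ℕ) := Bool ⊕ (Fin m × Fin 3 × Bool)

/-- new state -/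
def out (δ : Fin 3) (p : Bool) : Bool := xor p (decide (δ = 2))

/-- The digits of the items. -/
def vec (α β : Fin m → Bool) : Item m → Pos m → ℕ
  | .inl b, .inl b' => if b = b' then 1 else 0
  | .inl _, .inr (.inl _) => 0
  | .inl b, .inr (.inr (.inl j)) => if b then (β j).toNat else (α j).toNat
  | .inl _, .inr (.inr (.inr _)) => 0
  | .inr _, .inl _ => 0
  | .inr x, .inr (.inl j) => if x.1 = j then 1 else 0
  | .inr x, .inr (.inr (.inl j)) => if x.1 = j then 2 - x.2.1.1 else 0
  | .inr x, .inr (.inr (.inr g)) => (if x.1 = g then (!x.2.2).toNat else 0)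
      + (if finRotate m x.1 = g then (out x.2.1 x.2.2).toNat else 0)

/-- The digits of the target. -/
def tgt : Pos m → ℕ
  | .inl _ => 1
  | .inr (.inl _) => 1
  | .inr (.inr (.inl _)) => 2
  | .inr (.inr (.inr _)) => 1

lemma tgt_lt (p : Pos m) : tgt p < 16 := by
  rcases p with _ | _ | _ | _ <;> simp [tgt]

lemma sum_item (f : Item m → ℕ) :
    ∑ x, f x = f (.inl false) + f (.inl true) + ∑ j : Fin m, ∑ δ : Fin 3, ∑ p : Bool,
      f (.inr (j, δ, p)) := by
  rw [Fintype.sum_sum_type]
  simp only [Fintype.sum_bool, Fintype.sum_prod_type]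
  ring

lemma sum_vec_lt (α β : Fin m → Bool) (p : Pos m) : ∑ x, vec α β x p < 16 := by
  rw [sum_item]
  rcases p with b | j | j | g
  · cases b <;> simp [vec]
  · simp only [vec, add_zero, zero_add]
    have h1 : ∀ i : Fin m, ∑ _δ : Fin 3, ∑ _p : Bool, (if i = j then 1 else 0)
        = if i = j then 6 else 0 := by
      intro i
      split_ifs <;> simp
    rw [Finset.sum_congr rfl fun i _ => h1 i]
    simp
  · simp only [vec, Bool.false_eq_true, if_false, if_true]
    have h1 : ∀ i : Fin m, ∑ δ : Fin 3, ∑ _p : Bool, (if i = j then 2 - δ.1 else 0)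
        = if i = j then 6 else 0 := by
      intro i
      split_ifs
      · simp [Fin.sum_univ_three]
      · simp
    rw [Finset.sum_congr rfl fun i _ => h1 i]
    have h2 := Bool.toNat_le (α j)
    have h3 := Bool.toNat_le (β j)
    simp
    omega
  · simp only [vec, zero_add]
    have h1 : ∀ i : Fin m, ∑ δ : Fin 3, ∑ p : Bool, ((if i = g then (!p).toNat else 0)
        + (if finRotate m i = g then (out δ p).toNat else 0))
        = (if i = g then 3 else 0) + (if finRotate m i = g then 3 else 0) := by
      intro i
      split_ifs <;> simp [Fin.sum_univ_three, out]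
    rw [Finset.sum_congr rfl fun i _ => h1 i, Finset.sum_add_distrib]
    have h2 : ∑ i : Fin m, (if finRotate m i = g then 3 else 0)
        = ∑ i : Fin m, (if i = g then 3 else 0) :=
      Equiv.sum_comp (finRotate m) (fun i => if i = g then 3 else 0)
    rw [h2]
    simp

lemma sum_vec_lt' (α β : Fin m → Bool) (I : Finset (Item m)) (p : Pos m) :
    ∑ x ∈ I, vec α β x p < 16 :=
  lt_of_le_of_lt (Finset.sum_le_sum_of_subset (Finset.subset_univ I)) (sum_vec_lt α β p)

/-- The selection given by the states. -/
def sel (δ : Fin m → Fin 3) (p : Fin m → Bool) : Finset (Item m) :=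
  insert (.inl false) (insert (.inl true) (univ.image fun j => (.inr (j, δ j, p j))))

lemma sum_sel (δ : Fin m → Fin 3) (p : Fin m → Bool) (f : Item m → ℕ) :
    ∑ x ∈ sel δ p, f x = f (.inl false) + (f (.inl true) + ∑ j, f (.inr (j, δ j, p j))) := by
  unfold sel
  rw [Finset.sum_insert (by simp), Finset.sum_insert (by simp), Finset.sum_image]
  intro i _ j _ h
  simp only [Sum.inr.injEq, Prod.mk.injEq] at h
  exact h.1

lemma sum_chain (δ : Fin m → Fin 3) (p : Fin m → Bool) (g : Fin m) :
    ∑ j, ((if j = g then (!p j).toNat else 0)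
      + (if finRotate m j = g then (out (δ j) (p j)).toNat else 0))
      = (!p g).toNat + (out (δ ((finRotate m).symm g)) (p ((finRotate m).symm g))).toNat := by
  rw [Finset.sum_add_distrib]
  congr 1
  · simp
  · rw [Finset.sum_eq_single ((finRotate m).symm g)]
    · rw [Equiv.apply_symm_apply, if_pos rfl]
    · intro j _ hj
      rw [if_neg]
      intro h
      exact hj (by rw [← h, Equiv.symm_apply_apply])
    · exact fun h => absurd (mem_univ _) h

/-- The combinatorial statement for the digits. -/
theorem digits_iff (α β : Fin m → Bool) :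
    (∃ I : Finset (Item m), ∀ p, ∑ x ∈ I, vec α β x p = tgt p) ↔
      ∏ j, sg (α j && β j) = 1 := by
  constructor
  · rintro ⟨I, hI⟩
    have hused : ∀ b, (Sum.inl b : Item m) ∈ I := by
      intro b
      by_contra hb
      have h1 := hI (.inl b)
      rw [Finset.sum_eq_zero] at h1
      · simp [tgt] at h1
      · intro x hx
        rcases x with b' | x
        · simp only [vec]
          rw [if_neg]
          rintro rfl
          exact hb hx
        · rfl
    have hsel : ∀ j, ∃ x : Fin 3 × Bool, (Sum.inr (j, x) : Item m) ∈ I ∧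
        ∀ x', (Sum.inr (j, x') : Item m) ∈ I → x' = x := by
      intro j
      have h1 := hI (.inr (.inl j))
      simp only [tgt] at h1
      have h2 : ∑ x ∈ I, vec α β x (.inr (.inl j))
          = (I.filter fun x => ∃ y : Fin 3 × Bool, x = Sum.inr (j, y)).card := by
        rw [Finset.card_filter]
        refine Finset.sum_congr rfl fun x _ => ?_
        rcases x with b | ⟨i, y⟩
        · simp [vec]
        · by_cases hij : i = j
          · subst hij
            simp only [vec, if_true]
            rw [if_pos ⟨y, rfl⟩]
          · simp only [vec, hij, if_false]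
            rw [if_neg]
            rintro ⟨y', hy'⟩
            simp only [Sum.inr.injEq, Prod.mk.injEq] at hy'
            exact hij hy'.1
      rw [h2, Finset.card_eq_one] at h1
      obtain ⟨x, hx⟩ := h1
      have h3 : x ∈ I.filter fun x => ∃ y : Fin 3 × Bool, x = Sum.inr (j, y) := by
        rw [hx]; exact mem_singleton_self _
      rw [mem_filter] at h3
      obtain ⟨h3, y, rfl⟩ := h3
      refine ⟨y, h3, fun x' hx' => ?_⟩
      have h4 : (Sum.inr (j, x') : Item m) ∈
          I.filter fun x => ∃ y : Fin 3 × Bool, x = Sum.inr (j, y) := by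
        rw [mem_filter]; exact ⟨hx', x', rfl⟩
      rw [hx, mem_singleton] at h4
      simp only [Sum.inr.injEq, Prod.mk.injEq, true_and] at h4
      exact h4
    choose y hyI hy using hsel
    have hIeq : I = sel (fun j => (y j).1) (fun j => (y j).2) := by
      ext x
      simp only [sel, mem_insert, mem_image, mem_univ, true_and]
      rcases x with b | ⟨j, x⟩
      · constructor
        · intro _
          cases b <;> simp
        · intro _
          exact hused b
      · constructor
        · intro h
          refine Or.inr (Or.inr ⟨j, ?_⟩)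
          rw [← hy j x h]
        · rintro (h | h | ⟨j', h⟩)
          · simp at h
          · simp at h
          · simp only [Sum.inr.injEq, Prod.mk.injEq] at h
            obtain ⟨rfl, h⟩ := h
            have : x = y j' := by
              ext <;> simp [← h]
            rw [this]
            exact hyI j'
    have hmain : ∀ j, decide ((y j).1 = 2) = (α j && β j) := by
      intro j
      have h1 := hI (.inr (.inr (.inl j)))
      rw [hIeq, sum_sel] at h1
      simp only [vec, tgt, Bool.false_eq_true, if_false, if_true, Finset.sum_ite_eq',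
        mem_univ] at h1
      have h2 := (y j).1.2
      rcases h3 : α j <;> rcases h4 : β j <;> rw [h3, h4] at h1 <;>
        simp only [Bool.toNat_false, Bool.toNat_true] at h1 <;>
        simp only [Bool.and_true, Bool.and_false, decide_eq_false_iff_not, decide_eq_true_eq] <;>
        (try intro h5) <;> (try rw [h5] at h1) <;> (try simp at h1)
      apply Fin.ext
      simp only [Fin.val_two]
      omega
    have hchain : ∀ j, xor (y j).2 (y (finRotate m j)).2 = (α j && β j) := by
      intro j
      have h1 := hI (.inr (.inr (.inr (finRotate m j))))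
      rw [hIeq, sum_sel] at h1
      simp only [vec, tgt, zero_add] at h1
      rw [sum_chain (fun j => (y j).1) (fun j => (y j).2), Equiv.symm_apply_apply] at h1
      simp only [out] at h1
      rw [hmain j] at h1
      generalize (y (finRotate m j)).2 = a at h1 ⊢
      generalize (y j).2 = b at h1 ⊢
      generalize (α j && β j) = c at h1 ⊢
      revert h1
      revert a b c
      decide
    have h5 : ∏ j, sg (α j && β j) = (∏ j, sg (y j).2) * ∏ j, sg (y (finRotate m j)).2 := by
      rw [← Finset.prod_mul_distrib]
      refine Finset.prod_congr rfl fun j _ => ?_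
      rw [← hchain j, sg_xor]
    rw [h5, Equiv.prod_comp (finRotate m) (fun j => sg (y j).2), ← Finset.prod_mul_distrib]
    exact Finset.prod_eq_one fun j _ => sg_mul_self _
  · intro h
    obtain ⟨c, hc⟩ := exists_cyclic (fun j => α j && β j) h
    let δ : Fin m → Fin 3 := fun j => if α j && β j then 2 else if α j || β j then 1 else 0
    refine ⟨sel δ c, fun p => ?_⟩
    rw [sum_sel]
    rcases p with b | j | j | g
    · cases b <;> simp [vec, tgt]
    · simp [vec, tgt]
    · simp only [vec, tgt, Bool.false_eq_true, if_false, if_true, Finset.sum_ite_eq', mem_univ]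
      rcases h3 : α j <;> rcases h4 : β j <;> simp [δ, h3, h4]
    · simp only [vec, tgt, zero_add]
      rw [sum_chain]
      obtain ⟨j, rfl⟩ := (finRotate m).surjective g
      rw [Equiv.symm_apply_apply]
      have h1 := hc j
      have h2 : decide (δ j = 2) = (α j && β j) := by
        rcases h3 : α j <;> rcases h4 : β j <;> simp [δ, h3, h4]
      simp only [out]
      rw [h2]
      generalize c (finRotate m j) = a at h1 ⊢
      generalize c j = b at h1 ⊢
      generalize (α j && β j) = c at h1 ⊢
      revert h1
      revert a b c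
      decide

lemma fin_inj {q : ℕ} (v w : Fin q → ℕ) (hv : ∀ i, v i < 16) (hw : ∀ i, w i < 16)
    (h : ∑ i, v i * 16 ^ (i : ℕ) = ∑ i, w i * 16 ^ (i : ℕ)) : v = w := by
  induction q with
  | zero => exact Subsingleton.elim _ _
  | succ q ih =>
    have e : ∀ u : Fin (q + 1) → ℕ, ∑ i, u i * 16 ^ (i : ℕ)
        = u 0 + 16 * ∑ i : Fin q, u i.succ * 16 ^ (i : ℕ) := by
      intro u
      rw [Fin.sum_univ_succ, Finset.mul_sum]
      simp only [Fin.val_zero, pow_zero, mul_one, Fin.val_succ]
      congr 1
      exact Finset.sum_congr rfl fun i _ => by ring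
    rw [e, e] at h
    have h0 : v 0 = w 0 := by
      have h1 := hv 0
      have h2 := hw 0
      omega
    have h1 := ih (fun i => v i.succ) (fun i => w i.succ) (fun i => hv _) (fun i => hw _)
      (by omega)
    funext i
    refine Fin.cases h0 (fun i => congrFun h1 i) i

lemma fin_lt {q : ℕ} (v : Fin q → ℕ) (hv : ∀ i, v i < 16) :
    ∑ i, v i * 16 ^ (i : ℕ) < 16 ^ q := by
  induction q with
  | zero => simp
  | succ q ih =>
    rw [Fin.sum_univ_castSucc]
    have h1 := ih (fun i => v i.castSucc) (fun i => hv _)
    have h2 := hv (Fin.last q)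
    simp only [Fin.val_castSucc, Fin.val_last] at h1 ⊢
    have h3 : v (Fin.last q) * 16 ^ q ≤ 15 * 16 ^ q := Nat.mul_le_mul_right _ (by omega)
    rw [pow_succ]
    omega

lemma card_pos : Fintype.card (Pos m) = 3 * m + 2 := by
  simp
  ring

/-- The enumeration of the positions. -/
noncomputable def posEquiv (m : ℕ) : Pos m ≃ Fin (3 * m + 2) :=
  Fintype.equivFinOfCardEq card_pos

/-- The number with given digits. -/
noncomputable def enc (v : Pos m → ℕ) : ℕ := ∑ p, v p * 16 ^ (posEquiv m p : ℕ)

lemma enc_eq (v : Pos m → ℕ) :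
    enc v = ∑ i, v ((posEquiv m).symm i) * 16 ^ (i : ℕ) := by
  unfold enc
  rw [← Equiv.sum_comp (posEquiv m).symm]
  exact Finset.sum_congr rfl fun i _ => by rw [Equiv.apply_symm_apply]

lemma enc_inj (v w : Pos m → ℕ) (hv : ∀ i, v i < 16) (hw : ∀ i, w i < 16)
    (h : enc v = enc w) : v = w := by
  rw [enc_eq, enc_eq] at h
  have h1 := fin_inj _ _ (fun i => hv _) (fun i => hw _) h
  funext p
  have := congrFun h1 (posEquiv m p)
  simpa using this

lemma enc_lt (v : Pos m → ℕ) (hv : ∀ i, v i < 16) : enc v < 2 ^ (12 * m + 8) := by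
  rw [enc_eq]
  have h := fin_lt (fun i => v ((posEquiv m).symm i)) (fun i => hv _)
  refine lt_of_lt_of_eq h ?_
  rw [show (16 : ℕ) = 2 ^ 4 by norm_num, ← pow_mul]
  congr 1
  ring

lemma sum_enc {ι : Type*} (I : Finset ι) (v : ι → Pos m → ℕ) :
    ∑ x ∈ I, enc (v x) = enc (fun p => ∑ x ∈ I, v x p) := by
  unfold enc
  rw [Finset.sum_comm]
  exact Finset.sum_congr rfl fun p _ => by rw [Finset.sum_mul]

theorem items_iff (α β : Fin m → Bool) :
    (∃ I : Finset (Item m), ∑ x ∈ I, enc (vec α β x) = enc (tgt : Pos m → ℕ)) ↔
      ∏ j, sg (α j && β j) = 1 := by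
  rw [← digits_iff]
  refine exists_congr fun I => ?_
  rw [sum_enc]
  constructor
  · intro h p
    exact congrFun (enc_inj _ _ (fun p => sum_vec_lt' α β I p) tgt_lt h) p
  · intro h
    congr 1
    exact funext h

/-- Transport of a subset sum instance along an embedding of the index set. -/
theorem extend_iff {ι κ : Type*} [Fintype ι] [Fintype κ] (φ : ι ↪ κ) (a : ι → ℕ) (t : ℕ) :
    (∃ I : Finset κ, ∑ x ∈ I, Function.extend φ a 0 x = t) ↔ ∃ I : Finset ι, ∑ x ∈ I, a x = t := by
  classical
  constructor
  · rintro ⟨I, hI⟩
    refine ⟨univ.filter fun x => φ x ∈ I, ?_⟩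
    rw [← hI]
    refine Finset.sum_of_injOn φ (fun x _ y _ h => φ.injective h) ?_ ?_ ?_
    · intro x hx
      simpa using hx
    · intro y hy hy2
      rw [Function.extend_apply']
      · rfl
      · rintro ⟨x, rfl⟩
        exact hy2 ⟨x, by simpa using hy, rfl⟩
    · intro x _
      rw [φ.injective.extend_apply]
  · rintro ⟨I, hI⟩
    refine ⟨I.map φ, ?_⟩
    rw [Finset.sum_map, ← hI]
    exact Finset.sum_congr rfl fun x _ => φ.injective.extend_apply _ _ _

end Pool.Agent.Helper46.SubsetSum
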