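import Mathlib
import Pool.Agent.Helper46.Hadamard
import Pool.Agent.Helper46.Forster
import Pool.Agent.Helper46.PolyRank
import Pool.Agent.Helper46.LowRank
import Pool.Agent.Helper46.SubsetSumGadget

/-!
# Unbounded error determinantal tests for SUBSET SUM
-/

open Finset Matrix Pool.Agent.Helper46 Pool.Agent.Helper46.SatGadget Pool.Agent.Helper46.SubsetSum

namespace Pool.Agent.Helper46.SubsetSumSign

/-- The Hadamard matrix. -/
noncomputable def had {m : ℕ} (α β : Fin m → Bool) : ℝ := ∏ j, sg (α j && β j)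

lemma had_sq {m : ℕ} (α β : Fin m → Bool) : had α β = 1 ∨ had α β = -1 := by
  have h : (had α β) ^ 2 = 1 := by
    unfold had
    rw [← Finset.prod_pow]
    exact Finset.prod_eq_one fun l _ => by rw [sq, sg_mul_self]
  exact sq_eq_one_iff.1 h

lemma had_orth {m : ℕ} (α α' : Fin m → Bool) :
    ∑ β, had α β * had α' β = if α = α' then (2 : ℝ) ^ m else 0 := by
  have h1 : ∀ β : Fin m → Bool, had α β * had α' β
      = ∏ j, (sg (α j && β j) * sg (α' j && β j)) := fun β => (Finset.prod_mul_distrib).symm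
  simp_rw [h1]
  have h2 := Fintype.prod_sum (fun (j : Fin m) (c : Bool) =>
    (sg (α j && c) * sg (α' j && c)))
  rw [← h2]
  simp_rw [Hadamard.two_by_two]
  split_ifs with h
  · subst h
    simp
  · have : ∃ g, α g ≠ α' g := by
      by_contra hcon
      push Not at hcon
      exact h (funext hcon)
    obtain ⟨g, hg⟩ := this
    exact Finset.prod_eq_zero (Finset.mem_univ g) (if_neg hg)

/-- Transport of a factorisation to a standard index set. -/
theorem to_fin {K X Y L : Type*} [Field K] [Fintype L] {D : ℕ} (hD : Fintype.card L ≤ D)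
    (f : X → L → K) (g : Y → L → K) :
    ∃ (f' : X → Fin D → K) (g' : Y → Fin D → K),
      ∀ a b, ∑ l, f' a l * g' b l = ∑ l, f a l * g b l := by
  classical
  obtain ⟨φ⟩ : Nonempty (L ↪ Fin D) := by
    refine Function.Embedding.nonempty_of_card_le ?_
    rwa [Fintype.card_fin]
  refine ⟨fun a => Function.extend φ (f a) 0, fun b => Function.extend φ (g b) 0, fun a b => ?_⟩
  symm
  refine Finset.sum_of_injOn φ (fun x _ y _ h => φ.injective h) (fun i _ => by simp) ?_ ?_
  · intro i _ hi
    change Function.extend φ (f a) 0 i * Function.extend φ (g b) 0 i = 0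
    rw [Function.extend_apply']
    · simp
    · rintro ⟨l, rfl⟩
      exact hi ⟨l, by simp, rfl⟩
  · intro l _
    change f a l * g b l = Function.extend φ (f a) 0 (φ l) * Function.extend φ (g b) 0 (φ l)
    rw [φ.injective.extend_apply, φ.injective.extend_apply]

/-- A polynomial of degree `d` in matrices with a factorisation through `Λ`, where the coefficients
may depend on the second argument. -/
theorem factor_poly {σ Λ X Y : Type*} [Fintype σ] [DecidableEq σ] [Fintype Λ] [DecidableEq Λ]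
    [Nonempty Λ]
    (x : σ → X → Y → ℝ) (f : σ → X → Λ → ℝ) (g : σ → Y → Λ → ℝ)
    (hx : ∀ i a b, x i a b = ∑ l, f i a l * g i b l) (F : Y → MvPolynomial σ ℝ) (d : ℕ)
    (hF : ∀ b, (F b).totalDegree ≤ d) :
    ∃ (u : X → (Fin d → Option σ) × (Fin d → Λ) → ℝ)
      (v : Y → (Fin d → Option σ) × (Fin d → Λ) → ℝ),
      ∀ a b, MvPolynomial.eval (fun i => x i a b) (F b) = ∑ l, u a l * v b l := by
  classical
  have hc := fun b => PolyRank.poly_repr (F b) d (hF b)
  choose c hc using hc
  let l0 : Λ := Classical.arbitrary Λ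
  let f' : Option σ → X → Λ → ℝ := fun o a l => o.elim (if l = l0 then 1 else 0) (fun i => f i a l)
  let g' : Option σ → Y → Λ → ℝ := fun o b l => o.elim (if l = l0 then 1 else 0) (fun i => g i b l)
  have h1 : ∀ (o : Option σ) (a : X) (b : Y),
      o.elim 1 (fun i => x i a b) = ∑ l, f' o a l * g' o b l := by
    intro o a b
    cases o with
    | none => simp [f', g']
    | some i => simp [f', g', hx]
  refine ⟨fun a p => ∏ j, f' (p.1 j) a (p.2 j), fun b p => c b p.1 * ∏ j, g' (p.1 j) b (p.2 j),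
    fun a b => ?_⟩
  rw [hc, ← Finset.univ_product_univ, Finset.sum_product]
  refine Finset.sum_congr rfl fun κ _ => ?_
  simp only [h1]
  have h2 := Fintype.prod_sum (fun (j : Fin d) (l : Λ) => f' (κ j) a l * g' (κ j) b l)
  rw [h2, Finset.mul_sum]
  refine Finset.sum_congr rfl fun lam _ => ?_
  rw [Finset.prod_mul_distrib]
  ring

/-- The family of instances. -/
theorem exists_instances {m n : ℕ} (hn : 6 * m + 1 ≤ n) :
    ∃ (x : (Fin m → Bool) → ℕ) (y : (Fin m → Bool) → Fin n → ℕ) (t : ℕ),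
      t < 2 ^ (12 * m + 8) ∧ (∀ α, x α < 2 ^ (12 * m + 8)) ∧
      (∀ β i, y β i < 2 ^ (12 * m + 8)) ∧
      ∀ α β, (∃ I : Finset (Fin (n + 1)), ∑ i ∈ I, (Fin.cons (x α) (y β) : Fin (n + 1) → ℕ) i = t)
        ↔ had α β = 1 := by
  classical
  obtain ⟨ψ⟩ : Nonempty ((Fin m × Fin 3 × Bool) ↪ Fin (n - 1)) := by
    refine Function.Embedding.nonempty_of_card_le ?_
    simp
    omega
  let φf : Item m → Fin (n + 1) := fun x => x.elim (fun b => if b then ⟨1, by omega⟩ else 0)
    (fun y => ⟨(ψ y).1 + 2, by have := (ψ y).2; omega⟩)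
  have hφ : Function.Injective φf := by
    intro a b hab
    have h := congrArg Fin.val hab
    rcases a with a | a <;> rcases b with b | b
    · cases a <;> cases b <;> simp [φf] at h ⊢
    · exfalso
      cases a <;> simp [φf] at h
    · exfalso
      cases b <;> simp [φf] at h
    · simp only [φf, Sum.elim_inr] at h
      congr 1
      exact ψ.injective (Fin.ext (by omega))
  let φ : Item m ↪ Fin (n + 1) := ⟨φf, hφ⟩
  let a : (Fin m → Bool) → (Fin m → Bool) → Fin (n + 1) → ℕ := fun α β =>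
    Function.extend φ (fun x => enc (vec α β x)) 0
  let z : Fin m → Bool := fun _ => false
  have hx : ∀ α β, a α β 0 = a α z 0 := by
    intro α β
    have h0 : φ (.inl false) = 0 := rfl
    simp only [a]
    rw [← h0, φ.injective.extend_apply, φ.injective.extend_apply]
    congr 1
    funext p
    rcases p with _ | _ | _ | _ <;> rfl
  have hy : ∀ α β (i : Fin n), a α β i.succ = a z β i.succ := by
    intro α β i
    simp only [a]
    by_cases h : ∃ x, φ x = i.succ
    · obtain ⟨x, hx⟩ := h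
      rw [← hx, φ.injective.extend_apply, φ.injective.extend_apply]
      congr 1
      funext p
      rcases x with b | x
      · cases b
        · exfalso
          have : φ (.inl false) = 0 := rfl
          rw [this] at hx
          exact (Fin.succ_ne_zero i) hx.symm
        · rcases p with _ | _ | _ | _ <;> rfl
      · rcases p with _ | _ | _ | _ <;> rfl
    · rw [Function.extend_apply' _ _ _ h, Function.extend_apply' _ _ _ h]
  have hlt : ∀ α β i, a α β i < 2 ^ (12 * m + 8) := by
    intro α β i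
    simp only [a]
    by_cases h : ∃ x, φ x = i
    · obtain ⟨x, hx⟩ := h
      rw [← hx, φ.injective.extend_apply]
      refine enc_lt _ fun p => ?_
      exact lt_of_le_of_lt (Finset.single_le_sum (f := fun x => vec α β x p)
        (fun _ _ => Nat.zero_le _) (Finset.mem_univ x)) (sum_vec_lt α β p)
    · rw [Function.extend_apply' _ _ _ h]
      simp
  refine ⟨fun α => a α z 0, fun β i => a z β i.succ, enc (tgt : Pos m → ℕ),
    enc_lt _ tgt_lt, fun α => hlt _ _ _, fun β i => hlt _ _ _, fun α β => ?_⟩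
  have h2 : (Fin.cons (a α z 0) (fun i : Fin n => a z β i.succ) : Fin (n + 1) → ℕ) = a α β := by
    funext i
    refine Fin.cases ?_ (fun i => ?_) i
    · rw [Fin.cons_zero, hx α β]
    · rw [Fin.cons_succ, hy α β]
  rw [h2]
  simp only [a]
  rw [extend_iff, items_iff]
  rfl

theorem main (m n N d τ s : ℕ) (hn : 6 * m + 1 ≤ n) :
    ∃ t : ℕ, t < 2 ^ (12 * m + 8) ∧
      ∀ (S : Fin N → Type) [∀ k, Fintype (S k)] [∀ k, DecidableEq (S k)],
      (∀ k, Fintype.card (S k) ≤ s) →
      ∀ (U : ∀ k, ℕ → Matrix (S k) (Fin τ) ℂ) (V : ∀ k, ℕ → Matrix (Fin τ) (S k) ℂ)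
        (B : ∀ k, (Fin n → ℕ) → Matrix (S k) (S k) ℂ)
        (F : (Fin n → ℕ) → MvPolynomial (Fin N × Bool) ℝ), (∀ y, (F y).totalDegree ≤ d) →
      (∀ (x : ℕ) (y : Fin n → ℕ), x < 2 ^ (12 * m + 8) → (∀ i, y i < 2 ^ (12 * m + 8)) →
        ((∃ I : Finset (Fin (n + 1)), ∑ i ∈ I, (Fin.cons x y : Fin (n + 1) → ℕ) i = t) ↔
          0 < MvPolynomial.eval (fun z : Fin N × Bool =>
            if z.2 then ((U z.1 x * V z.1 x + B z.1 y).det).re
            else ((U z.1 x * V z.1 x + B z.1 y).det).im) (F y))) →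
      (2 : ℝ) ^ m ≤ ((4 * N + 2) * (s ^ 2 + 1) ^ τ) ^ (2 * d) := by
  classical
  obtain ⟨xx, yy, t, ht, hxlt, hylt, hiff⟩ := exists_instances hn
  refine ⟨t, ht, ?_⟩
  intro S _ _ hS U V B F hF h
  set D : ℕ := (s ^ 2 + 1) ^ τ with hD
  have hD0 : 0 < D := by positivity
  have : NeZero D := ⟨hD0.ne'⟩
  have hfac : ∀ k, ∃ (f g : (Fin m → Bool) → Fin D → ℂ), ∀ a b,
      (U k (xx a) * V k (xx a) + B k (yy b)).det = ∑ l, f a l * g b l := by
    intro k
    obtain ⟨f, g, hfg⟩ := LowRank.det_factor (K := ℂ) (S := S k) (X := Fin m → Bool)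
      (Y := Fin m → Bool) τ (fun j a i => U k (xx a) i j) (fun j a i => V k (xx a) j i)
      (fun b => B k (yy b))
    have hcard : Fintype.card (Fin τ → Option (S k × S k)) ≤ D := by
      rw [Fintype.card_fun, Fintype.card_option, Fintype.card_prod, Fintype.card_fin, hD, ← sq]
      exact Nat.pow_le_pow_left (Nat.add_le_add_right (Nat.pow_le_pow_left (hS k) 2) 1) τ
    obtain ⟨f', g', hfg'⟩ := to_fin hcard f g
    refine ⟨f', g', fun a b => ?_⟩
    rw [hfg', ← hfg, add_comm]
    congr 2
    ext i j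
    rw [Matrix.mul_apply, Matrix.sum_apply]
    rfl
  choose f g hfg using hfac
  have hre := fun k => PolyRank.factor_re_im (f k) (g k)
  choose f' g' hfg' using hre
  let x : Fin N × Bool → (Fin m → Bool) → (Fin m → Bool) → ℝ := fun z a b =>
    if z.2 then ((U z.1 (xx a) * V z.1 (xx a) + B z.1 (yy b)).det).re
        else ((U z.1 (xx a) * V z.1 (xx a) + B z.1 (yy b)).det).im
  have hx : ∀ z a b, x z a b = ∑ l, f' z.1 z.2 a l * g' z.1 z.2 b l := by
    rintro ⟨k, e⟩ a b
    simp only [x]
    rw [hfg]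
    cases e
    · simpa using (hfg' k a b).2
    · simpa using (hfg' k a b).1
  -- a margin
  obtain ⟨δ, hδ0, hδ⟩ : ∃ δ : ℝ, 0 < δ ∧ ∀ α β : Fin m → Bool,
      0 < MvPolynomial.eval (fun z => x z α β) (F (yy β)) →
        δ < MvPolynomial.eval (fun z => x z α β) (F (yy β)) := by
    have h1 : ∀ᶠ δ : ℝ in nhdsWithin 0 (Set.Ioi 0), ∀ α β : Fin m → Bool,
        0 < MvPolynomial.eval (fun z => x z α β) (F (yy β)) →
          δ < MvPolynomial.eval (fun z => x z α β) (F (yy β)) := by
      rw [Filter.eventually_all]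
      intro α
      rw [Filter.eventually_all]
      intro β
      rcases le_or_gt (MvPolynomial.eval (fun z => x z α β) (F (yy β))) 0 with h2 | h2
      · exact Filter.Eventually.of_forall fun δ h3 => absurd h3 (not_lt.2 h2)
      · filter_upwards [nhdsWithin_le_nhds (Iio_mem_nhds h2)] with δ h3 _
        exact h3
    obtain ⟨δ, h2, h3⟩ := (h1.and self_mem_nhdsWithin).exists
    exact ⟨δ, h3, h2⟩
  have hF' : ∀ b, (F (yy b) - MvPolynomial.C δ).totalDegree ≤ d := fun b =>
    (MvPolynomial.totalDegree_sub_C_le _ _).trans (hF _)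
  obtain ⟨u, v, huv⟩ := factor_poly x (fun z => f' z.1 z.2) (fun z => g' z.1 z.2) hx
    (fun b => F (yy b) - MvPolynomial.C δ) d hF'
  have hcardT : (Fintype.card (Fin m → Bool) : ℝ) = (2 : ℝ) ^ m := by
    simp
  have key := Forster.forster_index (A := Fin m → Bool) (B := Fin m → Bool)
    ((2 : ℝ) ^ m) hcardT hcardT (fun b a => had a b)
    (fun b a => by rcases had_sq a b with h1 | h1 <;> simp [h1])
    (fun a a' => had_orth a a') v u
    (by
      intro b a
      have h1 : ∑ l, v b l * u a l = MvPolynomial.eval (fun z => x z a b) (F (yy b)) - δ := by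
        rw [Finset.sum_congr rfl fun l _ => mul_comm (v b l) (u a l), ← huv, map_sub,
          MvPolynomial.eval_C]
      rw [h1]
      have h2 := h (xx a) (yy b) (hxlt a) (hylt b)
      rw [hiff] at h2
      change had a b = 1 ↔ 0 < MvPolynomial.eval (fun z => x z a b) (F (yy b)) at h2
      rcases had_sq a b with h3 | h3
      · rw [h3, one_mul, sub_pos]
        exact hδ a b (h2.1 h3)
      · have h4 : ¬ 0 < MvPolynomial.eval (fun z => x z a b) (F (yy b)) := fun h5 => by
          have := h2.2 h5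
          rw [h3] at this
          norm_num at this
        rw [h3]
        linarith [not_lt.1 h4])
  refine key.trans (le_of_eq ?_)
  rw [Fintype.card_prod, Fintype.card_fun, Fintype.card_fun, Fintype.card_option,
    Fintype.card_prod, Fintype.card_prod, Fintype.card_fin, Fintype.card_fin, Fintype.card_fin,
    Fintype.card_bool, hD]
  push_cast
  rw [← mul_pow, ← pow_mul, mul_comm d 2]
  congr 1
  ring

/-- A matrix of rank at most `τ` is a product of matrices with inner dimension `τ`. -/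
theorem exists_factor {S : Type*} [Fintype S] [DecidableEq S] {τ : ℕ} (A : Matrix S S ℂ)
    (h : A.rank ≤ τ) : ∃ (U : Matrix S (Fin τ) ℂ) (V : Matrix (Fin τ) S ℂ), U * V = A := by
  classical
  let W : Submodule ℂ (S → ℂ) := LinearMap.range A.mulVecLin
  have hW : Module.finrank ℂ W ≤ τ := h
  let b := Module.finBasis ℂ W
  have hcol : ∀ j, A *ᵥ (Pi.single j 1) ∈ W := fun j => ⟨Pi.single j 1, rfl⟩
  obtain ⟨f', g', hfg⟩ := to_fin (K := ℂ) (X := S) (Y := S) (L := Fin (Module.finrank ℂ W))
    (D := τ) (by rwa [Fintype.card_fin]) (fun i l => ((b l : W) : S → ℂ) i)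
    (fun j l => b.repr ⟨A *ᵥ (Pi.single j 1), hcol j⟩ l)
  refine ⟨Matrix.of f', Matrix.of fun l j => g' j l, ?_⟩
  ext i j
  rw [Matrix.mul_apply]
  simp only [Matrix.of_apply]
  rw [hfg]
  have h1 := b.sum_repr ⟨A *ᵥ (Pi.single j 1), hcol j⟩
  have h2 := congrArg (fun w : W => (w : S → ℂ) i) h1
  simp only [Submodule.coe_sum, Submodule.coe_smul, Finset.sum_apply, Pi.smul_apply,
    smul_eq_mul] at h2
  have h3 : (A *ᵥ Pi.single j 1) i = A i j := by
    rw [Matrix.mulVec_single_one]
    rfl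
  rw [← h3, ← h2]
  exact Finset.sum_congr rfl fun l _ => mul_comm _ _

/-- The main theorem, with the rank instead of factorisations. -/
theorem main_rank (m n N d τ s : ℕ) (hn : 6 * m + 1 ≤ n) :
    ∃ t : ℕ, t < 2 ^ (12 * m + 8) ∧
      ∀ (S : Fin N → Type) [∀ k, Fintype (S k)] [∀ k, DecidableEq (S k)],
      (∀ k, Fintype.card (S k) ≤ s) →
      ∀ (A : ∀ k, ℕ → Matrix (S k) (S k) ℂ), (∀ k x, (A k x).rank ≤ τ) →
      ∀ (B : ∀ k, (Fin n → ℕ) → Matrix (S k) (S k) ℂ)
        (F : (Fin n → ℕ) → MvPolynomial (Fin N × Bool) ℝ), (∀ y, (F y).totalDegree ≤ d) →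
      (∀ (x : ℕ) (y : Fin n → ℕ), x < 2 ^ (12 * m + 8) → (∀ i, y i < 2 ^ (12 * m + 8)) →
        ((∃ I : Finset (Fin (n + 1)), ∑ i ∈ I, (Fin.cons x y : Fin (n + 1) → ℕ) i = t) ↔
          0 < MvPolynomial.eval (fun z : Fin N × Bool =>
            if z.2 then ((A z.1 x + B z.1 y).det).re
            else ((A z.1 x + B z.1 y).det).im) (F y))) →
      (2 : ℝ) ^ m ≤ ((4 * N + 2) * (s ^ 2 + 1) ^ τ) ^ (2 * d) := by
  obtain ⟨t, ht, hmain⟩ := main m n N d τ s hn
  refine ⟨t, ht, ?_⟩
  intro S _ _ hS A hA B F hF h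
  have hUV : ∀ k x, ∃ (U : Matrix (S k) (Fin τ) ℂ) (V : Matrix (Fin τ) (S k) ℂ), U * V = A k x :=
    fun k x => exists_factor (A k x) (hA k x)
  choose U V hUV using hUV
  refine hmain S hS U V B F hF ?_
  intro x y hx hy
  simp_rw [hUV]
  exact h x y hx hy

end Pool.Agent.Helper46.SubsetSumSign
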