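import Mathlib
import Pool.Agent.Lead.RankAdditive
import Pool.Agent.Helper46.Corr
import Pool.Agent.Helper46.Hadamard

/-!
# Two-sided error randomised determinantal tests for 3-SAT

A randomised estimator of satisfiability of formulas with `n` clauses of at most three literals
whose value is, for each outcome of the random bits, a linear combination of `N` determinants into
which the `i`-th clause enters with rank at most `τ i`, needs exponentially large `N` or
exponentially large second moment.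
-/

open Finset Pool.Agent.Lead Pool.Agent.Helper46 Pool.Agent.Helper46.Sat
  Pool.Agent.Helper46.SatGadget Pool.Agent.Helper46.Hadamard

namespace Pool.Agent.Helper46.TwoSided

/-- The bound for formulas in which the first `2 m` clauses vary. -/
theorem bound {n N r m : ℕ} (hm : 1 ≤ m) (hr : 1 ≤ r) (hmn : m * (2 * r * 2 ^ r + 7 * r + 2) ≤ n)
    (τ : Fin n → ℕ)
    {Ω : Type*} [Fintype Ω] (p : Ω → ℝ) (hp : ∀ ω, 0 ≤ p ω) (hp1 : ∑ ω, p ω = 1)
    (S : Ω → Fin N → Type) [∀ ω k, Fintype (S ω k)] [∀ ω k, DecidableEq (S ω k)]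
    (c : Ω → Fin N → ℂ)
    (C : ∀ ω k, Matrix (S ω k) (S ω k) ℂ)
    (P : ∀ (ω : Ω) (k : Fin N) (i : Fin n), Matrix (S ω k) (Fin (τ i)) ℂ)
    (Q : ∀ (ω : Ω) (k : Fin N) (i : Fin n),
      Finset (Fin n × Bool) → Matrix (Fin (τ i)) (S ω k) ℂ)
    (B : ℝ)
    (hB : ∀ φ : Fin n → Finset (Fin n × Bool), (∀ i, (φ i).card ≤ 3) →
      ∑ ω, p ω * ‖∑ k, c ω k * (C ω k + ∑ i, P ω k i * Q ω k i (φ i)).det‖ ^ 2 ≤ B)
    (hyes : ∀ φ : Fin n → Finset (Fin n × Bool), (∀ i, (φ i).card ≤ 3) → Satisfiable φ →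
      2 / 3 ≤ ∑ ω, p ω * (∑ k, c ω k * (C ω k + ∑ i, P ω k i * Q ω k i (φ i)).det).re)
    (hno : ∀ φ : Fin n → Finset (Fin n × Bool), (∀ i, (φ i).card ≤ 3) → ¬ Satisfiable φ →
      ∑ ω, p ω * (∑ k, c ω k * (C ω k + ∑ i, P ω k i * Q ω k i (φ i)).det).re ≤ 1 / 3) :
    (2 : ℝ) ^ (r * m) ≤ 36 * B * (N * 2 ^ (∑ i ∈ univ.filter (fun i : Fin n => i.1 < 2 * m), τ i)) := by
  classical
  set T : ℝ := (2 : ℝ) ^ (r * m) with hT
  have hT0 : 0 < T := by positivity
  -- the enumeration of the fixed clauses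
  have hs : ∃ s : Fin n → Fixed m r, ∀ q, ∃ i : Fin n, 2 * m ≤ i.1 ∧ s i = q := by
    have hne : Nonempty (Fixed m r) :=
      ⟨Sum.inr ((⟨0, hm⟩, ⟨0, hr⟩), Sum.inl 0)⟩
    have hcard : Fintype.card (Fixed m r) ≤ Fintype.card {i : Fin n // 2 * m ≤ i.1} := by
      have h2 : n - 2 * m ≤ Fintype.card {i : Fin n // 2 * m ≤ i.1} := by
        have h3 : Fintype.card (Fin (n - 2 * m)) ≤ Fintype.card {i : Fin n // 2 * m ≤ i.1} := by
          refine Fintype.card_le_of_injective
            (fun j : Fin (n - 2 * m) => (⟨⟨2 * m + j.1, by have := j.2; omega⟩, by simp⟩ :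
              {i : Fin n // 2 * m ≤ i.1})) ?_
          intro a b hab
          have h4 := congrArg (fun x : {i : Fin n // 2 * m ≤ i.1} => x.1.1) hab
          simp only at h4
          ext
          omega
        simpa using h3
      rw [card_fixedType]
      have h5 : m * (2 * r * 2 ^ r + 7 * r + 2) = m * (2 * r * 2 ^ r + 7 * r) + 2 * m := by ring
      omega
    obtain ⟨e⟩ := Function.Embedding.nonempty_of_card_le hcard
    refine ⟨fun i => if h : 2 * m ≤ i.1 then Function.invFun e ⟨i, h⟩ else Classical.arbitrary _,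
      fun q => ⟨(e q).1, (e q).2, ?_⟩⟩
    simp only [(e q).2, dif_pos]
    exact Function.leftInverse_invFun e.injective q
  obtain ⟨s, hs⟩ := hs
  -- the embedding of the variables
  have hι : Nonempty (Var m r ↪ Fin n) := by
    refine Function.Embedding.nonempty_of_card_le ?_
    rw [card_var, Fintype.card_fin]
    refine le_trans (Nat.mul_le_mul_left m ?_) hmn
    have h2 : 2 * 2 ^ r ≤ 2 * r * 2 ^ r := by
      refine Nat.mul_le_mul_right _ ?_
      omega
    omega
  obtain ⟨ι⟩ := hι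
  have h2mn : 2 * m ≤ n := by nlinarith [Nat.zero_le (m * (2 * r * 2 ^ r)), Nat.zero_le (m * r)]
  let Φ : (Fin m → Fin r → Bool) → (Fin m → Fin r → Bool) → Fin n → Finset (Fin n × Bool) :=
    fun α β i => (formula s α β i).map (ι.prodMap (Function.Embedding.refl Bool))
  have hΦ3 : ∀ α β i, (Φ α β i).card ≤ 3 := by
    intro α β i
    simp only [Φ, card_map]
    exact card_formula _ _ _ _
  have hΦsat : ∀ α β, Satisfiable (Φ α β) ↔ H m r α β = 1 := by
    intro α β
    rw [show Φ α β = fun i => (formula s α β i).map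
      (ι.prodMap (Function.Embedding.refl Bool)) from rfl, satisfiable_map,
      sat_iff s h2mn hs α β]
    rfl
  let V : Ω → (Fin m → Fin r → Bool) → (Fin m → Fin r → Bool) → ℂ := fun ω α β =>
    ∑ k, c ω k * (C ω k + ∑ i, P ω k i * Q ω k i (Φ α β i)).det
  -- factorisation
  have hfac : ∀ ω k, ∃ (d : ℕ) (f g : (Fin m → Fin r → Bool) → Fin d → ℂ),
      d ≤ 2 ^ (∑ i ∈ univ.filter (fun i : Fin n => i.1 < 2 * m), τ i) ∧
      ∀ a b, (C ω k + ∑ i, P ω k i * Q ω k i (Φ a b i)).det = ∑ i, f a i * g b i := by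
    intro ω k
    let IA : Finset (Fin n) := univ.filter (fun i => i.1 < m)
    let IB : Finset (Fin n) := univ.filter (fun i => m ≤ i.1 ∧ i.1 < 2 * m)
    have hIAB : IA ∪ IB = univ.filter (fun i : Fin n => i.1 < 2 * m) := by
      ext i
      simp only [IA, IB, mem_union, mem_filter, mem_univ, true_and]
      omega
    obtain ⟨d, f, g, hd, hfg⟩ := RankAdditive.det_factor_sum (K := ℂ) (S := S ω k)
      (α := Fin m → Fin r → Bool) (β := Fin m → Fin r → Bool)
      τ (C ω k) (P ω k) (fun a b i => Q ω k i (Φ a b i)) IA IB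
      (by
        rw [Finset.disjoint_left]
        intro i h1 h2
        simp only [IA, IB, mem_filter, mem_univ, true_and] at h1 h2
        omega)
      (by
        intro i hi a b b'
        simp only [IA, mem_filter, mem_univ, true_and] at hi
        have : Φ a b i = Φ a b' i := by
          simp only [Φ, formula, hi, dif_pos]
        rw [this])
      (by
        intro i hi a a' b
        simp only [IB, mem_filter, mem_univ, true_and] at hi
        have hi1 : ¬ i.1 < m := by omega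
        have : Φ a b i = Φ a' b i := by
          simp only [Φ, formula, hi1, dif_neg, not_false_iff]
        rw [this])
      (by
        intro i hiA hiB a a' b b'
        have h1 : ¬ i.1 < m := fun hlt => hiA (by simp [IA, hlt])
        have h2 : ¬ i.1 < 2 * m := fun hlt => hiB (by simp [IB, hlt]; omega)
        have h3 : ¬ i.1 - m < m := by omega
        have : Φ a b i = Φ a' b' i := by
          simp only [Φ, formula, h1, h3, dif_neg, not_false_iff]
        rw [this])
    rw [hIAB] at hd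
    exact ⟨d, f, g, hd, hfg⟩
  choose d f g hd hfg using hfac
  set s' : ℕ := ∑ i ∈ univ.filter (fun i : Fin n => i.1 < 2 * m), τ i with hs'
  let x : Ω → ℝ := fun ω => ∑ α, ∑ β, H m r α β * (V ω α β).re
  have hx : ∀ ω, (x ω) ^ 2 ≤ T * (N * 2 ^ s') * ∑ α, ∑ β, ‖V ω α β‖ ^ 2 := by
    intro ω
    have h1 := Corr.corr_le (H m r) T hT0.le (orth m r) (L := Σ k : Fin N, Fin (d ω k))
      (fun a l => c ω l.1 * f ω l.1 a l.2) (fun b l => g ω l.1 b l.2) (V ω) (by
        intro a b
        rw [Fintype.sum_sigma]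
        refine Finset.sum_congr rfl fun k _ => ?_
        rw [hfg, Finset.mul_sum]
        exact Finset.sum_congr rfl fun l _ => by ring)
    refine h1.trans ?_
    refine mul_le_mul_of_nonneg_right ?_
      (Finset.sum_nonneg fun a _ => Finset.sum_nonneg fun b _ => by positivity)
    refine mul_le_mul_of_nonneg_left ?_ hT0.le
    rw [Fintype.card_sigma]
    simp only [Fintype.card_fin]
    have h2 : ∑ k : Fin N, d ω k ≤ ∑ _k : Fin N, 2 ^ s' := Finset.sum_le_sum fun k _ => hd ω k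
    rw [Finset.sum_const, Finset.card_univ, Fintype.card_fin, smul_eq_mul] at h2
    exact_mod_cast h2
  -- second moments
  have hcardT : (Fintype.card (Fin m → Fin r → Bool) : ℝ) = T := by
    rw [hT]
    simp [pow_mul]
  have hF : ∑ ω, p ω * ∑ α, ∑ β, ‖V ω α β‖ ^ 2 ≤ B * T ^ 2 := by
    have h1 : ∑ ω, p ω * ∑ α, ∑ β, ‖V ω α β‖ ^ 2 = ∑ α, ∑ β, ∑ ω, p ω * ‖V ω α β‖ ^ 2 := by
      simp_rw [Finset.mul_sum]
      rw [Finset.sum_comm]
      exact Finset.sum_congr rfl fun α _ => Finset.sum_comm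
    rw [h1]
    calc ∑ α, ∑ β, ∑ ω, p ω * ‖V ω α β‖ ^ 2
        ≤ ∑ _α : Fin m → Fin r → Bool, ∑ _β : Fin m → Fin r → Bool, B :=
          Finset.sum_le_sum fun α _ => Finset.sum_le_sum fun β _ => hB _ (hΦ3 α β)
      _ = B * T ^ 2 := by
          rw [Finset.sum_const, Finset.sum_const, Finset.card_univ, nsmul_eq_mul, nsmul_eq_mul,
            hcardT]
          ring
  -- the expectation of the correlation
  set X : ℝ := ∑ ω, p ω * x ω with hX
  have hXlow : T ^ 2 / 6 ≤ X := by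
    have h1 : X = ∑ α, ∑ β, H m r α β * ∑ ω, p ω * (V ω α β).re := by
      rw [hX]
      simp only [x]
      simp_rw [Finset.mul_sum]
      rw [Finset.sum_comm]
      refine Finset.sum_congr rfl fun α _ => ?_
      rw [Finset.sum_comm]
      refine Finset.sum_congr rfl fun β _ => Finset.sum_congr rfl fun ω _ => ?_
      ring
    have h2 : ∀ α β, 1 / 6 + H m r α β / 2 ≤ H m r α β * ∑ ω, p ω * (V ω α β).re := by
      intro α β
      rcases H_sq m r α β with h | h
      · have h3 := hyes _ (hΦ3 α β) ((hΦsat α β).2 h)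
        rw [h]
        simp only [V]
        linarith
      · have h3 := hno _ (hΦ3 α β) (fun hc => by
          have := (hΦsat α β).1 hc
          rw [h] at this
          norm_num at this)
        rw [h]
        simp only [V]
        linarith
    rw [h1]
    have h4 : ∑ α, ∑ β, (1 / 6 + H m r α β / 2) = T ^ 2 / 6 + (∑ α, ∑ β, H m r α β) / 2 := by
      simp_rw [Finset.sum_add_distrib, Finset.sum_const, Finset.card_univ, nsmul_eq_mul, hcardT,
        Finset.sum_div]
      ring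
    have h5 := sum_H m r
    calc T ^ 2 / 6 ≤ ∑ α, ∑ β, (1 / 6 + H m r α β / 2) := by rw [h4]; linarith
      _ ≤ _ := Finset.sum_le_sum fun α _ => Finset.sum_le_sum fun β _ => h2 α β
  have hJ : X ^ 2 ≤ ∑ ω, p ω * (x ω) ^ 2 := by
    have h1 : 0 ≤ ∑ ω, p ω * (x ω - X) ^ 2 :=
      Finset.sum_nonneg fun ω _ => mul_nonneg (hp ω) (sq_nonneg _)
    have h2 : ∑ ω, p ω * (x ω - X) ^ 2 = ∑ ω, p ω * (x ω) ^ 2 - 2 * X * ∑ ω, p ω * x ω
        + X ^ 2 * ∑ ω, p ω := by
      simp only [Finset.mul_sum]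
      rw [← Finset.sum_sub_distrib, ← Finset.sum_add_distrib]
      exact Finset.sum_congr rfl fun ω _ => by ring
    rw [h2, hp1, ← hX] at h1
    nlinarith
  have hfin : X ^ 2 ≤ T * (N * 2 ^ s') * (B * T ^ 2) := by
    calc X ^ 2 ≤ ∑ ω, p ω * (x ω) ^ 2 := hJ
      _ ≤ ∑ ω, p ω * (T * (N * 2 ^ s') * ∑ α, ∑ β, ‖V ω α β‖ ^ 2) :=
          Finset.sum_le_sum fun ω _ => mul_le_mul_of_nonneg_left (hx ω) (hp ω)
      _ = T * (N * 2 ^ s') * ∑ ω, p ω * ∑ α, ∑ β, ‖V ω α β‖ ^ 2 := by
          rw [Finset.mul_sum]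
          exact Finset.sum_congr rfl fun ω _ => by ring
      _ ≤ _ := mul_le_mul_of_nonneg_left hF (by positivity)
  have hXX : (T ^ 2 / 6) ^ 2 ≤ X ^ 2 := pow_le_pow_left₀ (by positivity) hXlow 2
  have h9 : T ^ 3 * T ≤ T ^ 3 * (36 * B * (N * 2 ^ s')) := by
    nlinarith [hXX.trans hfin]
  exact le_of_mul_le_mul_left h9 (by positivity)

/-- A randomised estimator of the satisfiability of 3-CNF formulas with `n` clauses whose value is,
for each outcome of the random bits, a linear combination of `N` determinants into which the `i`-th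
clause enters with rank at most `τ i`: if its expectation separates the satisfiable formulas from
the unsatisfiable ones and its second moment is at most `B`, then `B N` is exponentially large. -/
theorem main (n N : ℕ) (τ : Fin n → ℕ)
    {Ω : Type*} [Fintype Ω] (p : Ω → ℝ) (hp : ∀ ω, 0 ≤ p ω) (hp1 : ∑ ω, p ω = 1)
    (S : Ω → Fin N → Type) [∀ ω k, Fintype (S ω k)] [∀ ω k, DecidableEq (S ω k)]
    (c : Ω → Fin N → ℂ)
    (C : ∀ ω k, Matrix (S ω k) (S ω k) ℂ)
    (P : ∀ (ω : Ω) (k : Fin N) (i : Fin n), Matrix (S ω k) (Fin (τ i)) ℂ)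
    (Q : ∀ (ω : Ω) (k : Fin N) (i : Fin n),
      Finset (Fin n × Bool) → Matrix (Fin (τ i)) (S ω k) ℂ)
    (B : ℝ)
    (hB : ∀ φ : Fin n → Finset (Fin n × Bool), (∀ i, (φ i).card ≤ 3) →
      ∑ ω, p ω * ‖∑ k, c ω k * (C ω k + ∑ i, P ω k i * Q ω k i (φ i)).det‖ ^ 2 ≤ B)
    (hyes : ∀ φ : Fin n → Finset (Fin n × Bool), (∀ i, (φ i).card ≤ 3) → Satisfiable φ →
      2 / 3 ≤ ∑ ω, p ω * (∑ k, c ω k * (C ω k + ∑ i, P ω k i * Q ω k i (φ i)).det).re)
    (hno : ∀ φ : Fin n → Finset (Fin n × Bool), (∀ i, (φ i).card ≤ 3) → ¬ Satisfiable φ →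
      ∑ ω, p ω * (∑ k, c ω k * (C ω k + ∑ i, P ω k i * Q ω k i (φ i)).det).re ≤ 1 / 3)
    (r : ℕ) :
    ((2 : ℝ) ^ r / 4 ^ ((∑ i, (τ i : ℝ)) / n)) ^ (n / (2 * r * 2 ^ r + 7 * r + 2))
      ≤ 36 * B * N := by
  classical
  set a : ℝ := (∑ i, (τ i : ℝ)) / n with ha
  have ha0 : 0 ≤ a := by positivity
  have h4a : (1 : ℝ) ≤ 4 ^ a := Real.one_le_rpow (by norm_num) ha0
  -- a lower bound for the right hand side
  have hBN : 1 ≤ 36 * B * N := by
    obtain ⟨φ, hφ3, hφ⟩ : ∃ φ : Fin n → Finset (Fin n × Bool), (∀ i, (φ i).card ≤ 3) ∧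
        Satisfiable φ := by
      refine ⟨fun i => {(i, true)}, fun i => by simp, fun _ => true, fun i => ?_⟩
      exact ⟨(i, true), mem_singleton_self _, rfl⟩
    have h1 := hyes φ hφ3 hφ
    have h2 := hB φ hφ3
    set v : Ω → ℂ := fun ω => ∑ k, c ω k * (C ω k + ∑ i, P ω k i * Q ω k i (φ i)).det with hv
    change 2 / 3 ≤ ∑ ω, p ω * (v ω).re at h1
    change ∑ ω, p ω * ‖v ω‖ ^ 2 ≤ B at h2
    have hN : 1 ≤ N := by
      by_contra hN
      have hN0 : N = 0 := by omega
      subst hN0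
      have : ∀ ω, v ω = 0 := fun ω => by simp [hv]
      simp only [this, Complex.zero_re, mul_zero, Finset.sum_const_zero] at h1
      norm_num at h1
    set X : ℝ := ∑ ω, p ω * (v ω).re with hX
    have h3 : X ^ 2 ≤ ∑ ω, p ω * (v ω).re ^ 2 := by
      have h1 : 0 ≤ ∑ ω, p ω * ((v ω).re - X) ^ 2 :=
        Finset.sum_nonneg fun ω _ => mul_nonneg (hp ω) (sq_nonneg _)
      have h2 : ∑ ω, p ω * ((v ω).re - X) ^ 2
          = ∑ ω, p ω * (v ω).re ^ 2 - 2 * X * ∑ ω, p ω * (v ω).re + X ^ 2 * ∑ ω, p ω := by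
        simp only [Finset.mul_sum]
        rw [← Finset.sum_sub_distrib, ← Finset.sum_add_distrib]
        exact Finset.sum_congr rfl fun ω _ => by ring
      rw [h2, hp1, ← hX] at h1
      nlinarith
    have h4 : ∑ ω, p ω * (v ω).re ^ 2 ≤ ∑ ω, p ω * ‖v ω‖ ^ 2 := by
      refine Finset.sum_le_sum fun ω _ => mul_le_mul_of_nonneg_left ?_ (hp ω)
      rw [← sq_abs (v ω).re]
      exact pow_le_pow_left₀ (abs_nonneg _) (Complex.abs_re_le_norm _) 2
    have h5 : (2 / 3 : ℝ) ^ 2 ≤ X ^ 2 := pow_le_pow_left₀ (by norm_num) h1 2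
    have hB49 : 4 / 9 ≤ B := by
      have : (2 / 3 : ℝ) ^ 2 = 4 / 9 := by norm_num
      linarith
    have hN' : (1 : ℝ) ≤ N := by exact_mod_cast hN
    nlinarith
  set q : ℕ := 2 * r * 2 ^ r + 7 * r + 2 with hq
  set m : ℕ := n / q with hm
  rcases Nat.eq_zero_or_pos m with hm0 | hm0
  · rw [hm0, pow_zero]; exact hBN
  rcases Nat.eq_zero_or_pos r with hr0 | hr0
  · refine le_trans (pow_le_one₀ (by positivity) ?_) hBN
    rw [hr0, pow_zero]
    exact div_le_one_of_le₀ h4a (by positivity)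
  have hmn : m * q ≤ n := Nat.div_mul_le_self n _
  have h2m : 2 * m ≤ n := by
    have : 2 ≤ q := by omega
    nlinarith
  have hn : 0 < n := by omega
  -- the clauses may be reordered
  let ρ : Equiv.Perm (Fin n) := Tuple.sort τ
  have hmono : Monotone (fun i => τ (ρ i)) := Tuple.monotone_sort τ
  have hV : ∀ (ω : Ω) (φ : Fin n → Finset (Fin n × Bool)),
      ∑ k, c ω k * (C ω k + ∑ i, P ω k (ρ i) * Q ω k (ρ i) (φ i)).det
      = ∑ k, c ω k * (C ω k + ∑ i, P ω k i * Q ω k i (φ (ρ.symm i))).det := by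
    intro ω φ
    refine Finset.sum_congr rfl fun k _ => ?_
    congr 3
    rw [← Equiv.sum_comp ρ (fun i => P ω k i * Q ω k i (φ (ρ.symm i)))]
    refine Finset.sum_congr rfl fun i _ => ?_
    rw [Equiv.symm_apply_apply]
  have h1 := bound (N := N) hm0 hr0 hmn (fun i => τ (ρ i)) p hp hp1 S c C
    (fun ω k i => P ω k (ρ i)) (fun ω k i => Q ω k (ρ i)) B
    (by
      intro φ hφ
      simp_rw [hV]
      exact hB (fun i => φ (ρ.symm i)) (fun i => hφ _))
    (by
      intro φ hφ hsat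
      simp_rw [hV]
      exact hyes (fun i => φ (ρ.symm i)) (fun i => hφ _) ((satisfiable_perm ρ.symm φ).2 hsat))
    (by
      intro φ hφ hsat
      simp_rw [hV]
      exact hno (fun i => φ (ρ.symm i)) (fun i => hφ _)
        (fun h => hsat ((satisfiable_perm ρ.symm φ).1 h)))
  have h4 := RankAdditive.mul_sum_filter_le (m := 2 * m) (fun i => τ (ρ i)) hmono
  rw [min_eq_left h2m, Equiv.sum_comp ρ τ] at h4
  set s : ℕ := ∑ i ∈ univ.filter (fun i : Fin n => i.1 < 2 * m), τ (ρ i) with hs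
  have hn' : (0 : ℝ) < n := by exact_mod_cast hn
  have h5 : (s : ℝ) ≤ 2 * m * a := by
    rw [ha, mul_div_assoc', le_div_iff₀ hn']
    have : ((n * s : ℕ) : ℝ) ≤ ((2 * m * ∑ i, τ i : ℕ) : ℝ) := by exact_mod_cast h4
    push_cast at this
    linarith
  have h6 : (2 : ℝ) ^ s ≤ ((4 : ℝ) ^ a) ^ m := by
    have e1 : ((4 : ℝ) ^ a) ^ m = (2 : ℝ) ^ (2 * m * a) := by
      rw [← Real.rpow_natCast, ← Real.rpow_mul (by norm_num),
        show (4 : ℝ) = (2 : ℝ) ^ (2 : ℝ) by norm_num, ← Real.rpow_mul (by norm_num)]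
      congr 1; ring
    rw [e1, ← Real.rpow_natCast]
    exact Real.rpow_le_rpow_of_exponent_le (by norm_num) h5
  rw [div_pow, div_le_iff₀ (by positivity), ← pow_mul]
  refine h1.trans ?_
  rw [← mul_assoc]
  exact mul_le_mul_of_nonneg_left h6 (by linarith)

end Pool.Agent.Helper46.TwoSided
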